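import Mathlib

/-! Covering of the upper unit half circle by the cones over consecutive nodes, and of an
interval by the segments between consecutive nodes. -/

namespace Pool.Agent.BNC

/-- the cross product of two complex numbers -/
def crs (p q : ℂ) : ℝ := p.re * q.im - p.im * q.re

/-- A point of the unit circle in the cone over `p`, `q` (both of norm at most `1`). -/
theorem cone_pt {p q e : ℂ} (hp : ‖p‖ ≤ 1) (hq : ‖q‖ ≤ 1) (he : ‖e‖ = 1)
    (hpq : 0 < crs p q) (h0 : 0 ≤ crs p e) (h1 : crs q e ≤ 0) :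
    ∃ u S : ℝ, 0 ≤ u ∧ u ≤ 1 ∧ 1 ≤ S ∧ e = (S : ℂ) * ((1 - (u : ℂ)) * p + (u : ℂ) * q) := by
  have hDne : crs p q ≠ 0 := ne_of_gt hpq
  obtain ⟨D, hD⟩ : ∃ D, D = crs p q := ⟨_, rfl⟩
  obtain ⟨A, hA⟩ : ∃ A, A = -crs q e := ⟨_, rfl⟩
  obtain ⟨B, hB⟩ : ∃ B, B = crs p e := ⟨_, rfl⟩
  have hA0 : 0 ≤ A := by rw [hA]; linarith
  have hB0 : 0 ≤ B := by rw [hB]; exact h0
  have hDpos : 0 < D := by rw [hD]; exact hpq
  -- D e = A p + B q
  have hlin : (D : ℂ) * e = (A : ℂ) * p + (B : ℂ) * q := by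
    apply Complex.ext
    · simp only [Complex.mul_re, Complex.add_re, Complex.ofReal_re, Complex.ofReal_im,
        hD, hA, hB, crs]
      ring
    · simp only [Complex.mul_im, Complex.add_im, Complex.ofReal_re, Complex.ofReal_im,
        hD, hA, hB, crs]
      ring
  have hDAB : D ≤ A + B := by
    have h2 : ‖(D : ℂ) * e‖ = D := by
      rw [norm_mul, he, mul_one, Complex.norm_real, Real.norm_of_nonneg hDpos.le]
    have h3 : ‖(A : ℂ) * p + (B : ℂ) * q‖ ≤ A + B := by
      refine (norm_add_le _ _).trans ?_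
      rw [norm_mul, norm_mul, Complex.norm_real, Complex.norm_real,
        Real.norm_of_nonneg hA0, Real.norm_of_nonneg hB0]
      exact add_le_add (mul_le_of_le_one_right hA0 hp) (mul_le_of_le_one_right hB0 hq)
    rw [← h2, hlin]
    exact h3
  have hAB : 0 < A + B := lt_of_lt_of_le hDpos hDAB
  refine ⟨B / (A + B), (A + B) / D, div_nonneg hB0 hAB.le, (div_le_one hAB).2 (by linarith),
    (one_le_div hDpos).2 hDAB, ?_⟩
  have hDc : (D : ℂ) ≠ 0 := by exact_mod_cast hDpos.ne'
  have hABc : ((A : ℂ) + (B : ℂ)) ≠ 0 := by exact_mod_cast hAB.ne'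
  have he' : e = ((A : ℂ) * p + (B : ℂ) * q) / (D : ℂ) := by
    rw [eq_div_iff hDc, ← hlin]; ring
  rw [he']
  push_cast
  field_simp
  ring

/-- Discrete intermediate value form. -/
theorem cover_fun {m : ℕ} {E : ℕ → ℂ} (h0 : E 0 = 1) (hm : E m = -1)
    (hn : ∀ k, k ≤ m → ‖E k‖ ≤ 1) (hc : ∀ k, k < m → 0 < crs (E k) (E (k + 1)))
    {e : ℂ} (he : ‖e‖ = 1) (hi : 0 ≤ e.im) :
    ∃ k, k < m ∧ ∃ u S : ℝ, 0 ≤ u ∧ u ≤ 1 ∧ 1 ≤ S ∧
      e = (S : ℂ) * ((1 - (u : ℂ)) * E k + (u : ℂ) * E (k + 1)) := by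
  have hm0 : m ≠ 0 := by
    rintro rfl
    rw [h0] at hm
    norm_num at hm
  have hex : ∃ k, k < m ∧ 0 ≤ crs (E k) e ∧ crs (E (k + 1)) e ≤ 0 := by
    by_contra hcon
    push Not at hcon
    have hall : ∀ k, k ≤ m → 0 ≤ crs (E k) e := by
      intro k
      induction k with
      | zero =>
        intro _
        rw [h0]
        simp only [crs, Complex.one_re, Complex.one_im]
        linarith
      | succ k ih =>
        intro hk
        exact (hcon k (by omega) (ih (by omega))).le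
    have hlast := hcon (m - 1) (by omega) (hall (m - 1) (by omega))
    rw [Nat.sub_add_cancel (by omega), hm] at hlast
    simp only [crs, Complex.neg_re, Complex.neg_im, Complex.one_re, Complex.one_im] at hlast
    linarith
  obtain ⟨k, hk, h1, h2⟩ := hex
  exact ⟨k, hk, cone_pt (hn k hk.le) (hn (k + 1) hk) he (hc k hk) h1 h2⟩

/-- the node `(U + i V) / M` -/
noncomputable def nd (M : ℕ) (p : ℤ × ℤ) : ℂ := ⟨(p.1 : ℝ) / M, (p.2 : ℝ) / M⟩

/-- Check of a node list: consecutive cross products positive, all nodes in the closed disc,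
last node `(-M, 0)`. -/
def covL (M : ℕ) : List (ℤ × ℤ) → Bool
  | [] => false
  | [p] => decide (p.1 = -(M : ℤ) ∧ p.2 = 0)
  | p :: q :: l => decide (0 < p.1 * q.2 - p.2 * q.1) &&
      (decide (q.1 * q.1 + q.2 * q.2 ≤ (M : ℤ) * M) && covL M (q :: l))

/-- Check of a node list for the upper half circle. -/
def covB (M : ℕ) : List (ℤ × ℤ) → Bool
  | [] => false
  | p :: l => decide (p.1 = (M : ℤ) ∧ p.2 = 0 ∧ 0 < M) && covL M (p :: l)

theorem crs_nd {M : ℕ} (hM : 0 < M) (p q : ℤ × ℤ) :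
    crs (nd M p) (nd M q) = ((p.1 * q.2 - p.2 * q.1 : ℤ) : ℝ) / ((M : ℝ) * M) := by
  have : (M : ℝ) ≠ 0 := by exact_mod_cast hM.ne'
  simp only [crs, nd]
  push_cast
  field_simp

theorem norm_nd_le {M : ℕ} (hM : 0 < M) {p : ℤ × ℤ} (h : p.1 * p.1 + p.2 * p.2 ≤ (M : ℤ) * M) :
    ‖nd M p‖ ≤ 1 := by
  have hMr : (0 : ℝ) < M := by exact_mod_cast hM
  have h2 : ((p.1 : ℝ) * p.1 + (p.2 : ℝ) * p.2) ≤ (M : ℝ) * M := by exact_mod_cast h
  have h3 : ‖nd M p‖ ^ 2 ≤ 1 := by
    rw [← Complex.normSq_eq_norm_sq, Complex.normSq_apply]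
    simp only [nd]
    have : (p.1 : ℝ) / M * ((p.1 : ℝ) / M) + (p.2 : ℝ) / M * ((p.2 : ℝ) / M)
        = ((p.1 : ℝ) * p.1 + (p.2 : ℝ) * p.2) / ((M : ℝ) * M) := by
      field_simp
    rw [this, div_le_one (by positivity)]
    exact h2
  have := norm_nonneg (nd M p)
  nlinarith

/-- Induction principle for the list form: if `P` holds on the cone over every two consecutive
nodes, it holds on the part of the unit circle between the first node and `-1`. -/
theorem covL_ind {M : ℕ} (hM : 0 < M) {P : ℂ → Prop} :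
    ∀ (L : List (ℤ × ℤ)) (p : ℤ × ℤ), p.1 * p.1 + p.2 * p.2 ≤ (M : ℤ) * M →
      covL M (p :: L) = true →
      (∀ x ∈ (p :: L).zip L, ∀ u S : ℝ, 0 ≤ u → u ≤ 1 → 1 ≤ S →
        ‖(S : ℂ) * ((1 - (u : ℂ)) * nd M x.1 + (u : ℂ) * nd M x.2)‖ = 1 →
        P ((S : ℂ) * ((1 - (u : ℂ)) * nd M x.1 + (u : ℂ) * nd M x.2))) →
      ∀ e : ℂ, ‖e‖ = 1 → 0 ≤ e.im → 0 ≤ crs (nd M p) e → (L = [] → 0 < e.im) → P e := by
  intro L
  induction L with
  | nil =>
    intro p _ hcov _ e _ _ h0 h1
    have him := h1 rfl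
    simp only [covL, decide_eq_true_eq] at hcov
    exfalso
    have hMr : (0 : ℝ) < M := by exact_mod_cast hM
    simp only [crs, nd, hcov.1, hcov.2] at h0
    push_cast at h0
    rw [neg_div, div_self hMr.ne', zero_div] at h0
    linarith
  | cons q L ih =>
    intro p hp hcov hstep e he hi h0 _
    simp only [covL, Bool.and_eq_true, decide_eq_true_eq] at hcov
    obtain ⟨hc, hq, hrest⟩ := hcov
    rcases le_total (crs (nd M q) e) 0 with h1 | h1
    · have hpq : 0 < crs (nd M p) (nd M q) := by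
        rw [crs_nd hM]
        have hMr : (0 : ℝ) < M := by exact_mod_cast hM
        have : (0 : ℝ) < ((p.1 * q.2 - p.2 * q.1 : ℤ) : ℝ) := by exact_mod_cast hc
        positivity
      obtain ⟨u, S, hu0, hu1, hS, heq⟩ :=
        cone_pt (norm_nd_le hM hp) (norm_nd_le hM hq) he hpq h0 h1
      rw [heq]
      refine hstep (p, q) ?_ u S hu0 hu1 hS ?_
      · simp
      · rw [← heq]; exact he
    · rcases L with _ | ⟨q', L'⟩
      · -- q is the last node
        rcases lt_or_eq_of_le hi with hlt | heq0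
        · exact ih q hq hrest (by intro x hx; simp at hx) e he hi h1 (fun _ => hlt)
        · -- e is real, e = 1 or e = -1; in both cases e is in the cone over p, q
          have hpq : 0 < crs (nd M p) (nd M q) := by
            rw [crs_nd hM]
            have hMr : (0 : ℝ) < M := by exact_mod_cast hM
            have : (0 : ℝ) < ((p.1 * q.2 - p.2 * q.1 : ℤ) : ℝ) := by exact_mod_cast hc
            positivity
          have hqe : crs (nd M q) e ≤ 0 := by
            simp only [covL, decide_eq_true_eq] at hrest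
            simp only [crs, nd, hrest.1, hrest.2, ← heq0]
            simp
          obtain ⟨u, S, hu0, hu1, hS, heq⟩ :=
            cone_pt (norm_nd_le hM hp) (norm_nd_le hM hq) he hpq h0 hqe
          rw [heq]
          refine hstep (p, q) ?_ u S hu0 hu1 hS ?_
          · simp
          · rw [← heq]; exact he
      · refine ih q hq hrest ?_ e he hi h1 (by intro h; exact absurd h (by simp))
        intro x hx u S hu0 hu1 hS hn
        refine hstep x ?_ u S hu0 hu1 hS hn
        rw [List.zip_cons_cons]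
        exact List.mem_cons_of_mem _ hx

/-- COVER: for a checked node list the unit upper half circle is covered by the cones over
consecutive nodes. -/
theorem cover_ind {M : ℕ} {L : List (ℤ × ℤ)} (hcov : covB M L = true) {P : ℂ → Prop}
    (hstep : ∀ x ∈ L.zip L.tail, ∀ u S : ℝ, 0 ≤ u → u ≤ 1 → 1 ≤ S →
        ‖(S : ℂ) * ((1 - (u : ℂ)) * nd M x.1 + (u : ℂ) * nd M x.2)‖ = 1 →
        P ((S : ℂ) * ((1 - (u : ℂ)) * nd M x.1 + (u : ℂ) * nd M x.2))) :
    ∀ e : ℂ, ‖e‖ = 1 → 0 ≤ e.im → P e := by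
  intro e he hi
  rcases L with _ | ⟨p, L⟩
  · simp [covB] at hcov
  simp only [covB, Bool.and_eq_true, decide_eq_true_eq] at hcov
  obtain ⟨⟨h1, h2, hM⟩, hL⟩ := hcov
  have hMr : (0 : ℝ) < M := by exact_mod_cast hM
  refine covL_ind hM L p ?_ hL hstep e he hi ?_ ?_
  · rw [h1, h2]; simp
  · simp only [crs, nd, h1, h2]
    push_cast
    rw [div_self hMr.ne', zero_div]
    linarith
  · intro hnil
    rw [hnil] at hL
    simp only [covL, decide_eq_true_eq] at hL
    rw [h1] at hL
    exfalso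
    have := hL.1
    have hM' : (0 : ℤ) < M := by exact_mod_cast hM
    omega

/-- every point of `[a_0, a_m]` lies between two consecutive nodes -/
theorem strip_fun {m : ℕ} {A : ℕ → ℝ} (hm : 0 < m) {a : ℝ} (h0 : A 0 ≤ a) (h1 : a ≤ A m) : ∃ k, k < m ∧ A k ≤ a ∧ a ≤ A (k + 1) := by
  by_contra hcon
  push Not at hcon
  have hall : ∀ k, k ≤ m → A k ≤ a := by
    intro k
    induction k with
    | zero => intro _; exact h0
    | succ k ih => intro hk; exact (hcon k (by omega) (ih (by omega))).le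
  have := hcon (m - 1) (by omega) (hall (m - 1) (by omega))
  rw [Nat.sub_add_cancel (by omega)] at this
  linarith

/-- list form for the strips: nodes `n / M` -/
theorem strip_ind {M : ℕ} {P : ℝ → Prop} : ∀ (L : List ℕ) (p : ℕ),
    (∀ x ∈ (p :: L).zip L, ∀ a : ℝ, (x.1 : ℝ) / M ≤ a → a ≤ (x.2 : ℝ) / M → P a) →
    L ≠ [] → ∀ a : ℝ, (p : ℝ) / M ≤ a → a ≤ ((p :: L).getLast (by simp) : ℝ) / M → P a := by
  intro L
  induction L with
  | nil => intro p _ h; exact absurd rfl h
  | cons q L ih =>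
    intro p hstep _ a h0 h1
    rcases le_total a ((q : ℝ) / M) with h2 | h2
    · exact hstep (p, q) (by simp) a h0 h2
    · rcases L with _ | ⟨q', L'⟩
      · simp only [List.getLast_cons_cons, List.getLast_singleton] at h1
        exact hstep (p, q) (by simp) a h0 h1
      · refine ih q ?_ (by simp) a h2 ?_
        · intro x hx a ha0 ha1
          refine hstep x ?_ a ha0 ha1
          rw [List.zip_cons_cons]
          exact List.mem_cons_of_mem _ hx
        · rw [List.getLast_cons_cons] at h1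
          exact h1

end Pool.Agent.BNC
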