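import Pool.Agent.Lib.BNC.Loops2

/-!
# Soundness of the recursion over rows and blocks, and of the list of the powers of the radius
-/

set_option autoImplicit false

namespace Pool.Agent.BNC

lemma rowk_nil (f : ℕ → ℕ → ℕ → ℕ → Bool) (ds : List ℕ) : rowk f [] ds [] = true := rfl
lemma rowk_nil_cons (f : ℕ → ℕ → ℕ → ℕ → Bool) (ds : List ℕ) (b : ℕ) (bs : List ℕ) :
    rowk f [] ds (b :: bs) = false := rfl
lemma rowk_cons_nil (f : ℕ → ℕ → ℕ → ℕ → Bool) (p : ℤ × ℤ) (ev : List (ℤ × ℤ)) (bs : List ℕ) :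
    rowk f (p :: ev) [] bs = false := rfl
lemma rowk_cons_nil' (f : ℕ → ℕ → ℕ → ℕ → Bool) (p : ℤ × ℤ) (ev : List (ℤ × ℤ)) (d : ℕ)
    (ds : List ℕ) : rowk f (p :: ev) (d :: ds) [] = false := rfl

/-- The step of the recursion. -/
noncomputable def rstep (f : ℕ → ℕ → ℕ → ℕ → Bool) (d b : ℕ) (X : Bool) (u v : ℤ) : Bool :=
  Int.rec (motive := fun _ => Bool) (fun es =>
    Int.rec (motive := fun _ => Bool) (fun ec =>
      Bool.rec (motive := fun _ => Bool) false
        (Bool.rec (motive := fun _ => Bool) false X (f ec es d b))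
        (Nat.ble (Nat.add (Nat.mul ec ec) (Nat.mul es es)) (Nat.mul 2048 ec)))
      (fun _ => false) u)
    (fun _ => false) v

lemma rowk_cons (f : ℕ → ℕ → ℕ → ℕ → Bool) (p : ℤ × ℤ) (ev : List (ℤ × ℤ)) (d b : ℕ)
    (ds bs : List ℕ) : rowk f (p :: ev) (d :: ds) (b :: bs) =
      rstep f d b (rowk f ev ds bs) (p.1 + 1024) p.2 := rfl

lemma rstep_true {f : ℕ → ℕ → ℕ → ℕ → Bool} {d b : ℕ} {X : Bool} {u v : ℤ}
    (h : rstep f d b X u v = true) : ∃ ec es : ℕ, (ec : ℤ) = u ∧ (es : ℤ) = v ∧
      ec * ec + es * es ≤ 2048 * ec ∧ f ec es d b = true ∧ X = true := by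
  unfold rstep at h
  cases v with
  | negSucc n => exact absurd h (by simp)
  | ofNat es =>
    cases u with
    | negSucc n => exact absurd h (by simp)
    | ofNat ec =>
      simp only at h
      cases h1 : Nat.ble (Nat.add (Nat.mul ec ec) (Nat.mul es es)) (Nat.mul 2048 ec) with
      | false => rw [h1] at h; exact absurd h (by simp)
      | true =>
        rw [h1] at h
        simp only at h
        cases h2 : f ec es d b with
        | false => rw [h2] at h; exact absurd h (by simp)
        | true =>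
          rw [h2] at h
          exact ⟨ec, es, rfl, rfl, Nat.le_of_ble_eq_true h1, h2, h⟩

theorem rowk_sound {f : ℕ → ℕ → ℕ → ℕ → Bool} {Q : ℤ × ℤ → ℕ → Prop}
    (hf : ∀ (p : ℤ × ℤ) (ec es d b : ℕ), (ec : ℤ) = p.1 + 1024 → (es : ℤ) = p.2 →
      ec * ec + es * es ≤ 2048 * ec → f ec es d b = true → Q p b) :
    ∀ (ev : List (ℤ × ℤ)) (ds bs : List ℕ), rowk f ev ds bs = true → List.Forall₂ Q ev bs := by
  intro ev
  induction ev with
  | nil =>
    intro ds bs h
    cases bs with
    | nil => exact List.Forall₂.nil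
    | cons b bs => rw [rowk_nil_cons] at h; exact absurd h (by simp)
  | cons p ev ih =>
    intro ds bs h
    cases ds with
    | nil => rw [rowk_cons_nil] at h; exact absurd h (by simp)
    | cons d ds =>
      cases bs with
      | nil => rw [rowk_cons_nil'] at h; exact absurd h (by simp)
      | cons b bs =>
        rw [rowk_cons] at h
        obtain ⟨ec, es, h1, h2, h3, h4, h5⟩ := rstep_true h
        exact List.Forall₂.cons (hf p ec es d b h1 h2 h3 h4) (ih ds bs h5)

lemma blkk_nil_cons (f : ℕ → List ℕ → List ℕ → Bool) (ds : List (List ℕ)) (b : List ℕ)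
    (bs : List (List ℕ)) : blkk f [] ds (b :: bs) = false := rfl
lemma blkk_cons_nil (f : ℕ → List ℕ → List ℕ → Bool) (A : ℕ) (As : List ℕ)
    (bs : List (List ℕ)) : blkk f (A :: As) [] bs = false := rfl
lemma blkk_cons_nil' (f : ℕ → List ℕ → List ℕ → Bool) (A : ℕ) (As : List ℕ)
    (d : List ℕ) (ds : List (List ℕ)) : blkk f (A :: As) (d :: ds) [] = false := rfl
lemma blkk_cons (f : ℕ → List ℕ → List ℕ → Bool) (A : ℕ) (As : List ℕ) (d b : List ℕ)
    (ds bs : List (List ℕ)) : blkk f (A :: As) (d :: ds) (b :: bs) =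
      Bool.rec (motive := fun _ => Bool) false
        (Bool.rec (motive := fun _ => Bool) false (blkk f As ds bs) (f A d b))
        (Nat.ble A 1024) := rfl

theorem blkk_sound {f : ℕ → List ℕ → List ℕ → Bool} {Q : ℕ → List ℕ → Prop}
    (hf : ∀ (A : ℕ) (d b : List ℕ), A ≤ 1024 → f A d b = true → Q A b) :
    ∀ (As : List ℕ) (ds bs : List (List ℕ)), blkk f As ds bs = true → List.Forall₂ Q As bs := by
  intro As
  induction As with
  | nil =>
    intro ds bs h
    cases bs with
    | nil => exact List.Forall₂.nil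
    | cons b bs => rw [blkk_nil_cons] at h; exact absurd h (by simp)
  | cons A As ih =>
    intro ds bs h
    cases ds with
    | nil => rw [blkk_cons_nil] at h; exact absurd h (by simp)
    | cons d ds =>
      cases bs with
      | nil => rw [blkk_cons_nil'] at h; exact absurd h (by simp)
      | cons b bs =>
        rw [blkk_cons] at h
        cases h1 : Nat.ble A 1024 with
        | false => rw [h1] at h; exact absurd h (by simp)
        | true =>
          rw [h1] at h
          simp only at h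
          cases h2 : f A d b with
          | false => rw [h2] at h; exact absurd h (by simp)
          | true =>
            rw [h2] at h
            exact List.Forall₂.cons (hf A d b (Nat.le_of_ble_eq_true h1) h2) (ih ds bs h)

/-! ### The powers of the radius -/

lemma rrl_zero (R2 k48 : ℕ) (k : List ℕ → Bool) (p q : ℕ) (l : List ℕ) :
    rrl R2 k48 k 0 p q l = k l := rfl
lemma rrl_succ (R2 k48 : ℕ) (k : List ℕ → Bool) (n p q : ℕ) (l : List ℕ) :
    rrl R2 k48 k (n + 1) p q l = rrl R2 k48 k n (p * R2) (q * k48) ((p + (q - 1)) / q :: l) := rfl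

lemma ceil_le {p q : ℕ} (hq : 0 < q) : (p : ℝ) ≤ ((p + (q - 1)) / q : ℕ) * (q : ℝ) := by
  have h1 : p ≤ (p + (q - 1)) / q * q := by
    have h2 := Nat.lt_mul_div_succ (p + (q - 1)) hq
    have h3 : q * ((p + (q - 1)) / q + 1) = (p + (q - 1)) / q * q + q := by ring
    omega
  exact_mod_cast h1

theorem rrl_sound {R k48 : ℕ} (h48 : k48 = 2 ^ 48) {k : List ℕ → Bool} :
    ∀ (n i p q : ℕ) (l : List ℕ), p = R ^ (2 * i) * 2 ^ 58 → q = k48 ^ i →
      RV (fun i t => ((R : ℝ) / 2 ^ 24) ^ (2 * i) * 2 ^ 58 ≤ (t : ℝ)) i l →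
      rrl (R * R) k48 k n p q l = true →
      ∃ l', RV (fun i t => ((R : ℝ) / 2 ^ 24) ^ (2 * i) * 2 ^ 58 ≤ (t : ℝ)) (i + n) l' ∧
        k l' = true := by
  intro n
  induction n with
  | zero => intro i p q l _ _ h1 h; exact ⟨l, h1, h⟩
  | succ n ih =>
    intro i p q l hp hq h1 h
    rw [rrl_succ] at h
    have hk : 0 < k48 := by rw [h48]; positivity
    have hq0 : 0 < q := by rw [hq]; exact pow_pos hk i
    have hcons : ((R : ℝ) / 2 ^ 24) ^ (2 * i) * 2 ^ 58 ≤ (((p + (q - 1)) / q : ℕ) : ℝ) := by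
      have h2 := ceil_le (p := p) hq0
      have hq' : (0 : ℝ) < q := by exact_mod_cast hq0
      have h3 : ((R : ℝ) / 2 ^ 24) ^ (2 * i) * 2 ^ 58 * q = p := by
        have hk' : (k48 : ℝ) = 2 ^ 48 := by rw [h48]; norm_num
        rw [hp, hq]
        push_cast
        rw [hk', div_pow, ← pow_mul, ← pow_mul, show 24 * (2 * i) = 48 * i by ring]
        field_simp
        norm_num
      rw [← h3] at h2
      exact le_of_mul_le_mul_right h2 hq'
    obtain ⟨l', h2, h3⟩ := ih (i + 1) (p * (R * R)) (q * k48) _ (by rw [hp]; ring)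
      (by rw [hq]; ring) (RV.cons hcons h1) h
    exact ⟨l', by rwa [show i + (n + 1) = i + 1 + n by ring], h3⟩

end Pool.Agent.BNC
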