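import Pool.Agent.Lib.BNC.Loops2

/-!
# Soundness of the check of the parameters and of the tail
-/

set_option autoImplicit false

namespace Pool.Agent.BNC

namespace TailAux

lemma real_aux {N : ℕ} {l x T tau sg : ℝ} (hl0 : 0 ≤ l) (hl : l < 1) (hx0 : 0 ≤ x) (hx : x < 1)
    (hsg : 0 ≤ sg)
    (g1 : (2 : ℝ) ^ 40 ≤ sg * sg * ((1 - l ^ 2) * (1 - x ^ 2)))
    (g2 : x ^ N * (sg * ((1 - l ^ 2) * (1 - x) ^ 2) +
      T * 2 ^ 10 * ((2 * N - 1) * (1 - x) + 2 * x)) ≤ tau * ((1 - l ^ 2) * (1 - x) ^ 2)) :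
    x ^ N / √((1 - l ^ 2) * (1 - x ^ 2)) +
      (T / 1024) / (1 - l ^ 2) * (x ^ N * ((2 * N - 1) / (1 - x) + 2 * x / (1 - x) ^ 2)) ≤
      tau / 2 ^ 20 := by
  have hA : 0 < 1 - l ^ 2 := by nlinarith
  have hB : 0 < 1 - x ^ 2 := by nlinarith
  have hC : 0 < 1 - x := by linarith
  have hD : 0 < (1 - l ^ 2) * (1 - x ^ 2) := mul_pos hA hB
  have hs0 : 0 < sg := by
    rcases hsg.lt_or_eq with h | h
    · exact h
    · rw [← h] at g1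
      norm_num at g1
  have hxN : 0 ≤ x ^ N := pow_nonneg hx0 N
  have h1 : x ^ N / √((1 - l ^ 2) * (1 - x ^ 2)) ≤ x ^ N * (sg / 2 ^ 20) := by
    rw [div_eq_mul_inv]
    refine mul_le_mul_of_nonneg_left ?_ hxN
    rw [inv_le_comm₀ (Real.sqrt_pos.2 hD) (by positivity), inv_div]
    refine Real.le_sqrt_of_sq_le ?_
    rw [div_pow, div_le_iff₀ (by positivity)]
    calc ((2 : ℝ) ^ 20) ^ 2 = 2 ^ 40 := by norm_num
      _ ≤ _ := g1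
      _ = _ := by ring
  have h2 : x ^ N * (sg / 2 ^ 20) +
      (T / 1024) / (1 - l ^ 2) * (x ^ N * ((2 * N - 1) / (1 - x) + 2 * x / (1 - x) ^ 2)) =
      (x ^ N * (sg * ((1 - l ^ 2) * (1 - x) ^ 2) +
      T * 2 ^ 10 * ((2 * N - 1) * (1 - x) + 2 * x))) / ((1 - l ^ 2) * (1 - x) ^ 2) / 2 ^ 20 := by
    generalize hA' : 1 - l ^ 2 = A at *
    generalize hC' : 1 - x = C at *
    field_simp
    ring
  have h3 : (x ^ N * (sg * ((1 - l ^ 2) * (1 - x) ^ 2) +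
      T * 2 ^ 10 * ((2 * N - 1) * (1 - x) + 2 * x))) / ((1 - l ^ 2) * (1 - x) ^ 2) ≤ tau := by
    rw [div_le_iff₀ (by positivity)]
    exact g2
  have h4 : (x ^ N * (sg * ((1 - l ^ 2) * (1 - x) ^ 2) +
      T * 2 ^ 10 * ((2 * N - 1) * (1 - x) + 2 * x))) / ((1 - l ^ 2) * (1 - x) ^ 2) / 2 ^ 20 ≤
      tau / 2 ^ 20 := by gcongr
  linarith

end TailAux

open TailAux

/-- Soundness of `prmk`. -/
theorem prmk_sound {N K L R T tau sg : ℕ} (h : prmk N K L R T tau sg = true) :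
    (1 ≤ N ∧ N ≤ 32 ∧ 60 * N + 100 ≤ K ∧ L ≤ 512 ∧ T ≤ 1024 ∧ R < 2 ^ 24) ∧
    ((R : ℝ) / 2 ^ 24) ^ N / √((1 - ((L : ℝ) / 1024) ^ 2) * (1 - ((R : ℝ) / 2 ^ 24) ^ 2)) +
      ((T : ℝ) / 1024) / (1 - ((L : ℝ) / 1024) ^ 2) *
        (((R : ℝ) / 2 ^ 24) ^ N * ((2 * N - 1) / (1 - (R : ℝ) / 2 ^ 24) +
          2 * ((R : ℝ) / 2 ^ 24) / (1 - (R : ℝ) / 2 ^ 24) ^ 2)) ≤ (tau : ℝ) / 2 ^ 20 := by
  unfold prmk at h
  simp only [Bool.and_eq_true, Nat.ble_eq] at h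
  obtain ⟨⟨⟨⟨⟨⟨h1, h2⟩, h3⟩, h4⟩, h5⟩, h6⟩, h7, h8⟩ := h
  have hR : R < 2 ^ 24 := by omega
  refine ⟨⟨h1, h2, h3, h4, h5, hR⟩, ?_⟩
  have hL2 : L * L ≤ 2 ^ 20 := (Nat.mul_le_mul h4 h4).trans (by norm_num)
  have hR2 : R * R ≤ 2 ^ 48 := (Nat.mul_le_mul hR.le hR.le).trans (by norm_num)
  have hRr : (R : ℝ) < 2 ^ 24 := by exact_mod_cast hR
  have hLr : (L : ℝ) ≤ 512 := by exact_mod_cast h4
  have hR0 : (0 : ℝ) ≤ R := Nat.cast_nonneg R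
  have hL0 : (0 : ℝ) ≤ L := Nat.cast_nonneg L
  have cA : ((2 ^ 20 - L * L : ℕ) : ℝ) = 2 ^ 20 - L * L := by
    rw [Nat.cast_sub hL2]; norm_num
  have cB : ((2 ^ 48 - R * R : ℕ) : ℝ) = 2 ^ 48 - R * R := by
    rw [Nat.cast_sub hR2]; norm_num
  have cC : ((2 ^ 24 - R : ℕ) : ℝ) = 2 ^ 24 - R := by
    rw [Nat.cast_sub hR.le]; norm_num
  have cN : ((2 * N - 1 : ℕ) : ℝ) = 2 * N - 1 := by
    rw [Nat.cast_sub (show 1 ≤ 2 * N by omega)]; norm_num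
  have h7r : (2 : ℝ) ^ 108 ≤ sg * sg * ((2 ^ 20 - L * L) * (2 ^ 48 - R * R)) := by
    rw [← cA, ← cB]
    generalize 2 ^ 20 - L * L = A at h7 ⊢
    generalize 2 ^ 48 - R * R = B at h7 ⊢
    exact_mod_cast h7
  have h8r : (R : ℝ) ^ N * (sg * ((2 ^ 20 - L * L) * ((2 ^ 24 - R) * (2 ^ 24 - R))) +
      T * 2 ^ 54 * ((2 * N - 1) * (2 ^ 24 - R) + 2 * R)) ≤
      tau * 2 ^ (24 * N) * ((2 ^ 20 - L * L) * ((2 ^ 24 - R) * (2 ^ 24 - R))) := by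
    rw [← cA, ← cC, ← cN]
    generalize 2 ^ 20 - L * L = A at h8 ⊢
    generalize 2 ^ 24 - R = C at h8 ⊢
    generalize 2 * N - 1 = D at h8 ⊢
    exact_mod_cast h8
  refine real_aux (N := N) (l := (L : ℝ) / 1024) (x := (R : ℝ) / 2 ^ 24) (T := T) (tau := tau)
    (sg := sg) (by positivity) ?_ (by positivity) ?_ (Nat.cast_nonneg sg) ?_ ?_
  · rw [div_lt_one (by norm_num)]
    linarith
  · rw [div_lt_one (by positivity)]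
    exact hRr
  · have e : (sg : ℝ) * sg * ((1 - ((L : ℝ) / 1024) ^ 2) * (1 - ((R : ℝ) / 2 ^ 24) ^ 2)) =
        sg * sg * ((2 ^ 20 - L * L) * (2 ^ 48 - R * R)) / 2 ^ 68 := by
      field_simp
      ring
    rw [e, le_div_iff₀ (by positivity)]
    calc (2 : ℝ) ^ 40 * 2 ^ 68 = 2 ^ 108 := by norm_num
      _ ≤ _ := h7r
  · have e1 : ((R : ℝ) / 2 ^ 24) ^ N = R ^ N / 2 ^ (24 * N) := by
      rw [div_pow, ← pow_mul]
    have hP : (0 : ℝ) < 2 ^ (24 * N) := by positivity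
    rw [e1]
    generalize (2 : ℝ) ^ (24 * N) = PN at *
    have e2 : (R : ℝ) ^ N / PN * (sg * ((1 - ((L : ℝ) / 1024) ^ 2) * (1 - (R : ℝ) / 2 ^ 24) ^ 2) +
        T * 2 ^ 10 * ((2 * N - 1) * (1 - (R : ℝ) / 2 ^ 24) + 2 * ((R : ℝ) / 2 ^ 24))) =
        ((R : ℝ) ^ N * (sg * ((2 ^ 20 - L * L) * ((2 ^ 24 - R) * (2 ^ 24 - R))) +
          T * 2 ^ 54 * ((2 * N - 1) * (2 ^ 24 - R) + 2 * R))) / PN / 2 ^ 68 := by
      field_simp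
      ring
    have e3 : (tau : ℝ) * ((1 - ((L : ℝ) / 1024) ^ 2) * (1 - (R : ℝ) / 2 ^ 24) ^ 2) =
        tau * PN * ((2 ^ 20 - L * L) * ((2 ^ 24 - R) * (2 ^ 24 - R))) / PN / 2 ^ 68 := by
      field_simp
      ring
    rw [e2, e3]
    gcongr

end Pool.Agent.BNC
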