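import Pool.Agent.Lib.BNC.PtV
import Pool.Agent.Lib.BNC.Rows
import Pool.Agent.Lib.BNC.Tail

/-!
# Soundness of the check of a block of rows
-/

set_option autoImplicit false

open Complex
open scoped ComplexConjugate
open Pool.Agent.BNR Pool.Agent.P187w

namespace Pool.Agent.BNC

/-- The residue of `1 - a ^ 2`. -/
lemma rep_q {B m a' : ℕ} (hm : m = B * B + 1) {z : ℂ} (ra : Rep B 10 a' z) (hle : a' ≤ m) :
    Rep B 30 ((a' * (m - a') + 1) % m) (1 - z ^ 2) := by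
  have h1 := (((ra.mul (ra.neg hm hle)).add (Rep.nat' B (10 + 10) 1)).mod hm).le
    (show 10 + 10 ≤ 30 by norm_num)
  rw [Nat.cast_one, show z * -z + 1 = 1 - z ^ 2 by ring] at h1
  exact h1

theorem blkc_sound {N K L R T tau sg : ℕ} (hp : prmk N K L R T tau sg = true)
    {m B D2 H i10 k48 k24 k45 k23 k20 k10 k22 : ℕ} (hB : B = 2 ^ K) (hm : m = B * B + 1)
    (hH : H = 2 ^ (K - 1)) (hD2 : D2 = 2 ^ (60 * N)) (hi10 : i10 = m - 2 ^ (2 * K - 10))
    (h48 : k48 = 2 ^ 48) (h24 : k24 = 2 ^ 24) (h45 : k45 = 35184372088832)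
    (h23 : k23 = 8388608) (h20 : k20 = 2 ^ 20) (h10 : k10 = 1024) (h22 : k22 = 4194304)
    {ev : List (ℤ × ℤ)} {As : List ℕ} {ds bs : List (List ℕ)}
    (h : blkc m B H D2 i10 k48 k24 k45 k23 k20 k10 k22 N L R T tau ev As ds bs = true) :
    RowsOK L R T ev As bs := by
  obtain ⟨⟨hN1, hN, hK, hL, hT, hR⟩, htail⟩ := prmk_sound hp
  unfold blkc at h
  have hp58 : k48 * k10 = R ^ (2 * 0) * 2 ^ 58 := by
    rw [h48, h10, mul_zero, pow_zero, one_mul]; norm_num
  obtain ⟨rr, hrr, h⟩ := rrl_sound h48 N 0 _ _ _ hp58 (pow_zero _).symm RV.nil h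
  rw [zero_add] at hrr
  refine blkk_sound (Q := fun A b => RowOK L R T A ev b) (fun A d b hA h => ?_) As ds bs h
  refine rowk_sound (Q := fun e b => PT L R T A e b) (fun p ec es d b h1 h2 h3 h => ?_) ev d b h
  intro ζ hζ
  have ri := rep_i10 (by omega) hB hm hi10
  have ri20 : Rep B 20 (i10 * i10 % m) ((1 : ℂ) / 1048576) := by
    have h4 := (ri.mul ri).mod hm
    rw [show (1 : ℂ) / 1024 * (1 / 1024) = 1 / 1048576 by norm_num] at h4
    exact h4
  have ra : Rep B 10 (A * i10 % m) (((A : ℝ) / 1024 : ℝ) : ℂ) := by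
    have h4 := (ri.natMul A).mod hm
    rw [show (A : ℂ) * (1 / 1024) = (((A : ℝ) / 1024 : ℝ) : ℂ) by push_cast; ring] at h4
    exact h4
  have hm0 : 0 < m := by rw [hm]; exact Nat.succ_pos _
  have hle : A * i10 % m ≤ m := (Nat.mod_lt _ hm0).le
  have rq := rep_q hm ra hle
  have hfin := ptv_sound hN hK hB hm hH rfl hD2 (show Nat.sub m B = m - B from rfl)
    (show Nat.sub m (Nat.mul k22 (Nat.add 1 B)) = m - 4194304 * (1 + B) by rw [h22]; rfl)
    (show Nat.sub (Nat.mul k22 B) k22 = 4194304 * B - 4194304 by rw [h22]; rfl)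
    (rfl : T = T) (rfl : Nat.mul 2 T = 2 * T) (rfl : Nat.mul (Nat.mul 4 T) T = 4 * T * T)
    h48 h24 h45 h23 h20 h10 hT hA hL ri20
    (show Nat.sub m (Nat.mul k10 L) = m - 1024 * L by rw [h10]; rfl) hrr ra rq h1 h2 h3 h hζ
  have hl1 : ((L : ℝ) / 1024) < 1 := by
    rw [div_lt_one (by norm_num)]
    have : (L : ℝ) ≤ 512 := by exact_mod_cast hL
    linarith
  have hl0 : 0 ≤ (L : ℝ) / 1024 := div_nonneg (Nat.cast_nonneg _) (by norm_num)
  have hxn : ‖(((L : ℝ) / 1024 : ℝ) : ℂ) * nd 1024 p‖ ≤ (L : ℝ) / 1024 := by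
    rw [norm_mul, Complex.norm_real, Real.norm_eq_abs, abs_of_nonneg hl0]
    exact mul_le_of_le_one_right hl0 (norm_nd h1 h2 h3)
  have ha0 : 0 ≤ (A : ℝ) / 1024 := div_nonneg (Nat.cast_nonneg _) (by norm_num)
  have ha1 : (A : ℝ) / 1024 ≤ 1 := by
    rw [div_le_one (by norm_num)]
    exact_mod_cast hA
  have hr0 : 0 ≤ (R : ℝ) / 2 ^ 24 := div_nonneg (Nat.cast_nonneg _) (by positivity)
  have hr1 : (R : ℝ) / 2 ^ 24 < 1 := by
    rw [div_lt_one (by positivity)]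
    exact_mod_cast hR
  have ht : 0 ≤ (T : ℝ) / 1024 := div_nonneg (Nat.cast_nonneg _) (by norm_num)
  refine nr_XF_le (hxn.trans_lt hl1) ha0 ha1 hζ _ hr0 (fun M => ?_)
  have h5 := tail_el hxn hl1 ha0 ha1 hζ ht hr0 hr1 N M hN1
  have h6 : ((Nat.mul tau k20 : ℕ) : ℝ) / 2 ^ 40 = (tau : ℝ) / 2 ^ 20 := by
    have e20 : (k20 : ℝ) = 2 ^ 20 := by rw [h20]; norm_num
    have e1 : ((Nat.mul tau k20 : ℕ) : ℝ) = tau * k20 := Nat.cast_mul tau k20
    rw [e1, e20, show (2 : ℝ) ^ 40 = 2 ^ 20 * 2 ^ 20 by norm_num, mul_div_mul_right _ _ (by positivity)]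
  rw [h6] at hfin
  linarith

/-- Soundness of the check of a block of rows at one end of a slice. -/
theorem rows_of_blk {N K L R T tau sg : ℕ} {ev : List (ℤ × ℤ)} {As : List ℕ}
    {ds bs : List (List ℕ)} (h : blk N K L R T tau sg ev As ds bs = true) :
    RowsOK L R T ev As bs := by
  unfold blk at h
  cases hp : prmk N K L R T tau sg with
  | false => rw [hp] at h; exact absurd h (by simp)
  | true =>
    rw [hp] at h
    exact blkc_sound hp rfl rfl rfl rfl rfl (by norm_num) (by norm_num) rfl rfl (by norm_num)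
      rfl rfl h

end Pool.Agent.BNC
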