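import Pool.Agent.Lib.BNR.Quad

/-!
# A priori bounds for the coefficients of the trigonometric polynomial at a point
-/

set_option autoImplicit false

open Complex Metric Set
open scoped ComplexConjugate
open Pool.Agent.P187f6b Pool.Agent.P187w Pool.Agent.BNR

namespace Pool.Agent.BNC

lemma one_le_G {l : ℝ} (hl0 : 0 ≤ l) (hl : l < 1) : 1 ≤ 1 / (1 - l ^ 2) := by
  have h1 : 0 < 1 - l ^ 2 := by nlinarith
  rw [le_div_iff₀ h1]
  nlinarith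

lemma el_le {x : ℂ} {l : ℝ} (hx : ‖x‖ ≤ l) (hl : l < 1) {a : ℝ} (ha0 : 0 ≤ a) (ha1 : a ≤ 1)
    (n : ℕ) : ‖el a x n‖ ≤ 1 / (1 - l ^ 2) := by
  have hl0 : 0 ≤ l := (norm_nonneg x).trans hx
  have h1 := LN_sq hx hl (gk_Sc ha0 ha1 Sc_one) (n + 1)
  have h2 : ‖tc (LN x (gk a (fun _ => 1))) n‖ ^ 2 ≤
      ∑ k ∈ Finset.range (n + 1), ‖tc (LN x (gk a (fun _ => 1))) k‖ ^ 2 :=
    Finset.single_le_sum (f := fun k => ‖tc (LN x (gk a (fun _ => 1))) k‖ ^ 2)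
      (fun k _ => by positivity) (Finset.mem_range.2 (Nat.lt_succ_self n))
  rw [tc_el (hx.trans_lt hl) ha0 ha1] at h2
  have h3 := one_le_G hl0 hl
  have h4 : ‖el a x n‖ ^ 2 ≤ (1 / (1 - l ^ 2)) ^ 2 := by nlinarith
  exact le_of_sq_le_sq h4 (by linarith)

/-- The sum of the weights. -/
def SS (ρ : ℕ → ℝ) (N : ℕ) : ℝ := ∑ n ∈ Finset.range N, ρ n

lemma SS_nonneg {ρ : ℕ → ℝ} {N : ℕ} (hρ : ∀ n < N, 0 ≤ ρ n) : 0 ≤ SS ρ N :=
  Finset.sum_nonneg (fun n hn => hρ n (Finset.mem_range.1 hn))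

lemma WW_nonneg {ρ : ℕ → ℝ} {N : ℕ} (hρ : ∀ n < N, 0 ≤ ρ n) (n : ℕ) : 0 ≤ WW ρ N n :=
  Finset.sum_nonneg (fun m hm => hρ m (Finset.mem_Ioo.1 hm).2)

lemma WW_le {ρ : ℕ → ℝ} {N : ℕ} (hρ : ∀ n < N, 0 ≤ ρ n) (n : ℕ) : WW ρ N n ≤ SS ρ N := by
  refine Finset.sum_le_sum_of_subset_of_nonneg ?_ ?_
  · intro m hm
    exact Finset.mem_range.2 (Finset.mem_Ioo.1 hm).2
  · intro m hm _
    exact hρ m (Finset.mem_range.1 hm)

lemma SS_le_mul {ρ : ℕ → ℝ} {N : ℕ} (hρ : ∀ n < N, 0 ≤ ρ n) : SS ρ N ≤ SS ρ N * N := by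
  rcases Nat.eq_zero_or_pos N with rfl | h
  · simp [SS]
  · have h1 : (1 : ℝ) ≤ N := by exact_mod_cast h
    have := SS_nonneg hρ
    nlinarith

/-- The coefficients of the trigonometric polynomial for general sequences. -/
lemma ckq_le_gen {e v : ℕ → ℂ} {E V t0 : ℝ} (hE : ∀ n, ‖e n‖ ≤ E) (hV : ∀ n, ‖v n‖ ≤ V)
    (ht : 0 ≤ t0) {ρ : ℕ → ℝ} {N : ℕ} (hρ : ∀ n < N, 0 ≤ ρ n) (k : ℕ) :
    ‖ckq e v t0 ρ N k‖ ≤ SS ρ N * N * (2 * t0 * (E + t0 * V) * V + 4 * t0 ^ 2 * V ^ 2) := by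
  have hE0 : 0 ≤ E := (norm_nonneg _).trans (hE 0)
  have hV0 : 0 ≤ V := (norm_nonneg _).trans (hV 0)
  have hS0 := SS_nonneg hρ
  unfold ckq
  refine (norm_sum_le _ _).trans ?_
  have h1 : ∀ j ∈ Finset.range (N - 1 - k), ‖gq e v t0 ρ N (j + (k + 1)) * v j‖ ≤
      (2 * t0 * ρ (j + (k + 1)) * (E + t0 * V) + 4 * t0 ^ 2 * SS ρ N * V) * V := by
    intro j hj
    have hj' : j + (k + 1) < N := by
      have := Finset.mem_range.1 hj
      omega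
    have hr := hρ _ hj'
    have hW0 := WW_nonneg hρ (j + (k + 1))
    have hW := WW_le hρ (j + (k + 1))
    rw [norm_mul]
    refine mul_le_mul ?_ (hV j) (norm_nonneg _) (by positivity)
    unfold gq
    refine (norm_add_le _ _).trans (add_le_add ?_ ?_)
    · rw [norm_mul, norm_mul, norm_mul, RCLike.norm_conj]
      have h2 : ‖(2 : ℂ)‖ = 2 := by norm_num
      rw [h2, Complex.norm_real, Complex.norm_real, Real.norm_eq_abs, Real.norm_eq_abs,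
        abs_of_nonneg ht, abs_of_nonneg hr]
      refine mul_le_mul_of_nonneg_left ?_ (by positivity)
      refine (norm_add_le _ _).trans (add_le_add (hE _) ?_)
      rw [norm_mul, Complex.norm_real, Real.norm_eq_abs, abs_of_nonneg ht]
      exact mul_le_mul_of_nonneg_left (hV _) ht
    · rw [norm_mul, norm_mul, norm_mul, norm_pow, RCLike.norm_conj]
      have h2 : ‖(4 : ℂ)‖ = 4 := by norm_num
      rw [h2, Complex.norm_real, Complex.norm_real, Real.norm_eq_abs, Real.norm_eq_abs,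
        abs_of_nonneg ht, abs_of_nonneg hW0]
      refine mul_le_mul ?_ (hV _) (norm_nonneg _) (by positivity)
      exact mul_le_mul_of_nonneg_left hW (by positivity)
  refine (Finset.sum_le_sum h1).trans ?_
  rw [← Finset.sum_mul, Finset.sum_add_distrib, Finset.sum_const, Finset.card_range,
    nsmul_eq_mul]
  have h2 : ∑ j ∈ Finset.range (N - 1 - k), 2 * t0 * ρ (j + (k + 1)) * (E + t0 * V) ≤
      2 * t0 * SS ρ N * (E + t0 * V) := by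
    rw [← Finset.sum_mul, ← Finset.mul_sum]
    refine mul_le_mul_of_nonneg_right ?_ (by positivity)
    refine mul_le_mul_of_nonneg_left ?_ (by positivity)
    unfold SS
    have h3 : ∑ j ∈ Finset.range (N - 1 - k), ρ (j + (k + 1)) =
        ∑ m ∈ (Finset.range (N - 1 - k)).image (fun j => j + (k + 1)), ρ m := by
      rw [Finset.sum_image]
      intro x _ y _ h
      exact Nat.add_right_cancel h
    rw [h3]
    refine Finset.sum_le_sum_of_subset_of_nonneg ?_ ?_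
    · intro m hm
      obtain ⟨j, hj, rfl⟩ := Finset.mem_image.1 hm
      have := Finset.mem_range.1 hj
      exact Finset.mem_range.2 (by omega)
    · intro m hm _
      exact hρ m (Finset.mem_range.1 hm)
  have h3 : ((N - 1 - k : ℕ) : ℝ) ≤ N := by exact_mod_cast (by omega : N - 1 - k ≤ N)
  have h4 : ((N - 1 - k : ℕ) : ℝ) * (4 * t0 ^ 2 * SS ρ N * V) ≤
      N * (4 * t0 ^ 2 * SS ρ N * V) := mul_le_mul_of_nonneg_right h3 (by positivity)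
  have h5 : 2 * t0 * SS ρ N * (E + t0 * V) ≤ 2 * t0 * (SS ρ N * N) * (E + t0 * V) := by
    refine mul_le_mul_of_nonneg_right ?_ (by positivity)
    exact mul_le_mul_of_nonneg_left (SS_le_mul hρ) (by positivity)
  have h6 : (∑ j ∈ Finset.range (N - 1 - k), 2 * t0 * ρ (j + (k + 1)) * (E + t0 * V) +
      ((N - 1 - k : ℕ) : ℝ) * (4 * t0 ^ 2 * SS ρ N * V)) * V ≤
      (2 * t0 * (SS ρ N * N) * (E + t0 * V) + N * (4 * t0 ^ 2 * SS ρ N * V)) * V := by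
    refine mul_le_mul_of_nonneg_right ?_ hV0
    linarith
  refine h6.trans (le_of_eq ?_)
  ring

lemma c0q_nonneg {e v : ℕ → ℂ} {t0 : ℝ} {ρ : ℕ → ℝ} {N : ℕ} (hρ : ∀ n < N, 0 ≤ ρ n) :
    0 ≤ c0q e v t0 ρ N := by
  refine Finset.sum_nonneg (fun n hn => ?_)
  have h1 := hρ n (Finset.mem_range.1 hn)
  have h2 := WW_nonneg hρ n
  positivity

lemma c0q_le_gen {e v : ℕ → ℂ} {E V t0 : ℝ} (hE : ∀ n, ‖e n‖ ≤ E) (hV : ∀ n, ‖v n‖ ≤ V)
    (ht : 0 ≤ t0) {ρ : ℕ → ℝ} {N : ℕ} (hρ : ∀ n < N, 0 ≤ ρ n) :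
    c0q e v t0 ρ N ≤ SS ρ N * N * ((E + t0 * V) ^ 2 + 4 * t0 ^ 2 * V ^ 2) := by
  have hE0 : 0 ≤ E := (norm_nonneg _).trans (hE 0)
  have hV0 : 0 ≤ V := (norm_nonneg _).trans (hV 0)
  have hS0 := SS_nonneg hρ
  unfold c0q
  have h1 : ∀ n ∈ Finset.range N, ρ n * ‖e n + t0 * v n‖ ^ 2 + 4 * t0 ^ 2 * WW ρ N n * ‖v n‖ ^ 2 ≤
      ρ n * (E + t0 * V) ^ 2 + 4 * t0 ^ 2 * SS ρ N * V ^ 2 := by
    intro n hn
    have hr := hρ n (Finset.mem_range.1 hn)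
    have hW0 := WW_nonneg hρ n
    have hW := WW_le hρ n
    have h2 : ‖e n + t0 * v n‖ ≤ E + t0 * V := by
      refine (norm_add_le _ _).trans (add_le_add (hE _) ?_)
      rw [norm_mul, Complex.norm_real, Real.norm_eq_abs, abs_of_nonneg ht]
      exact mul_le_mul_of_nonneg_left (hV _) ht
    have h3 : ‖e n + t0 * v n‖ ^ 2 ≤ (E + t0 * V) ^ 2 := pow_le_pow_left₀ (norm_nonneg _) h2 2
    have h4 : ‖v n‖ ^ 2 ≤ V ^ 2 := pow_le_pow_left₀ (norm_nonneg _) (hV n) 2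
    refine add_le_add (mul_le_mul_of_nonneg_left h3 hr) ?_
    exact mul_le_mul (mul_le_mul_of_nonneg_left hW (by positivity)) h4 (by positivity)
      (by positivity)
  refine (Finset.sum_le_sum h1).trans ?_
  rw [Finset.sum_add_distrib, ← Finset.sum_mul, Finset.sum_const, Finset.card_range,
    nsmul_eq_mul]
  have h5 : (∑ n ∈ Finset.range N, ρ n) * (E + t0 * V) ^ 2 ≤
      SS ρ N * N * (E + t0 * V) ^ 2 :=
    mul_le_mul_of_nonneg_right (SS_le_mul hρ) (by positivity)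
  have h6 : SS ρ N * N * ((E + t0 * V) ^ 2 + 4 * t0 ^ 2 * V ^ 2) =
      SS ρ N * N * (E + t0 * V) ^ 2 + N * (4 * t0 ^ 2 * SS ρ N * V ^ 2) := by ring
  rw [h6]
  linarith

/-- The coefficients of the trigonometric polynomial. -/
theorem ckq_le {x : ℂ} {l : ℝ} (hx : ‖x‖ ≤ l) (hl : l < 1) {a : ℝ} (ha0 : 0 ≤ a) (ha1 : a ≤ 1)
    {t0 : ℝ} (ht : 0 ≤ t0) {ρ : ℕ → ℝ} {N : ℕ} (hρ : ∀ n < N, 0 ≤ ρ n) (k : ℕ) {G : ℝ}
    (hG : G = 1 / (1 - l ^ 2)) :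
    ‖ckq (el a x) (vv a x) t0 ρ N k‖ ≤
      SS ρ N * N * (2 * t0 * (G + t0 * G) * G + 4 * t0 ^ 2 * G ^ 2) := by
  subst hG
  exact ckq_le_gen (el_le hx hl ha0 ha1) (SeqAux.vv_le hx hl ha0 ha1) ht hρ k

theorem c0q_le {x : ℂ} {l : ℝ} (hx : ‖x‖ ≤ l) (hl : l < 1) {a : ℝ} (ha0 : 0 ≤ a) (ha1 : a ≤ 1)
    {t0 : ℝ} (ht : 0 ≤ t0) {ρ : ℕ → ℝ} {N : ℕ} (hρ : ∀ n < N, 0 ≤ ρ n) {G : ℝ}
    (hG : G = 1 / (1 - l ^ 2)) :
    c0q (el a x) (vv a x) t0 ρ N ≤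
      SS ρ N * N * ((1 + t0) ^ 2 * G ^ 2 + 4 * t0 ^ 2 * G ^ 2) := by
  subst hG
  refine (c0q_le_gen (el_le hx hl ha0 ha1) (SeqAux.vv_le hx hl ha0 ha1) ht hρ).trans
    (le_of_eq ?_)
  ring

theorem abs_c0q_le {x : ℂ} {l : ℝ} (hx : ‖x‖ ≤ l) (hl : l < 1) {a : ℝ} (ha0 : 0 ≤ a)
    (ha1 : a ≤ 1) {t0 : ℝ} (ht : 0 ≤ t0) {ρ : ℕ → ℝ} {N : ℕ} (hρ : ∀ n < N, 0 ≤ ρ n) {G : ℝ}
    (hG : G = 1 / (1 - l ^ 2)) :
    |c0q (el a x) (vv a x) t0 ρ N| ≤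
      SS ρ N * N * ((1 + t0) ^ 2 * G ^ 2 + 4 * t0 ^ 2 * G ^ 2) := by
  rw [abs_of_nonneg (c0q_nonneg hρ)]
  exact c0q_le hx hl ha0 ha1 ht hρ hG

/-- The autocorrelations. -/
theorem Aq_le (h : ℕ → ℂ) (N k : ℕ) : ‖Aq h N k‖ ≤ ∑ j ∈ Finset.range N, ‖h j‖ ^ 2 := by
  unfold Aq
  refine (norm_sum_le _ _).trans ?_
  have h1 : ∀ j ∈ Finset.range (N - 1 - k), ‖h (j + (k + 1)) * conj (h j)‖ ≤
      ‖h (j + (k + 1))‖ ^ 2 / 2 + ‖h j‖ ^ 2 / 2 := by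
    intro j _
    rw [norm_mul, RCLike.norm_conj]
    nlinarith [sq_nonneg (‖h (j + (k + 1))‖ - ‖h j‖)]
  refine (Finset.sum_le_sum h1).trans ?_
  rw [Finset.sum_add_distrib, ← Finset.sum_div, ← Finset.sum_div]
  have h2 : ∑ j ∈ Finset.range (N - 1 - k), ‖h (j + (k + 1))‖ ^ 2 ≤
      ∑ j ∈ Finset.range N, ‖h j‖ ^ 2 := by
    have h3 : ∑ j ∈ Finset.range (N - 1 - k), ‖h (j + (k + 1))‖ ^ 2 =
        ∑ m ∈ (Finset.range (N - 1 - k)).image (fun j => j + (k + 1)), ‖h m‖ ^ 2 := by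
      rw [Finset.sum_image]
      intro x _ y _ h
      exact Nat.add_right_cancel h
    rw [h3]
    refine Finset.sum_le_sum_of_subset_of_nonneg ?_ ?_
    · intro m hm
      obtain ⟨j, hj, rfl⟩ := Finset.mem_image.1 hm
      have := Finset.mem_range.1 hj
      exact Finset.mem_range.2 (by omega)
    · intro m _ _
      positivity
  have h3 : ∑ j ∈ Finset.range (N - 1 - k), ‖h j‖ ^ 2 ≤ ∑ j ∈ Finset.range N, ‖h j‖ ^ 2 := by
    refine Finset.sum_le_sum_of_subset_of_nonneg (Finset.range_subset_range.2 (by omega)) ?_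
    intro m _ _
    positivity
  linarith

end Pool.Agent.BNC
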