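import Pool.Agent.Lib.BNC.Rep

/-!
# The check at one vertex, as a computation with natural numbers

Gaussian rationals are represented by residues modulo `m = B ^ 2 + 1`, `B = 2 ^ K` (`BNC.Rep`).
All functions are written with the recursors, in a form that the kernel evaluates quickly.
-/

set_option autoImplicit false

namespace Pool.Agent.BNC

/-- The sum of the products. -/
noncomputable def dot (l : List ℕ) : List ℕ → ℕ → ℕ :=
  List.rec (motive := fun _ => List ℕ → ℕ → ℕ) (fun _ acc => acc)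
    (fun x _ ih g acc => List.rec (motive := fun _ => ℕ) acc
      (fun y t _ => ih t (Nat.add acc (Nat.mul x y))) g) l

/-- The sum over `k` of the sizes of `∑_j hb_j h_(j+k+1) + v_j g_(j+k+1)`. -/
noncomputable def corr (m B H HH D2 : ℕ) (v hb g : List ℕ) : List ℕ → ℕ → ℕ :=
  List.rec (motive := fun _ => List ℕ → ℕ → ℕ) (fun _ acc => acc)
    (fun _ t ih h acc => List.rec (motive := fun _ => ℕ) acc
      (fun _ th _ => ih th (Nat.add acc (dec m B H HH D2 (dot hb th (dot v t (nat_lit 0)))))) h) g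

/-- The sequences `el` and `vv` (reversed lists). -/
noncomputable def seqs (m ph nxh q : ℕ) (k : List ℕ → List ℕ → Bool) (n : ℕ) :
    ℕ → ℕ → ℕ → ℕ → ℕ → ℕ → List ℕ → List ℕ → Bool :=
  Nat.rec (motive := fun _ => ℕ → ℕ → ℕ → ℕ → ℕ → ℕ → List ℕ → List ℕ → Bool)
    (fun _ _ _ _ _ _ le lv => k le lv)
    (fun _ ih e0 e1 u0 u1 v0 v1 le lv =>
      ih e1 (Nat.mod (Nat.add (Nat.mul ph e1) (Nat.mul nxh e0)) m)
        u1 (Nat.mod (Nat.add (Nat.mul ph u1) (Nat.mul nxh u0)) m)
        v1 (Nat.mod (Nat.add (Nat.add (Nat.mul ph v1) (Nat.mul nxh v0)) (Nat.mul q u1)) m)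
        (List.cons e0 le) (List.cons v0 lv)) n

/-- The list `g`, the constant coefficient, the list `vv` in natural order
(`k48 = 2 ^ 48`, `k10 = 2 ^ 10`). -/
noncomputable def gls (m c1 c2 c3 k48 k10 : ℕ) (k : List ℕ → List ℕ → ℕ → ℕ → Bool)
    (le : List ℕ) :
    List ℕ → List ℕ → List ℕ → List ℕ → ℕ → ℕ → ℕ → ℕ → List ℕ → List ℕ → Bool :=
  List.rec (motive := fun _ => List ℕ → List ℕ → List ℕ → List ℕ → ℕ → ℕ → ℕ → ℕ →
      List ℕ → List ℕ → Bool)
    (fun _ _ _ _ _ _ c0 kw vl g => k vl g c0 kw)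
    (fun e _ ih lv leb lvb rr W wt c0 kw vl g =>
      List.rec (motive := fun _ => Bool) false (fun v tv _ =>
      List.rec (motive := fun _ => Bool) false (fun eb teb _ =>
      List.rec (motive := fun _ => Bool) false (fun vb tvb _ =>
      List.rec (motive := fun _ => Bool) false (fun r tr _ =>
        (fun w gb =>
          ih tv teb tvb tr (Nat.div W k48) (Nat.add wt w)
            (Nat.add c0 (Nat.add
              (Nat.mul w (Nat.mod (Nat.mul gb (Nat.add (Nat.mul k10 e) (Nat.mul c1 v))) m))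
              (Nat.mul (Nat.mul c3 wt) (Nat.mod (Nat.mul v vb) m))))
            (Nat.add kw (Nat.succ (Nat.div r w)))
            (List.cons v vl)
            (List.cons (Nat.mod (Nat.mul c2 (Nat.add (Nat.mul w gb)
              (Nat.mul (Nat.mul c2 wt) vb))) m) g))
          (Nat.succ (Nat.mod W k48))
          (Nat.add (Nat.mul k10 eb) (Nat.mul c1 vb)))
      rr) lvb) leb) lv) le

/-- The lists `h` and `conj h` and the sum of the squares
(`k48 = 2 ^ 48`, `k24 = 2 ^ 24`, `k45 = 2 ^ 45`, `k23 = 2 ^ 23`). -/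
noncomputable def hls (m B nB cc ccb k48 k24 k45 k23 : ℕ) (k : List ℕ → List ℕ → ℕ → Bool)
    (n : ℕ) : ℕ → List ℕ → List ℕ → ℕ → Bool :=
  Nat.rec (motive := fun _ => ℕ → List ℕ → List ℕ → ℕ → Bool)
    (fun _ h hb hh => k h hb hh)
    (fun _ ih P h hb hh =>
      (fun x y =>
        ih (Nat.div P k48)
          (List.cons (Nat.mod (Nat.add (Nat.add x (Nat.mul y B)) cc) m) h)
          (List.cons (Nat.mod (Nat.add (Nat.add x (Nat.mul y nB)) ccb) m) hb)
          (Nat.add hh (Nat.sub (Nat.add (Nat.add (Nat.mul x x) (Nat.mul y y)) k45)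
            (Nat.mul k23 (Nat.add x y)))))
        (Nat.mod P k24)
        (Nat.mod (Nat.div P k24) k24)) n

/-- The check at one vertex, all constants given (`k20 = 2 ^ 20`). -/
noncomputable def ptc (m B H HH D2 nB cc ccb c1 c2 c3 N k48 k24 k45 k23 k20 k10 : ℕ)
    (rr : List ℕ) (tau a ph nxh q e1 phb nxhb e1b W P b : ℕ) : Bool :=
  seqs m ph nxh q (fun le lv =>
    seqs m phb nxhb q (fun leb lvb =>
      gls m c1 c2 c3 k48 k10 (fun vl g c0 kw =>
        hls m B nB cc ccb k48 k24 k45 k23 (fun h hb hh =>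
          Nat.ble (Nat.add (Nat.mul (Nat.add (Nat.add kw hh) tau) D2)
            (Nat.add (dec m B H HH D2 c0)
              (Nat.mul (nat_lit 2) (corr m B H HH D2 vl hb g h (nat_lit 0)))))
            (Nat.mul (Nat.mul b k20) D2))
          N P List.nil List.nil (nat_lit 0))
        le lv leb lvb rr W (nat_lit 0) (nat_lit 0) (nat_lit 0) List.nil List.nil)
      N a e1b (nat_lit 1) phb (nat_lit 0) q List.nil List.nil)
    N a e1 (nat_lit 1) ph (nat_lit 0) q List.nil List.nil

/-- The check at one vertex: `a` and `i20` represent `A / 1024` and `2 ^ (-20)`; `ec`, `es` the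
vertex `(ec - 1024, es)`; `d` the packed data. -/
noncomputable def ptv (m B H HH D2 nB cc ccb c1 c2 c3 N k48 k24 k45 k23 k20 k10 : ℕ)
    (rr : List ℕ) (tau L nL i20 W2 a q ec es d b : ℕ) : Bool :=
  (fun xh xhb =>
    (fun ph phb =>
      ptc m B H HH D2 nB cc ccb c1 c2 c3 N k48 k24 k45 k23 k20 k10 rr tau a ph
        (Nat.sub m xh) q (Nat.mod (Nat.add (Nat.mul ph a) (Nat.sub m (nat_lit 1))) m) phb
        (Nat.sub m xhb) (Nat.mod (Nat.add (Nat.mul phb a) (Nat.sub m (nat_lit 1))) m)
        (Nat.mod d W2) (Nat.div d W2) b)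
      (Nat.mod (Nat.mul a (Nat.add xh (nat_lit 1))) m)
      (Nat.mod (Nat.mul a (Nat.add xhb (nat_lit 1))) m))
    (Nat.mod (Nat.mul (Nat.add (Nat.mul L (Nat.add ec (Nat.mul es B))) nL) i20) m)
    (Nat.mod (Nat.mul (Nat.add (Nat.mul L (Nat.add ec (Nat.mul es nB))) nL) i20) m)

/-- The check of a row. -/
noncomputable def rowk (f : ℕ → ℕ → ℕ → ℕ → Bool) (ev : List (ℤ × ℤ)) :
    List ℕ → List ℕ → Bool :=
  List.rec (motive := fun _ => List ℕ → List ℕ → Bool)
    (fun _ bs => List.rec (motive := fun _ => Bool) true (fun _ _ _ => false) bs)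
    (fun p _ ih ds bs =>
      List.rec (motive := fun _ => Bool) false (fun d td _ =>
      List.rec (motive := fun _ => Bool) false (fun b tb _ =>
        Int.rec (motive := fun _ => Bool) (fun es =>
          Int.rec (motive := fun _ => Bool) (fun ec =>
            Bool.rec (motive := fun _ => Bool) false
              (Bool.rec (motive := fun _ => Bool) false (ih td tb) (f ec es d b))
              (Nat.ble (Nat.add (Nat.mul ec ec) (Nat.mul es es)) (Nat.mul (nat_lit 2048) ec)))
            (fun _ => false) (Int.add p.1 (Int.ofNat (nat_lit 1024))))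
          (fun _ => false) p.2)
        bs) ds) ev

/-- The check of a block of rows. -/
noncomputable def blkk (f : ℕ → List ℕ → List ℕ → Bool) (As : List ℕ) :
    List (List ℕ) → List (List ℕ) → Bool :=
  List.rec (motive := fun _ => List (List ℕ) → List (List ℕ) → Bool)
    (fun _ bs => List.rec (motive := fun _ => Bool) true (fun _ _ _ => false) bs)
    (fun A _ ih ds bs =>
      List.rec (motive := fun _ => Bool) false (fun d td _ =>
      List.rec (motive := fun _ => Bool) false (fun b tb _ =>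
        Bool.rec (motive := fun _ => Bool) false
          (Bool.rec (motive := fun _ => Bool) false (ih td tb) (f A d b))
          (Nat.ble A (nat_lit 1024)))
        bs) ds) As

/-- Upper bounds `rr_n ≥ (R / 2 ^ 24) ^ (2 n) 2 ^ 58`, reversed list (`k48 = 2 ^ 48`). -/
noncomputable def rrl (R2 k48 : ℕ) (k : List ℕ → Bool) (n : ℕ) : ℕ → ℕ → List ℕ → Bool :=
  Nat.rec (motive := fun _ => ℕ → ℕ → List ℕ → Bool)
    (fun _ _ l => k l)
    (fun _ ih p q l => ih (Nat.mul p R2) (Nat.mul q k48)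
      (List.cons (Nat.div (Nat.add p (Nat.sub q (nat_lit 1))) q) l)) n

/-- The check of the parameters and of the tail: `sg / 2 ^ 20 ≥ 1 / √((1 - l ^ 2) (1 - r ^ 2))`,
and `tau / 2 ^ 20` is an upper bound for the tail. -/
def prmk (N K L R T tau sg : ℕ) : Bool :=
  (Nat.ble 1 N && Nat.ble N 32 && Nat.ble (60 * N + 100) K && Nat.ble L 512 && Nat.ble T 1024 &&
    Nat.ble (R + 1) 16777216) &&
  (Nat.ble (2 ^ 108) (sg * sg * ((2 ^ 20 - L * L) * (2 ^ 48 - R * R))) &&
   Nat.ble (R ^ N * (sg * ((2 ^ 20 - L * L) * ((2 ^ 24 - R) * (2 ^ 24 - R))) +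
      T * 2 ^ 54 * ((2 * N - 1) * (2 ^ 24 - R) + 2 * R)))
    (tau * (2 ^ (24 * N)) * ((2 ^ 20 - L * L) * ((2 ^ 24 - R) * (2 ^ 24 - R)))))

/-- The check of a block of rows, constants given. -/
noncomputable def blkc (m B H D2 i10 k48 k24 k45 k23 k20 k10 k22 N L R T tau : ℕ)
    (ev : List (ℤ × ℤ)) (As : List ℕ) (ds bs : List (List ℕ)) : Bool :=
  rrl (Nat.mul R R) k48 (fun rr =>
    blkk (fun A d b =>
      (fun a => rowk (ptv m B H (Nat.add H (Nat.mul H B)) D2 (Nat.sub m B)
          (Nat.sub m (Nat.mul k22 (Nat.add (nat_lit 1) B))) (Nat.sub (Nat.mul k22 B) k22)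
          T (Nat.mul (nat_lit 2) T) (Nat.mul (Nat.mul (nat_lit 4) T) T) N
          k48 k24 k45 k23 k20 k10 rr
          (Nat.mul tau k20) L (Nat.sub m (Nat.mul k10 L))
          (Nat.mod (Nat.mul i10 i10) m) (Nat.pow k48 N) a
          (Nat.mod (Nat.add (Nat.mul a (Nat.sub m a)) (nat_lit 1)) m)) ev d b)
        (Nat.mod (Nat.mul A i10) m)) As ds bs) N
    (Nat.mul k48 k10) (nat_lit 1) List.nil

/-- The check of a block of rows at one end of a slice. -/
noncomputable def blk (N K L R T tau sg : ℕ) (ev : List (ℤ × ℤ)) (As : List ℕ)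
    (ds bs : List (List ℕ)) : Bool :=
  Bool.rec (motive := fun _ => Bool) false
    ((fun B => (fun m => blkc m B (Nat.pow (nat_lit 2) (Nat.sub K (nat_lit 1)))
        (Nat.pow (nat_lit 2) (Nat.mul (nat_lit 60) N))
        (Nat.sub m (Nat.pow (nat_lit 2) (Nat.sub (Nat.mul (nat_lit 2) K) (nat_lit 10))))
        (nat_lit 281474976710656) (nat_lit 16777216) (nat_lit 35184372088832)
        (nat_lit 8388608) (nat_lit 1048576) (nat_lit 1024) (nat_lit 4194304)
        N L R T tau ev As ds bs)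
      (Nat.add (Nat.mul B B) (nat_lit 1))) (Nat.pow (nat_lit 2) K))
    (prmk N K L R T tau sg)

end Pool.Agent.BNC
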