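import Pool.Agent.Lib.BNR.Near
import Pool.Agent.Lib.BNR.Wn
import Pool.Agent.Lib.P187w.Hred

/-!
# The near zone from bounds on the upper half circle
-/

set_option autoImplicit false

open Complex Metric Set
open scoped ComplexConjugate
open Pool.Agent.P187f6b Pool.Agent.P187w Pool.Agent.BNR

namespace Pool.Agent.BNC

lemma el_conj (a : ℝ) (x : ℂ) (n : ℕ) : el a (conj x) n = conj (el a x n) := by
  induction n using Nat.twoStepInduction with
  | zero => simp [el]
  | one => simp [el]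
  | more n h0 h1 => simp [el, h0, h1]

lemma vv_conj (a : ℝ) (x : ℂ) (n : ℕ) : vv a (conj x) n = conj (vv a x n) := by
  have hu : ∀ n, uu a (conj x) n = conj (uu a x n) := by
    intro n
    induction n using Nat.twoStepInduction with
    | zero => simp [uu]
    | one => simp [uu]
    | more n h0 h1 => simp [uu, h0, h1]
  induction n using Nat.twoStepInduction with
  | zero => simp [vv]
  | one => simp [vv]
  | more n h0 h1 => simp [vv, h0, h1, hu]

lemma yy_conj (a : ℝ) (x ζ : ℂ) (n : ℕ) : yy a (conj x) (conj ζ) n = conj (yy a x ζ n) := by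
  induction n with
  | zero => simp [yy, vv_conj]
  | succ n ih => simp [yy, ih, vv_conj]

lemma nr_XF_conj {x : ℂ} (hx : ‖x‖ < 1) {a : ℝ} (ha0 : 0 ≤ a) (ha1 : a ≤ 1) {ζ : ℂ}
    (hζ : ‖ζ‖ = 1) (t0 r : ℝ) :
    nr (XF t0 a (conj x) (conj ζ)) r = nr (XF t0 a x ζ) r := by
  unfold nr
  congr 1
  funext n
  rw [tc_XF (by rw [Complex.norm_conj]; exact hx) ha0 ha1 (by rw [Complex.norm_conj]; exact hζ),
    tc_XF hx ha0 ha1 hζ, el_conj, yy_conj]
  have : conj (el a x n) + (t0 : ℂ) * conj (yy a x ζ n) =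
      conj (el a x n + (t0 : ℂ) * yy a x ζ n) := by simp
  rw [this, Complex.norm_conj]

/-- The near zone from bounds for all points with nonnegative imaginary part. -/
theorem near_of_bounds {l R t0 s2 : ℝ} (hl0 : 0 < l) (hl1 : l < 1) (hR1 : R < 1)
    (H : ∀ e : ℂ, ‖e‖ = 1 → 0 ≤ e.im → ∀ a : ℝ, 0 ≤ a → a ≤ 1 - s2 → ∀ r : ℝ, 0 ≤ r → r ≤ R →
      ∃ B : ℝ, B < 1 / (1 + l) ∧ ∀ ζ : ℂ, ‖ζ‖ = 1 → r * nr (XF t0 a (l * e) ζ) r ≤ B) :
    NEAR l R t0 s2 := by
  intro x hx a ha0 has ha1 k hk t ht0 ht1 hk0 r hr0 hrR hbig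
  have hx1 : ‖x‖ < 1 := by rw [hx]; exact hl1
  have hlC : (l : ℂ) ≠ 0 := by exact_mod_cast hl0.ne'
  have hr1 : r < 1 := lt_of_le_of_lt hrR hR1
  have hT : 0 < 1 / (1 + l) := by positivity
  -- the bound for `x` itself
  have key : ∃ B : ℝ, B < 1 / (1 + l) ∧ ∀ ζ : ℂ, ‖ζ‖ = 1 → r * nr (XF t0 a x ζ) r ≤ B := by
    have hen : ‖x / l‖ = 1 := by
      rw [norm_div, hx, Complex.norm_real, Real.norm_eq_abs, abs_of_pos hl0, div_self hl0.ne']
    have hxe : (l : ℂ) * (x / l) = x := by field_simp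
    rcases le_total 0 (x / l).im with him | him
    · obtain ⟨B, hB, h⟩ := H (x / l) hen him a ha0 has r hr0 hrR
      rw [hxe] at h
      exact ⟨B, hB, h⟩
    · obtain ⟨B, hB, h⟩ := H (conj (x / l)) (by rw [Complex.norm_conj]; exact hen)
        (by rw [Complex.conj_im]; linarith) a ha0 has r hr0 hrR
      refine ⟨B, hB, fun ζ hζ => ?_⟩
      have h2 := h (conj ζ) (by rw [Complex.norm_conj]; exact hζ)
      have e : (l : ℂ) * conj (x / l) = conj x := by
        rw [map_div₀, Complex.conj_ofReal]; field_simp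
      rw [e, nr_XF_conj hx1 ha0 ha1.le hζ] at h2
      exact h2
  obtain ⟨B, hB, h⟩ := key
  rcases eq_or_lt_of_le hr0 with hr | hr
  · exfalso
    rw [← hr] at hbig
    unfold Ph at hbig
    rw [zero_mul] at hbig
    linarith
  refine near_lt (t0 := t0) (M := B / r) (T := 1 / (1 + l)) hx1 ha0 ha1.le hr0 hr1
    (fun ζ hζ N => ?_) (Or.inl ?_) hk ht0 ht1 hk0 hbig
  · refine (partial_le hx1 ha0 ha1.le hζ t0 hr0 hr1 N).trans ?_
    rw [le_div_iff₀ hr, mul_comm]
    exact h ζ hζ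
  · rw [mul_div_cancel₀ B hr.ne']
    exact hB

end Pool.Agent.BNC
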