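import Pool.Agent.Lib.BNR.Wn
import Pool.Agent.Lib.BNC.Cover

/-!
# The statement of a vertex check

`PT L R T A e b`: at `a = A / 1024`, `x = (L / 1024) e`, radius `R / 2 ^ 24` and `t0 = T / 1024`
the full sum is at most `b / 2 ^ 20` (the tail is included in `b`).
-/

set_option autoImplicit false

open Pool.Agent.BNR Pool.Agent.P187w

namespace Pool.Agent.BNC

/-- The bound `b / 2 ^ 20` at one vertex. -/
def PT (L R T A : ℕ) (e : ℤ × ℤ) (b : ℕ) : Prop :=
  ∀ ζ : ℂ, ‖ζ‖ = 1 →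
    nr (XF ((T : ℝ) / 1024) ((A : ℝ) / 1024) ((((L : ℝ) / 1024 : ℝ) : ℂ) * nd 1024 e) ζ)
      ((R : ℝ) / 2 ^ 24) ≤ (b : ℝ) / 2 ^ 20

/-- A row of vertices: one value of `a`, all angles. -/
def RowOK (L R T A : ℕ) (es : List (ℤ × ℤ)) (bs : List ℕ) : Prop :=
  List.Forall₂ (fun e b => PT L R T A e b) es bs

/-- All rows of a block at one end of a slice. -/
def RowsOK (L R T : ℕ) (es : List (ℤ × ℤ)) (As : List ℕ) (bss : List (List ℕ)) : Prop :=
  List.Forall₂ (fun A bs => RowOK L R T A es bs) As bss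

end Pool.Agent.BNC
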