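import Pool.Agent.Lib.BNC.Code

/-!
# Soundness of the loops of the checker
-/

set_option autoImplicit false

open Complex
open scoped ComplexConjugate

namespace Pool.Agent.BNC

/-- A reversed list: entries of index `i - 1, …, 0`. -/
inductive RV (P : ℕ → ℕ → Prop) : ℕ → List ℕ → Prop
  | nil : RV P 0 []
  | cons {i y : ℕ} {t : List ℕ} (h : P i y) (ht : RV P i t) : RV P (i + 1) (y :: t)

/-- A list with entries of index `i, …, N - 1`. -/
inductive FW (P : ℕ → ℕ → Prop) (N : ℕ) : ℕ → List ℕ → Prop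
  | nil : FW P N N []
  | cons {i y : ℕ} {t : List ℕ} (h : P i y) (ht : FW P N (i + 1) t) : FW P N i (y :: t)

lemma FW.le {P : ℕ → ℕ → Prop} {N i : ℕ} {l : List ℕ} (h : FW P N i l) : i ≤ N := by
  induction h with
  | nil => exact le_refl _
  | cons _ _ ih => omega

lemma FW.tail {P : ℕ → ℕ → Prop} {N i y : ℕ} {t : List ℕ} (h : FW P N i (y :: t)) :
    i < N ∧ P i y ∧ FW P N (i + 1) t := by
  cases h with
  | cons h1 h2 => exact ⟨h2.le, h1, h2⟩

lemma FW.nil_iff {P : ℕ → ℕ → Prop} {N i : ℕ} (h : FW P N i []) : i = N := by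
  cases h; rfl

lemma FW.eq_nil {P : ℕ → ℕ → Prop} {N : ℕ} {l : List ℕ} (h : FW P N N l) : l = [] := by
  cases h with
  | nil => rfl
  | cons h1 h2 => have := h2.le; omega

lemma FW.of_lt {P : ℕ → ℕ → Prop} {N i : ℕ} {l : List ℕ} (h : FW P N i l) (hi : i < N) :
    ∃ y t, l = y :: t ∧ P i y ∧ FW P N (i + 1) t := by
  cases h with
  | nil => omega
  | cons h1 h2 => exact ⟨_, _, rfl, h1, h2⟩

lemma RV.of_succ {P : ℕ → ℕ → Prop} {i : ℕ} {l : List ℕ} (h : RV P (i + 1) l) :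
    ∃ y t, l = y :: t ∧ P i y ∧ RV P i t := by
  cases h with
  | cons h1 h2 => exact ⟨_, _, rfl, h1, h2⟩

lemma RV.of_zero {P : ℕ → ℕ → Prop} {l : List ℕ} (h : RV P 0 l) : l = [] := by
  cases h; rfl

/-! ### Unfolding -/

lemma dot_nil (g : List ℕ) (acc : ℕ) : dot [] g acc = acc := rfl
lemma dot_cons_nil (x : ℕ) (l : List ℕ) (acc : ℕ) : dot (x :: l) [] acc = acc := rfl
lemma dot_cons_cons (x y : ℕ) (l t : List ℕ) (acc : ℕ) :
    dot (x :: l) (y :: t) acc = dot l t (acc + x * y) := rfl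

lemma corr_nil (m B H HH D2 : ℕ) (v hb h : List ℕ) (acc : ℕ) :
    corr m B H HH D2 v hb [] h acc = acc := rfl
lemma corr_cons_nil (m B H HH D2 x : ℕ) (v hb t : List ℕ) (acc : ℕ) :
    corr m B H HH D2 v hb (x :: t) [] acc = acc := rfl
lemma corr_cons_cons (m B H HH D2 x y : ℕ) (v hb t th : List ℕ) (acc : ℕ) :
    corr m B H HH D2 v hb (x :: t) (y :: th) acc =
      corr m B H HH D2 v hb t th (acc + dec m B H HH D2 (dot hb th (dot v t 0))) := rfl

lemma seqs_zero (m ph nxh q : ℕ) (k : List ℕ → List ℕ → Bool) (e0 e1 u0 u1 v0 v1 : ℕ)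
    (le lv : List ℕ) : seqs m ph nxh q k 0 e0 e1 u0 u1 v0 v1 le lv = k le lv := rfl
lemma seqs_succ (m ph nxh q : ℕ) (k : List ℕ → List ℕ → Bool) (n e0 e1 u0 u1 v0 v1 : ℕ)
    (le lv : List ℕ) : seqs m ph nxh q k (n + 1) e0 e1 u0 u1 v0 v1 le lv =
      seqs m ph nxh q k n e1 ((ph * e1 + nxh * e0) % m) u1 ((ph * u1 + nxh * u0) % m)
        v1 ((ph * v1 + nxh * v0 + q * u1) % m) (e0 :: le) (v0 :: lv) := rfl

lemma gls_nil (m c1 c2 c3 k48 k10 : ℕ) (k : List ℕ → List ℕ → ℕ → ℕ → Bool)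
    (lv leb lvb rr : List ℕ) (W wt c0 kw : ℕ) (vl g : List ℕ) :
    gls m c1 c2 c3 k48 k10 k [] lv leb lvb rr W wt c0 kw vl g = k vl g c0 kw := rfl
lemma gls_cons (m c1 c2 c3 k48 k10 : ℕ) (k : List ℕ → List ℕ → ℕ → ℕ → Bool) (e v eb vb r : ℕ)
    (te tv teb tvb tr : List ℕ) (W wt c0 kw : ℕ) (vl g : List ℕ) :
    gls m c1 c2 c3 k48 k10 k (e :: te) (v :: tv) (eb :: teb) (vb :: tvb) (r :: tr) W wt c0 kw
        vl g =
      gls m c1 c2 c3 k48 k10 k te tv teb tvb tr (W / k48) (wt + (W % k48 + 1))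
        (c0 + ((W % k48 + 1) * (((k10 * eb + c1 * vb) * (k10 * e + c1 * v)) % m) +
          c3 * wt * ((v * vb) % m)))
        (kw + (r / (W % k48 + 1) + 1)) (v :: vl)
        ((c2 * ((W % k48 + 1) * (k10 * eb + c1 * vb) + c2 * wt * vb)) % m :: g) := rfl

lemma hls_zero (m B nB cc ccb k48 k24 k45 k23 : ℕ) (k : List ℕ → List ℕ → ℕ → Bool) (P : ℕ)
    (h hb : List ℕ) (hh : ℕ) :
    hls m B nB cc ccb k48 k24 k45 k23 k 0 P h hb hh = k h hb hh := rfl
lemma hls_succ (m B nB cc ccb k48 k24 k45 k23 : ℕ) (k : List ℕ → List ℕ → ℕ → Bool) (n P : ℕ)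
    (h hb : List ℕ) (hh : ℕ) : hls m B nB cc ccb k48 k24 k45 k23 k (n + 1) P h hb hh =
      hls m B nB cc ccb k48 k24 k45 k23 k n (P / k48)
        ((P % k24 + P / k24 % k24 * B + cc) % m :: h)
        ((P % k24 + P / k24 % k24 * nB + ccb) % m :: hb)
        (hh + (P % k24 * (P % k24) + P / k24 % k24 * (P / k24 % k24) + k45 -
          k23 * (P % k24 + P / k24 % k24))) := rfl

/-! ### The sum of products -/

theorem dot_sound {B D N : ℕ} {P Q : ℕ → ℕ → Prop} {f g : ℕ → ℂ}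
    (hPQ : ∀ i j x y, i < N → j < N → P i x → Q j y → Rep B D (x * y) (f i * g j)) :
    ∀ (l2 : List ℕ) (j : ℕ), FW Q N j l2 → ∀ (l1 : List ℕ) (i : ℕ), i ≤ j → FW P N i l1 →
      ∀ (acc : ℕ) (z : ℂ), Rep B D acc z →
        Rep B D (dot l1 l2 acc) (z + ∑ t ∈ Finset.range (N - j), f (i + t) * g (j + t)) := by
  intro l2
  induction l2 with
  | nil =>
    intro j hj l1 i hij h1 acc z hz
    have hjN := hj.nil_iff
    subst hjN
    rw [Nat.sub_self, Finset.sum_range_zero, add_zero]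
    cases l1 with
    | nil => exact hz
    | cons x l1 => exact hz
  | cons y l2 ih =>
    intro j hj l1 i hij h1 acc z hz
    obtain ⟨hjN, hy, ht⟩ := hj.tail
    obtain ⟨x, l1', rfl, hx, ht1⟩ := h1.of_lt (lt_of_le_of_lt hij hjN)
    rw [dot_cons_cons]
    have h2 := ih (j + 1) ht l1' (i + 1) (by omega) ht1 (acc + x * y) (z + f i * g j)
      (hz.add (hPQ i j x y (by omega) hjN hx hy))
    have h3 : N - j = (N - (j + 1)) + 1 := by omega
    rw [h3, Finset.sum_range_succ']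
    have h4 : ∑ t ∈ Finset.range (N - (j + 1)), f (i + (t + 1)) * g (j + (t + 1)) =
        ∑ t ∈ Finset.range (N - (j + 1)), f (i + 1 + t) * g (j + 1 + t) :=
      Finset.sum_congr rfl (fun t _ => by
        rw [show i + (t + 1) = i + 1 + t by ring, show j + (t + 1) = j + 1 + t by ring])
    rw [h4]
    simp only [add_zero]
    have e : z + (∑ t ∈ Finset.range (N - (j + 1)), f (i + 1 + t) * g (j + 1 + t) + f i * g j) =
        z + f i * g j + ∑ t ∈ Finset.range (N - (j + 1)), f (i + 1 + t) * g (j + 1 + t) := by ring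
    rw [e]
    exact h2

theorem corr_sound {B D N m H HH D2 : ℕ} {Pv Pg Ph Pb : ℕ → ℕ → Prop} {v g h hb : ℕ → ℂ}
    (hB : B = 2 * H) (hm : m = B * B + 1) (hHH : HH = H + H * B) (hD : D2 = 2 ^ D)
    (hvg : ∀ i j x y, i < N → j < N → Pv i x → Pg j y → Rep B D (x * y) (v i * g j))
    (hhh : ∀ i j x y, i < N → j < N → Pb i x → Ph j y → Rep B D (x * y) (hb i * h j))
    {lv lhb : List ℕ} (hv : FW Pv N 0 lv) (hlb : FW Pb N 0 lhb)
    (hZ : ∀ k, k < N → ‖∑ j ∈ Finset.range (N - 1 - k), v j * g (j + (k + 1)) +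
      ∑ j ∈ Finset.range (N - 1 - k), hb j * h (j + (k + 1))‖ * 2 ^ D < H) :
    ∀ (lg : List ℕ) (i : ℕ), FW Pg N i lg → ∀ (lh : List ℕ), FW Ph N i lh → ∀ acc : ℕ,
      (acc : ℝ) + ∑ k ∈ Finset.Ico i N, ‖∑ j ∈ Finset.range (N - 1 - k), v j * g (j + (k + 1)) +
        ∑ j ∈ Finset.range (N - 1 - k), hb j * h (j + (k + 1))‖ * 2 ^ D ≤
      (corr m B H HH D2 lv lhb lg lh acc : ℝ) := by
  intro lg
  induction lg with
  | nil =>
    intro i hi lh _ acc
    have hiN := hi.nil_iff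
    subst hiN
    rw [Finset.Ico_self, Finset.sum_empty, add_zero, corr_nil]
  | cons y lg ih =>
    intro i hi lh hlh acc
    obtain ⟨hiN, hy, ht⟩ := hi.tail
    obtain ⟨x, lh', rfl, hx, ht1⟩ := hlh.of_lt hiN
    rw [corr_cons_cons]
    have h1 := ih (i + 1) ht lh' ht1 (acc + dec m B H HH D2 (dot lhb lh' (dot lv lg 0)))
    refine le_trans ?_ h1
    have h2 := dot_sound hvg lg (i + 1) ht lv 0 (by omega) hv 0 0
      (by have := Rep.nat' B D 0; simpa using this)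
    have h3 := dot_sound hhh lh' (i + 1) ht1 lhb 0 (by omega) hlb _ _ h2
    have h4 : N - (i + 1) = N - 1 - i := by omega
    rw [h4] at h3
    have e1 : ∀ F G : ℕ → ℂ, ∑ t ∈ Finset.range (N - 1 - i), F (0 + t) * G (i + 1 + t) =
        ∑ j ∈ Finset.range (N - 1 - i), F j * G (j + (i + 1)) := fun F G =>
      Finset.sum_congr rfl (fun t _ => by rw [zero_add, add_comm (i + 1) t])
    rw [e1, e1, zero_add] at h3
    have h5 := dec_sound hB hm hHH hD h3 (hZ i hiN)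
    rw [Finset.sum_eq_sum_Ico_succ_bot hiN]
    push_cast
    linarith

/-! ### The sequences -/

theorem seqs_sound {B m ph nxh q : ℕ} (hm : m = B * B + 1) {E U V : ℕ → ℂ} {p x c : ℂ}
    (hE : ∀ n, E (n + 2) = p * E (n + 1) - x * E n)
    (hU : ∀ n, U (n + 2) = p * U (n + 1) - x * U n)
    (hV : ∀ n, V (n + 2) = p * V (n + 1) - x * V n + c * U (n + 1))
    (hp : Rep B 30 ph p) (hx : Rep B 30 nxh (-x)) (hq : Rep B 30 q c)
    {k : List ℕ → List ℕ → Bool} :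
    ∀ (n i e0 e1 u0 u1 v0 v1 : ℕ) (le lv : List ℕ),
      Rep B (30 * (i + 1)) e0 (E i) → Rep B (30 * (i + 2)) e1 (E (i + 1)) →
      Rep B (30 * (i + 1)) u0 (U i) → Rep B (30 * (i + 2)) u1 (U (i + 1)) →
      Rep B (30 * (i + 1)) v0 (V i) → Rep B (30 * (i + 2)) v1 (V (i + 1)) →
      RV (fun i y => Rep B (30 * (i + 1)) y (E i)) i le →
      RV (fun i y => Rep B (30 * (i + 1)) y (V i)) i lv →
      seqs m ph nxh q k n e0 e1 u0 u1 v0 v1 le lv = true →
      ∃ le' lv', RV (fun i y => Rep B (30 * (i + 1)) y (E i)) (i + n) le' ∧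
        RV (fun i y => Rep B (30 * (i + 1)) y (V i)) (i + n) lv' ∧ k le' lv' = true := by
  intro n
  induction n with
  | zero =>
    intro i e0 e1 u0 u1 v0 v1 le lv _ _ _ _ _ _ h1 h2 h
    exact ⟨le, lv, h1, h2, h⟩
  | succ n ih =>
    intro i e0 e1 u0 u1 v0 v1 le lv he0 he1 hu0 hu1 hv0 hv1 h1 h2 h
    rw [seqs_succ] at h
    have step : ∀ {a0 a1 : ℕ} {A : ℕ → ℂ}, Rep B (30 * (i + 1)) a0 (A i) →
        Rep B (30 * (i + 2)) a1 (A (i + 1)) →
        Rep B (30 * (i + 3)) (ph * a1 + nxh * a0) (p * A (i + 1) - x * A i) := by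
      intro a0 a1 A h0 h1
      have g1 := (hp.mul h1).le (show 30 + 30 * (i + 2) ≤ 30 * (i + 3) by omega)
      have g2 := (hx.mul h0).le (show 30 + 30 * (i + 1) ≤ 30 * (i + 3) by omega)
      have g3 := g1.add g2
      rwa [show p * A (i + 1) + -x * A i = p * A (i + 1) - x * A i by ring] at g3
    have gE : Rep B (30 * (i + 1 + 2)) ((ph * e1 + nxh * e0) % m) (E (i + 1 + 1)) := by
      rw [hE i]; exact (step he0 he1).mod hm
    have gU : Rep B (30 * (i + 1 + 2)) ((ph * u1 + nxh * u0) % m) (U (i + 1 + 1)) := by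
      rw [hU i]; exact (step hu0 hu1).mod hm
    have gV : Rep B (30 * (i + 1 + 2)) ((ph * v1 + nxh * v0 + q * u1) % m) (V (i + 1 + 1)) := by
      rw [hV i]
      exact ((step hv0 hv1).add ((hq.mul hu1).le (by omega))).mod hm
    obtain ⟨le', lv', r1, r2, r3⟩ := ih (i + 1) _ _ _ _ _ _ _ _ he1 gE hu1 gU hv1 gV
      (RV.cons he0 h1) (RV.cons hv0 h2) h
    refine ⟨le', lv', ?_, ?_, r3⟩
    · rwa [show i + (n + 1) = i + 1 + n by ring]
    · rwa [show i + (n + 1) = i + 1 + n by ring]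

end Pool.Agent.BNC
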