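import Pool.Agent.Lib.BNC.Loops

/-!
# Soundness of the loops of the checker, second part
-/

set_option autoImplicit false

open Complex
open scoped ComplexConjugate

namespace Pool.Agent.BNC

/-- The weight of index `n`. -/
def wq (k48 W0 N n : ℕ) : ℕ := W0 / k48 ^ (N - 1 - n) % k48 + 1

/-- The sum of the weights of larger index. -/
def wt (k48 W0 N n : ℕ) : ℕ := ∑ k ∈ Finset.Ico (n + 1) N, wq k48 W0 N k

lemma wq_pos (k48 W0 N n : ℕ) : 0 < wq k48 W0 N n := Nat.succ_pos _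

lemma wq_le {k48 : ℕ} (hk : 0 < k48) (W0 N n : ℕ) : wq k48 W0 N n ≤ k48 := by
  unfold wq
  have := Nat.mod_lt (W0 / k48 ^ (N - 1 - n)) hk
  omega

lemma div_step (k48 W0 a : ℕ) : W0 / k48 ^ a / k48 = W0 / k48 ^ (a + 1) := by
  rw [Nat.div_div_eq_div_mul, pow_succ]

/-- `g_n`, scaled. -/
noncomputable def gz (Eb Vb : ℕ → ℂ) (c1 c2 k48 k10 W0 N n : ℕ) : ℂ :=
  c2 * (wq k48 W0 N n * (k10 * Eb n + c1 * Vb n) + c2 * wt k48 W0 N n * Vb n)

/-- The summand of the constant coefficient, scaled. -/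
noncomputable def cz (E V Eb Vb : ℕ → ℂ) (c1 c3 k48 k10 W0 N n : ℕ) : ℂ :=
  wq k48 W0 N n * ((k10 * Eb n + c1 * Vb n) * (k10 * E n + c1 * V n)) +
    c3 * wt k48 W0 N n * (V n * Vb n)

lemma div_le_nat {r w : ℕ} (hw : 0 < w) {y : ℝ} (hy : y ≤ r) :
    y / w ≤ ((r / w + 1 : ℕ) : ℝ) := by
  have hw' : (0 : ℝ) < w := by exact_mod_cast hw
  rw [div_le_iff₀ hw']
  have h1 : r < (r / w + 1) * w := by
    rw [mul_comm]
    exact Nat.lt_mul_div_succ r hw
  have h2 : (r : ℝ) < ((r / w + 1 : ℕ) : ℝ) * w := by exact_mod_cast h1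
  linarith

theorem gls_sound {B N m c1 c2 c3 k48 k10 W0 : ℕ} (hm : m = B * B + 1) {E V Eb Vb : ℕ → ℂ}
    {y : ℕ → ℝ} {k : List ℕ → List ℕ → ℕ → ℕ → Bool} :
    ∀ i : ℕ, i ≤ N → ∀ (le lv leb lvb rr : List ℕ) (W s c0 kw : ℕ) (vl g : List ℕ),
      RV (fun i t => Rep B (30 * (i + 1)) t (E i)) i le →
      RV (fun i t => Rep B (30 * (i + 1)) t (V i)) i lv →
      RV (fun i t => Rep B (30 * (i + 1)) t (Eb i)) i leb →
      RV (fun i t => Rep B (30 * (i + 1)) t (Vb i)) i lvb →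
      RV (fun i t => y i ≤ (t : ℝ)) i rr →
      W = W0 / k48 ^ (N - i) →
      s = ∑ n ∈ Finset.Ico i N, wq k48 W0 N n →
      Rep B (60 * N) c0 (∑ n ∈ Finset.Ico i N, cz E V Eb Vb c1 c3 k48 k10 W0 N n) →
      (∑ n ∈ Finset.Ico i N, y n / wq k48 W0 N n ≤ (kw : ℝ)) →
      FW (fun i t => Rep B (30 * (i + 1)) t (V i)) N i vl →
      FW (fun i t => Rep B (30 * (i + 1)) t (gz Eb Vb c1 c2 k48 k10 W0 N i)) N i g →
      gls m c1 c2 c3 k48 k10 k le lv leb lvb rr W s c0 kw vl g = true →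
      ∃ (vl' g' : List ℕ) (c0' kw' : ℕ),
        FW (fun i t => Rep B (30 * (i + 1)) t (V i)) N 0 vl' ∧
        FW (fun i t => Rep B (30 * (i + 1)) t (gz Eb Vb c1 c2 k48 k10 W0 N i)) N 0 g' ∧
        Rep B (60 * N) c0' (∑ n ∈ Finset.range N, cz E V Eb Vb c1 c3 k48 k10 W0 N n) ∧
        (∑ n ∈ Finset.range N, y n / wq k48 W0 N n ≤ (kw' : ℝ)) ∧ k vl' g' c0' kw' = true := by
  intro i
  induction i with
  | zero =>
    intro _ le lv leb lvb rr W s c0 kw vl g h1 _ _ _ _ _ _ hc hk hv hg h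
    rw [h1.of_zero, gls_nil] at h
    rw [← Finset.range_eq_Ico] at hc hk
    exact ⟨vl, g, c0, kw, hv, hg, hc, hk, h⟩
  | succ i ih =>
    intro hi le lv leb lvb rr W s c0 kw vl g h1 h2 h3 h4 h5 hW hs hc hk hv hg h
    obtain ⟨e, te, rfl, re, te'⟩ := h1.of_succ
    obtain ⟨v, tv, rfl, rv, tv'⟩ := h2.of_succ
    obtain ⟨eb, teb, rfl, reb, teb'⟩ := h3.of_succ
    obtain ⟨vb, tvb, rfl, rvb, tvb'⟩ := h4.of_succ
    obtain ⟨r, tr, rfl, rr', tr'⟩ := h5.of_succ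
    rw [gls_cons] at h
    have hiN : i < N := hi
    have hw : W % k48 + 1 = wq k48 W0 N i := by
      rw [hW, wq, show N - (i + 1) = N - 1 - i by omega]
    have hst : s = wt k48 W0 N i := hs
    rw [hw, hst] at h
    have hsum : ∀ {M : Type} [AddCommMonoid M] (F : ℕ → M), ∑ n ∈ Finset.Ico i N, F n =
        F i + ∑ n ∈ Finset.Ico (i + 1) N, F n := fun F => Finset.sum_eq_sum_Ico_succ_bot hiN F
    have rgb : Rep B (30 * (i + 1)) (k10 * eb + c1 * vb) (k10 * Eb i + c1 * Vb i) :=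
      (reb.natMul k10).add (rvb.natMul c1)
    have rg : Rep B (30 * (i + 1)) (k10 * e + c1 * v) (k10 * E i + c1 * V i) :=
      (re.natMul k10).add (rv.natMul c1)
    refine ih (by omega) te tv teb tvb tr _ _ _ _ _ _ te' tv' teb' tvb' tr' ?_ ?_ ?_ ?_
      (FW.cons rv hv) (FW.cons ?_ hg) h
    · rw [hW, div_step, show N - (i + 1) + 1 = N - i by omega]
    · rw [hsum, add_comm]; rfl
    · rw [hsum, add_comm (cz E V Eb Vb c1 c3 k48 k10 W0 N i)]
      refine hc.add ?_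
      unfold cz
      refine Rep.add ?_ ?_
      · exact (((rgb.mul rg).mod hm).natMul _).le (by omega)
      · have := (((rv.mul rvb).mod hm).natMul (c3 * wt k48 W0 N i)).le
          (show 30 * (i + 1) + 30 * (i + 1) ≤ 60 * N by omega)
        push_cast at this
        exact this
    · rw [hsum]
      have := div_le_nat (wq_pos k48 W0 N i) rr'
      push_cast at this ⊢
      linarith
    · unfold gz
      refine Rep.mod hm ?_
      refine Rep.natMul _ ?_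
      refine Rep.add (rgb.natMul _) ?_
      have := rvb.natMul (c2 * wt k48 W0 N i)
      push_cast at this
      exact this

/-! ### The polynomial `h` -/

/-- The first part, shifted. -/
def hx (k48 k24 P0 N n : ℕ) : ℕ := P0 / k48 ^ (N - 1 - n) % k24

/-- The second part, shifted. -/
def hy (k48 k24 P0 N n : ℕ) : ℕ := P0 / k48 ^ (N - 1 - n) / k24 % k24

/-- The coefficient of `h`, times `2 ^ 20`. -/
noncomputable def hz (k48 k24 P0 N n : ℕ) : ℂ :=
  ((hx k48 k24 P0 N n : ℂ) - 4194304) + ((hy k48 k24 P0 N n : ℂ) - 4194304) * I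

lemma sq_sub_nat {x y k45 k23 : ℕ} (h45 : k45 = 35184372088832) (h23 : k23 = 8388608) :
    ((x * x + y * y + k45 - k23 * (x + y) : ℕ) : ℝ) =
    ((x : ℝ) - 4194304) ^ 2 + ((y : ℝ) - 4194304) ^ 2 := by
  have h45' : (k45 : ℤ) = 35184372088832 := by rw [h45]; norm_num
  have h23' : (k23 : ℤ) = 8388608 := by rw [h23]; norm_num
  have h45r : (k45 : ℝ) = 35184372088832 := by rw [h45]; norm_num
  have h23r : (k23 : ℝ) = 8388608 := by rw [h23]; norm_num
  have h : k23 * (x + y) ≤ x * x + y * y + k45 := by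
    have h0 : (k23 : ℤ) * (x + y) ≤ x * x + y * y + k45 := by
      rw [h45', h23']
      nlinarith [sq_nonneg ((x : ℤ) - 4194304), sq_nonneg ((y : ℤ) - 4194304)]
    exact_mod_cast h0
  rw [Nat.cast_sub h]
  push_cast
  rw [h45r, h23r]
  ring

lemma norm_hz (k48 k24 P0 N n : ℕ) : ‖hz k48 k24 P0 N n‖ ^ 2 =
    ((hx k48 k24 P0 N n : ℝ) - 4194304) ^ 2 + ((hy k48 k24 P0 N n : ℝ) - 4194304) ^ 2 := by
  have e : hz k48 k24 P0 N n = (((hx k48 k24 P0 N n : ℝ) - 4194304 : ℝ) : ℂ) +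
      (((hy k48 k24 P0 N n : ℝ) - 4194304 : ℝ) : ℂ) * I := by
    unfold hz; push_cast; ring
  rw [e, ← Complex.normSq_eq_norm_sq, Complex.normSq_add_mul_I]

lemma rep_hz {B m cc x y : ℕ} (hm : m = B * B + 1) (hcc : cc = m - 4194304 * (1 + B))
    (hle : 4194304 * (1 + B) ≤ m) :
    Rep B 0 ((x + y * B + cc) % m) (((x : ℂ) - 4194304) + ((y : ℂ) - 4194304) * I) := by
  refine Rep.mod hm ⟨(x : ℤ) - 4194304, (y : ℤ) - 4194304, by push_cast; ring, ⟨1, ?_⟩⟩
  rw [hcc, Nat.cast_add, Nat.cast_sub hle, hm]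
  push_cast
  ring

lemma rep_hzb {B m nB ccb x y : ℕ} (hm : m = B * B + 1) (hnB : nB = m - B) (hle : B ≤ m)
    (hB : 1 ≤ B) (hccb : ccb = 4194304 * B - 4194304) :
    Rep B 0 ((x + y * nB + ccb) % m) (((x : ℂ) - 4194304) - ((y : ℂ) - 4194304) * I) := by
  refine Rep.mod hm ⟨(x : ℤ) - 4194304, -((y : ℤ) - 4194304), by push_cast; ring, ⟨y, ?_⟩⟩
  have h2 : 4194304 * 1 ≤ 4194304 * B := Nat.mul_le_mul_left _ hB
  rw [mul_one] at h2
  rw [hccb, hnB, Nat.cast_add, Nat.cast_sub h2, Nat.cast_add, Nat.cast_mul, Nat.cast_sub hle, hm]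
  push_cast
  ring

lemma conj_hz (k48 k24 P0 N n : ℕ) : conj (hz k48 k24 P0 N n) =
    ((hx k48 k24 P0 N n : ℂ) - 4194304) - ((hy k48 k24 P0 N n : ℂ) - 4194304) * I := by
  unfold hz
  simp only [map_add, map_sub, map_mul, Complex.conj_I, map_natCast, map_ofNat]
  ring

theorem hls_sound {B N m nB cc ccb k48 k24 k45 k23 P0 : ℕ} (hm : m = B * B + 1)
    (hcc : cc = m - 4194304 * (1 + B)) (hle : 4194304 * (1 + B) ≤ m) (hnB : nB = m - B)
    (hB : 1 ≤ B) (hccb : ccb = 4194304 * B - 4194304) (h45 : k45 = 35184372088832)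
    (h23 : k23 = 8388608) {k : List ℕ → List ℕ → ℕ → Bool} :
    ∀ i : ℕ, i ≤ N → ∀ (P : ℕ) (h hb : List ℕ) (hh : ℕ),
      P = P0 / k48 ^ (N - i) →
      FW (fun i t => Rep B 0 t (hz k48 k24 P0 N i)) N i h →
      FW (fun i t => Rep B 0 t (conj (hz k48 k24 P0 N i))) N i hb →
      ((hh : ℝ) = ∑ n ∈ Finset.Ico i N, ‖hz k48 k24 P0 N n‖ ^ 2) →
      hls m B nB cc ccb k48 k24 k45 k23 k i P h hb hh = true →
      ∃ (h' hb' : List ℕ) (hh' : ℕ),
        FW (fun i t => Rep B 0 t (hz k48 k24 P0 N i)) N 0 h' ∧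
        FW (fun i t => Rep B 0 t (conj (hz k48 k24 P0 N i))) N 0 hb' ∧
        ((hh' : ℝ) = ∑ n ∈ Finset.range N, ‖hz k48 k24 P0 N n‖ ^ 2) ∧ k h' hb' hh' = true := by
  intro i
  induction i with
  | zero =>
    intro _ P h hb hh _ h1 h2 h3 h4
    rw [hls_zero] at h4
    rw [← Finset.range_eq_Ico] at h3
    exact ⟨h, hb, hh, h1, h2, h3, h4⟩
  | succ i ih =>
    intro hi P h hb hh hP h1 h2 h3 h4
    rw [hls_succ] at h4
    have hx' : P % k24 = hx k48 k24 P0 N i := by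
      rw [hP, hx, show N - (i + 1) = N - 1 - i by omega]
    have hy' : P / k24 % k24 = hy k48 k24 P0 N i := by
      rw [hP, hy, show N - (i + 1) = N - 1 - i by omega]
    rw [hx', hy'] at h4
    have hBm : B ≤ m := by
      rw [hm]
      exact (Nat.le_mul_self B).trans (Nat.le_succ _)
    refine ih (by omega) _ _ _ _ ?_ (FW.cons ?_ h1) (FW.cons ?_ h2) ?_ h4
    · rw [hP, div_step, show N - (i + 1) + 1 = N - i by omega]
    · have := rep_hz (x := hx k48 k24 P0 N i) (y := hy k48 k24 P0 N i) hm hcc hle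
      unfold hz
      exact this
    · rw [conj_hz]
      exact rep_hzb hm hnB hBm hB hccb
    · rw [Finset.sum_eq_sum_Ico_succ_bot (show i < N from hi), ← h3, Nat.cast_add,
        sq_sub_nat h45 h23, norm_hz]
      ring

end Pool.Agent.BNC
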