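import Pool.Agent.Lib.BNC.Vertex
import Pool.Agent.Lib.BNC.Def

/-!
# Soundness of the check at one vertex: the initial data
-/

set_option autoImplicit false

open Complex
open scoped ComplexConjugate
open Pool.Agent.BNR

namespace Pool.Agent.BNC

/-- The residue of `2 ^ (-10)`. -/
lemma rep_i10 {K B m i10 : ℕ} (hK : 10 ≤ K) (hB : B = 2 ^ K) (hm : m = B * B + 1)
    (hi : i10 = m - 2 ^ (2 * K - 10)) : Rep B 10 i10 ((1 : ℂ) / 1024) := by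
  have h1 : 2 ^ (2 * K - 10) ≤ m := by
    have h2 : 2 ^ (2 * K - 10) ≤ 2 ^ (2 * K) := Nat.pow_le_pow_right (by norm_num) (by omega)
    have h3 : B * B = 2 ^ (2 * K) := by rw [hB, ← pow_add]; congr 1; omega
    omega
  refine ⟨1, 0, by norm_num, ⟨2 ^ 10 - 1, ?_⟩⟩
  rw [hi, Nat.cast_sub h1, hm]
  have h4 : (2 : ℤ) ^ 10 * 2 ^ (2 * K - 10) = (B : ℤ) ^ 2 := by
    rw [← pow_add, hB]
    push_cast
    rw [← pow_mul]
    congr 1
    omega
  push_cast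
  linear_combination -h4

/-- The vertex. -/
lemma rep_e {B m L ec es : ℕ} (hm : m = B * B + 1) (hL : 1024 * L ≤ m) {p : ℤ × ℤ}
    (h1 : (ec : ℤ) = p.1 + 1024) (h2 : (es : ℤ) = p.2) :
    Rep B 0 (L * (ec + es * B) + (m - 1024 * L)) (L * ((p.1 : ℂ) + p.2 * I)) := by
  refine ⟨L * p.1, L * p.2, by push_cast; ring, ⟨1, ?_⟩⟩
  rw [Nat.cast_add, Nat.cast_sub hL, hm]
  push_cast
  rw [h1, h2]
  ring

/-- The conjugate vertex. -/
lemma rep_eb {B m nB L ec es : ℕ} (hm : m = B * B + 1) (hL : 1024 * L ≤ m) (hnB : nB = m - B)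
    (hBm : B ≤ m) {p : ℤ × ℤ} (h1 : (ec : ℤ) = p.1 + 1024) (h2 : (es : ℤ) = p.2) :
    Rep B 0 (L * (ec + es * nB) + (m - 1024 * L)) (L * ((p.1 : ℂ) - p.2 * I)) := by
  refine ⟨L * p.1, -(L * p.2), by push_cast; ring, ⟨L * es + 1, ?_⟩⟩
  rw [Nat.cast_add, Nat.cast_sub hL, hnB]
  push_cast
  rw [Nat.cast_sub hBm, hm]
  push_cast
  rw [h1, h2]
  ring

/-- The point `(L / 1024) e`. -/
lemma xe_eq (L : ℕ) (p : ℤ × ℤ) : (((L : ℝ) / 1024 : ℝ) : ℂ) * nd 1024 p =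
    L * ((p.1 : ℂ) + p.2 * I) * (1 / 1048576) := by
  have h : nd 1024 p = ((p.1 : ℂ) + p.2 * I) / 1024 := by
    apply Complex.ext
    · simp [nd]
    · simp [nd]
  rw [h]
  push_cast
  ring

lemma conj_xe (L : ℕ) (p : ℤ × ℤ) : conj ((((L : ℝ) / 1024 : ℝ) : ℂ) * nd 1024 p) =
    L * ((p.1 : ℂ) - p.2 * I) * (1 / 1048576) := by
  rw [xe_eq]
  simp only [map_mul, map_add, Complex.conj_I, map_natCast, map_intCast, map_div₀,
    map_one, map_ofNat]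
  ring

lemma norm_nd {ec es : ℕ} {p : ℤ × ℤ} (h1 : (ec : ℤ) = p.1 + 1024) (h2 : (es : ℤ) = p.2)
    (h3 : ec * ec + es * es ≤ 2048 * ec) : ‖nd 1024 p‖ ≤ 1 := by
  refine norm_nd_le (by norm_num) ?_
  have h4 : ((ec * ec + es * es : ℕ) : ℤ) ≤ ((2048 * ec : ℕ) : ℤ) := by exact_mod_cast h3
  push_cast at h4 ⊢
  rw [h1, h2] at h4
  linarith

theorem ptv_sound {N K : ℕ} (hN : N ≤ 32) (hK : 60 * N + 100 ≤ K)
    {m B H HH D2 nB cc ccb c1 c2 c3 k48 k24 k45 k23 k20 k10 T : ℕ} (hB : B = 2 ^ K)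
    (hm : m = B * B + 1) (hH : H = 2 ^ (K - 1)) (hHH : HH = H + H * B)
    (hD2 : D2 = 2 ^ (60 * N)) (hnB : nB = m - B) (hcc : cc = m - 4194304 * (1 + B))
    (hccb : ccb = 4194304 * B - 4194304) (hc1 : c1 = T) (hc2 : c2 = 2 * T)
    (hc3 : c3 = 4 * T * T) (h48 : k48 = 2 ^ 48) (h24 : k24 = 2 ^ 24)
    (h45 : k45 = 35184372088832) (h23 : k23 = 8388608) (h20 : k20 = 2 ^ 20)
    (h10 : k10 = 1024) (hT : T ≤ 1024) {A L i20 nL : ℕ} (hA : A ≤ 1024) (hL : L ≤ 512)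
    (hi20 : Rep B 20 i20 ((1 : ℂ) / 1048576)) (hnL : nL = m - 1024 * L) {r : ℝ} {rr : List ℕ}
    (hrr : RV (fun i t => r ^ (2 * i) * 2 ^ 58 ≤ (t : ℝ)) N rr)
    {tau a' q ec es d b W2 : ℕ} {p : ℤ × ℤ}
    (ra : Rep B 10 a' (((A : ℝ) / 1024 : ℝ) : ℂ))
    (rq : Rep B 30 q (1 - (((A : ℝ) / 1024 : ℝ) : ℂ) ^ 2))
    (h1 : (ec : ℤ) = p.1 + 1024) (h2 : (es : ℤ) = p.2) (h3 : ec * ec + es * es ≤ 2048 * ec)
    (h : ptv m B H HH D2 nB cc ccb c1 c2 c3 N k48 k24 k45 k23 k20 k10 rr tau L nL i20 W2 a' q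
      ec es d b = true) {ζ : ℂ} (hζ : ‖ζ‖ = 1) :
    ∑ n ∈ Finset.range N, ‖el ((A : ℝ) / 1024) ((((L : ℝ) / 1024 : ℝ) : ℂ) * nd 1024 p) n +
      (((T : ℝ) / 1024 : ℝ) : ℂ) *
        yy ((A : ℝ) / 1024) ((((L : ℝ) / 1024 : ℝ) : ℂ) * nd 1024 p) ζ n‖ * r ^ n ≤
      (b : ℝ) / 2 ^ 20 - tau / 2 ^ 40 := by
  have hB1 : 1 ≤ B := by rw [hB]; exact Nat.one_le_two_pow
  have hBm : B ≤ m := by rw [hm]; exact (Nat.le_mul_self B).trans (Nat.le_succ _)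
  have hm0 : 0 < m := by omega
  have hLm : 1024 * L ≤ m := by
    have h4 : 2 ^ 20 ≤ B := by
      rw [hB]; exact Nat.pow_le_pow_right (by norm_num) (by omega)
    have h5 : 1024 * L ≤ 2 ^ 20 := by
      rw [show (2 : ℕ) ^ 20 = 1024 * 1024 by norm_num]
      exact Nat.mul_le_mul_left _ (by omega)
    omega
  set x : ℂ := (((L : ℝ) / 1024 : ℝ) : ℂ) * nd 1024 p with hx
  set a : ℝ := (A : ℝ) / 1024 with ha
  have ha0 : 0 ≤ a := div_nonneg (Nat.cast_nonneg _) (by norm_num)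
  have ha1 : a ≤ 1 := by
    rw [ha, div_le_one (by norm_num)]
    exact_mod_cast hA
  have hxn : ‖x‖ ≤ 1 / 2 := by
    rw [hx, norm_mul, Complex.norm_real, Real.norm_eq_abs,
      abs_of_nonneg (div_nonneg (Nat.cast_nonneg _) (by norm_num))]
    have h4 := norm_nd h1 h2 h3
    have h5 : (L : ℝ) / 1024 ≤ 1 / 2 := by
      rw [div_le_iff₀ (by norm_num)]
      have : (L : ℝ) ≤ 512 := by exact_mod_cast hL
      linarith
    calc (L : ℝ) / 1024 * ‖nd 1024 p‖ ≤ 1 / 2 * 1 :=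
          mul_le_mul h5 h4 (norm_nonneg _) (by norm_num)
      _ = 1 / 2 := by norm_num
  have rx : Rep B 20 ((L * (ec + es * B) + nL) * i20 % m) x := by
    rw [hx, xe_eq, hnL]
    exact ((rep_e hm hLm h1 h2).mul hi20).mod hm
  have rxb : Rep B 20 ((L * (ec + es * nB) + nL) * i20 % m) (conj x) := by
    rw [hx, conj_xe, hnL]
    exact ((rep_eb hm hLm hnB hBm h1 h2).mul hi20).mod hm
  have lx : (L * (ec + es * B) + nL) * i20 % m ≤ m := (Nat.mod_lt _ hm0).le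
  have lxb : (L * (ec + es * nB) + nL) * i20 % m ≤ m := (Nat.mod_lt _ hm0).le
  generalize hxh : (L * (ec + es * B) + nL) * i20 % m = xh at rx lx
  generalize hxhb : (L * (ec + es * nB) + nL) * i20 % m = xhb at rxb lxb
  have hptv : ptv m B H HH D2 nB cc ccb c1 c2 c3 N k48 k24 k45 k23 k20 k10 rr tau L nL i20 W2
      a' q ec es d b = ptc m B H HH D2 nB cc ccb c1 c2 c3 N k48 k24 k45 k23 k20 k10 rr tau a'
        (a' * (xh + 1) % m) (m - xh) q ((a' * (xh + 1) % m * a' + (m - 1)) % m)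
        (a' * (xhb + 1) % m) (m - xhb) ((a' * (xhb + 1) % m * a' + (m - 1)) % m)
        (d % W2) (d / W2) b := by
    rw [← hxh, ← hxhb]
    rfl
  rw [hptv] at h
  have rp : ∀ {y : ℕ} {z : ℂ}, Rep B 20 y z → Rep B 30 (a' * (y + 1) % m) (a * (1 + z)) := by
    intro y z hy
    have h4 := (ra.mul (hy.add (Rep.nat' B 20 1))).mod hm
    rw [add_comm z] at h4
    simpa using h4
  have re : ∀ {y : ℕ} {z : ℂ}, Rep B 30 y (a * (1 + z)) →
      Rep B 60 ((y * a' + (m - 1)) % m) (a * (1 + z) * a - 1) := by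
    intro y z hy
    have h4 := ((hy.mul ra).le (show 30 + 10 ≤ 60 by norm_num)).add
      ((Rep.nat' B 60 1).neg hm (show 1 ≤ m by omega))
    have h5 := h4.mod hm
    rw [Nat.cast_one, ← sub_eq_add_neg] at h5
    exact h5
  exact ptc_sound hN hK hB hm hH hHH hD2 hnB hcc hccb hc1 hc2 hc3 h48 h24 h45 h23 h20 h10 hT
    ha0 ha1 hxn hrr (ra.le (by norm_num)) (rp rx) ((rx.neg hm lx).le (by norm_num)) rq
    (re (rp rx)) (rp rxb) ((rxb.neg hm lxb).le (by norm_num)) (re (rp rxb)) h hζ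

end Pool.Agent.BNC
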