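import Mathlib

/-!
# The record of a slice of the near zone

The record `NSlice` holds the grid (blocks of values of `a`, each with its own list of angles), the
bounds at the vertices and the constants of the interpolation errors. Units: `l`, `a`, `t0` and the
coordinates of the angles `1 / 1024`, radii `2 ^ (-24)`, bounds `b` and `kap` `2 ^ (-20)`, all
constants `2 ^ (-30)`. `NSlice.ok` is the check of everything except the bounds at the vertices.
-/

set_option autoImplicit false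

namespace Pool.Agent.BNC

/-- The constants of a strip `A_i ≤ 1024 a ≤ A_(i+1)`. -/
structure StC where
  Q : ℕ
  Qd : ℕ
  nV : ℕ
  dV : ℕ
  E : ℕ
  C : ℕ

/-- A block: list of angles, list of `kap`, list of values of `a`, bounds at both ends. -/
structure Block where
  es : List (ℤ × ℤ)
  kap : List ℕ
  As : List ℕ
  b1 : List (List ℕ)
  b2 : List (List ℕ)
  st : List StC

/-- The data of a slice. -/
structure NSlice where
  T : ℕ
  L1 : ℕ
  L2 : ℕ
  R1 : ℕ
  R2 : ℕ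
  F : ℕ
  Fd : ℕ
  P : ℕ
  Pd : ℕ
  KL : ℕ
  blocks : List Block

/-- Rational numbers in units `2 ^ (-30)`. -/
def q30 (n : ℕ) : ℚ := (n : ℚ) / 1073741824

/-- Error in the direction of `a`. -/
def EAq (t l R a1 a2 F Q P : ℚ) : ℚ :=
  (a2 - a1) * (a2 - a1) / 4 * ((1 + (1 + l) * R * F) * ((1 + l) * R) * (Q * Q) +
    t * P * R * (Q * Q + 4 * a2 * ((1 + l) * R) * (Q * Q * Q) +
      3 * (1 - a1 * a1) * ((1 + l) * R * ((1 + l) * R)) * (Q * Q * (Q * Q))))

/-- Coefficient of the error in the angle. -/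
def CPq (t l R F nV P : ℚ) : ℚ :=
  l * (R * (F * F) + 2 * t * P * (R * F * nV)) +
    2 * (l * l) * (R * R * (F * F * F) + 3 * t * P * (R * R * (F * F) * nV))

/-- Error in the direction of `l`. -/
def ELq (t l1 l2 R1 R2 F Fd nV dV P Pd KL : ℚ) : ℚ :=
  R1 * ((l2 - l1) * (l2 - l1) / 4) *
      (R1 * R1 * (F * F * F) + 3 * t * P * (R1 * R1 * (F * F) * nV)) +
    (R1 - R2) * (l2 - l1) / 4 *
      (KL + t * R1 * (2 * (2 * P * F * nV) + 2 * (Pd * F * nV + P * Fd * nV + P * F * dV)))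

/-- Convexity of `1 / (1 + l)`. -/
def ETq (l1 l2 : ℚ) : ℚ :=
  (l2 - l1) * (l2 - l1) / (4 * ((1 + l1) * (1 + l1)) * (1 + l2))

/-- The conditions of `Cst` which do not depend on the strip. -/
def cstA (l R F Fd P Pd KL : ℚ) : Bool :=
  decide (0 ≤ F) && (decide (1 ≤ F * F * ((1 - l * l) * (1 - R * R))) && (decide (0 ≤ Fd) &&
    (decide (R * R * (1 + R * R) ≤
      Fd * Fd * ((1 - R * R) * (1 - R * R) * (1 - R * R) * (1 - l * l))) &&
    (decide ((1 + R) / (1 - R) ≤ P) && (decide (2 * R / ((1 - R) * (1 - R)) ≤ Pd) &&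
    (decide (0 ≤ KL) &&
      decide ((1 + R * R) - (1 - R * R) * (1 - R * R) * (1 - R * R) ≤
        KL * KL * ((1 - R * R) * (1 - R * R) * (1 - R * R) * ((1 - l) * (1 - l)) *
          (1 - l * l)))))))))

/-- The conditions of `Cst` which depend on the strip. -/
def cstB (l R a1 a2 Q Qd nV dV : ℚ) : Bool :=
  decide (1 ≤ Q) && (decide (R * R * (a2 * a2 + l * l / (1 - l * l)) ≤
      (Q - 1) * (Q - 1) * ((1 - a2 * a2) * (1 - R * R))) && (decide (0 ≤ Qd) &&
    (decide (R * R * (1 + R * R) * (a2 * a2 + l * l / (1 - l * l)) ≤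
      Qd * Qd * ((1 - R * R) * (1 - R * R) * (1 - R * R) * (1 - a2 * a2))) &&
    (decide ((1 - a1 * a1) * R * (Q * Q) ≤ nV) &&
      decide ((1 - a1 * a1) * R * (Q * Q + 2 * Q * Qd) ≤ dV)))))

/-- The cell condition at one end. -/
def cellOK (L R K b1 b2 b3 b4 : ℕ) : Bool :=
  Nat.blt ((R * max (max b1 b2) (max b3 b4) * 64 + K) * (1024 + L)) 1152921504606846976

/-- All cells of a strip; `m` intervals. -/
def cellsOK (L1 L2 R1 R2 E C m : ℕ) (kap p1 q1 p2 q2 : List ℕ) : Bool :=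
  (List.range m).all fun k =>
    cellOK L1 R1 (E * 1048576 + C * kap.getD k 0) (p1.getD k 0) (p1.getD (k + 1) 0)
      (q1.getD k 0) (q1.getD (k + 1) 0) &&
    cellOK L2 R2 (E * 1048576 + C * kap.getD k 0) (p2.getD k 0) (p2.getD (k + 1) 0)
      (q2.getD k 0) (q2.getD (k + 1) 0)

/-- The constants of one strip. -/
def stripC (S : NSlice) (A1 A2 : ℕ) (c : StC) : Bool :=
  (fun (l1 l2 R1 R2 a1 a2 t : ℚ) =>
    Nat.ble A1 A2 && (Nat.blt A2 1024 &&
    (cstB l2 R1 a1 a2 (q30 c.Q) (q30 c.Qd) (q30 c.nV) (q30 c.dV) &&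
    (decide (ELq t l1 l2 R1 R2 (q30 S.F) (q30 S.Fd) (q30 c.nV) (q30 c.dV) (q30 S.P) (q30 S.Pd)
      (q30 S.KL) + R1 * EAq t l2 R1 a1 a2 (q30 S.F) (q30 c.Q) (q30 S.P) + ETq l1 l2 ≤ q30 c.E) &&
      decide (R1 * CPq t l2 R1 (q30 S.F) (q30 c.nV) (q30 S.P) ≤ q30 c.C)))))
    ((S.L1 : ℚ) / 1024) ((S.L2 : ℚ) / 1024) ((S.R1 : ℚ) / 16777216) ((S.R2 : ℚ) / 16777216)
    ((A1 : ℚ) / 1024) ((A2 : ℚ) / 1024) ((S.T : ℚ) / 1024)

/-- The angles of a block. -/
def angOK (m : ℕ) (es : List (ℤ × ℤ)) (kap : List ℕ) : Bool :=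
  decide (es.getD 0 (0, 0) = (1024, 0)) && (decide (es.getD m (0, 0) = (-1024, 0)) &&
  ((List.range (m + 1)).all (fun k =>
    (fun (e : ℤ × ℤ) => decide (e.1 * e.1 + e.2 * e.2 ≤ 1048576)) (es.getD k (0, 0))) &&
  (List.range m).all (fun k =>
    (fun (e f : ℤ × ℤ) (κ : ℕ) => decide (0 < e.1 * f.2 - e.2 * f.1) &&
      (Nat.ble κ 1048576 &&
      (decide (4 * ((1048576 - κ) * (1048576 - κ)) + ((e.1 - f.1) * (e.1 - f.1) +
        (e.2 - f.2) * (e.2 - f.2)) * 1048576 ≤ (e.1 * e.1 + e.2 * e.2) * 4194304) &&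
      decide (4 * ((1048576 - κ) * (1048576 - κ)) + ((e.1 - f.1) * (e.1 - f.1) +
        (e.2 - f.2) * (e.2 - f.2)) * 1048576 ≤ (f.1 * f.1 + f.2 * f.2) * 4194304))))
      (es.getD k (0, 0)) (es.getD (k + 1) (0, 0)) (kap.getD k 0))))

/-- The check of a block. -/
def Block.ok (S : NSlice) (B : Block) : Bool :=
  (fun m n => Nat.beq B.es.length (m + 1) && (Nat.ble 1 n && (Nat.beq B.As.length (n + 1) &&
    (angOK m B.es B.kap &&
    (List.range n).all (fun i =>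
      (fun (c : StC) => stripC S (B.As.getD i 0) (B.As.getD (i + 1) 0) c &&
        cellsOK S.L1 S.L2 S.R1 S.R2 c.E c.C m B.kap (B.b1.getD i []) (B.b1.getD (i + 1) [])
          (B.b2.getD i []) (B.b2.getD (i + 1) [])) (B.st.getD i ⟨0, 0, 0, 0, 0, 0⟩))))))
    B.kap.length B.st.length

/-- The blocks follow each other. -/
def chainOK : ℕ → List Block → Bool
  | p, [] => Nat.ble 984 p
  | p, B :: Bs => Nat.beq (B.As.getD 0 0) p && (Nat.ble p (B.As.getD B.st.length 0) &&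
      chainOK (B.As.getD B.st.length 0) Bs)

/-- The check of a slice. -/
def NSlice.ok (S : NSlice) : Bool :=
  Nat.blt S.L1 S.L2 && (Nat.blt S.L2 1024 && (Nat.ble S.R2 S.R1 && (Nat.blt S.R1 16777216 &&
    (cstA ((S.L2 : ℚ) / 1024) ((S.R1 : ℚ) / 16777216) (q30 S.F) (q30 S.Fd) (q30 S.P) (q30 S.Pd)
      (q30 S.KL) && (chainOK 0 S.blocks && S.blocks.all (fun B => B.ok S))))))

end Pool.Agent.BNC
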