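import Mathlib

/-!
# Gaussian rationals as residues modulo `B ^ 2 + 1`

`Rep B d ρ z`: `2 ^ d z = u + v i` is a Gaussian integer and `2 ^ d ρ ≡ u + v B` modulo
`B ^ 2 + 1`.
-/

set_option autoImplicit false

open Complex

namespace Pool.Agent.BNC

/-- The natural number `ρ` represents the complex number `z` with denominator `2 ^ d`. -/
def Rep (B d ρ : ℕ) (z : ℂ) : Prop :=
  ∃ u v : ℤ, (2 : ℂ) ^ d * z = u + v * I ∧
    ((B : ℤ) ^ 2 + 1) ∣ (2 ^ d * (ρ : ℤ) - (u + v * B))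

variable {B d d1 d2 ρ ρ1 ρ2 : ℕ} {z z1 z2 : ℂ}

lemma Rep.mono (h : Rep B d ρ z) (e : ℕ) : Rep B (d + e) ρ z := by
  obtain ⟨u, v, h1, h2⟩ := h
  refine ⟨2 ^ e * u, 2 ^ e * v, ?_, ?_⟩
  · rw [pow_add]
    push_cast
    linear_combination (2 : ℂ) ^ e * h1
  · obtain ⟨c, hc⟩ := h2
    refine ⟨2 ^ e * c, ?_⟩
    rw [pow_add]
    linear_combination (2 : ℤ) ^ e * hc

lemma Rep.le (h : Rep B d1 ρ z) (hd : d1 ≤ d2) : Rep B d2 ρ z := by
  obtain ⟨e, rfl⟩ := Nat.exists_eq_add_of_le hd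
  exact h.mono e

lemma Rep.add (h1 : Rep B d ρ1 z1) (h2 : Rep B d ρ2 z2) : Rep B d (ρ1 + ρ2) (z1 + z2) := by
  obtain ⟨u1, v1, a1, b1⟩ := h1
  obtain ⟨u2, v2, a2, b2⟩ := h2
  refine ⟨u1 + u2, v1 + v2, ?_, ?_⟩
  · push_cast
    linear_combination a1 + a2
  · obtain ⟨c1, hc1⟩ := b1
    obtain ⟨c2, hc2⟩ := b2
    refine ⟨c1 + c2, ?_⟩
    push_cast
    linear_combination hc1 + hc2

lemma Rep.mul (h1 : Rep B d1 ρ1 z1) (h2 : Rep B d2 ρ2 z2) :
    Rep B (d1 + d2) (ρ1 * ρ2) (z1 * z2) := by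
  obtain ⟨u1, v1, a1, b1⟩ := h1
  obtain ⟨u2, v2, a2, b2⟩ := h2
  refine ⟨u1 * u2 - v1 * v2, u1 * v2 + v1 * u2, ?_, ?_⟩
  · push_cast
    rw [pow_add]
    linear_combination (2 : ℂ) ^ d2 * z2 * a1 + (u1 + v1 * I) * a2 + (v1 * v2) * I_sq
  · obtain ⟨c1, hc1⟩ := b1
    obtain ⟨c2, hc2⟩ := b2
    refine ⟨c1 * (2 ^ d2 * ρ2) + (u1 + v1 * B) * c2 + v1 * v2, ?_⟩
    push_cast
    rw [pow_add]
    linear_combination (2 ^ d2 * (ρ2 : ℤ)) * hc1 + (u1 + v1 * B) * hc2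

lemma Rep.mod {m : ℕ} (hm : m = B * B + 1) (h : Rep B d ρ z) : Rep B d (ρ % m) z := by
  obtain ⟨u, v, h1, h2⟩ := h
  refine ⟨u, v, h1, ?_⟩
  obtain ⟨c, hc⟩ := h2
  have h3 : (ρ : ℤ) = (ρ % m : ℕ) + ((B : ℤ) ^ 2 + 1) * (ρ / m : ℕ) := by
    have := Nat.mod_add_div ρ m
    have h4 : ((ρ % m + m * (ρ / m) : ℕ) : ℤ) = (ρ : ℤ) := by rw [this]
    rw [← h4]
    push_cast [hm]
    ring
  refine ⟨c - 2 ^ d * (ρ / m : ℕ), ?_⟩
  rw [h3] at hc
  linear_combination hc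

lemma Rep.nat (B n : ℕ) : Rep B 0 n (n : ℂ) := by
  refine ⟨n, 0, by push_cast; ring, ⟨0, by push_cast; ring⟩⟩

lemma Rep.nat' (B d n : ℕ) : Rep B d n (n : ℂ) := by
  have := (Rep.nat B n).mono d
  rwa [Nat.zero_add] at this

lemma Rep.natMul (n : ℕ) (h : Rep B d ρ z) : Rep B d (n * ρ) (n * z) := by
  have := (Rep.nat B n).mul h
  rwa [Nat.zero_add] at this

/-- Representation of a negative number. -/
lemma Rep.neg {m : ℕ} (hm : m = B * B + 1) (h : Rep B d ρ z) (hρ : ρ ≤ m) :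
    Rep B d (m - ρ) (-z) := by
  obtain ⟨u, v, h1, h2⟩ := h
  refine ⟨-u, -v, ?_, ?_⟩
  · push_cast
    linear_combination -h1
  · obtain ⟨c, hc⟩ := h2
    refine ⟨2 ^ d - c, ?_⟩
    rw [Nat.cast_sub hρ, hm]
    push_cast
    linear_combination -hc

/-- Adding `m` does not change the represented number. -/
lemma Rep.add_m {m : ℕ} (hm : m = B * B + 1) (h : Rep B d ρ z) : Rep B d (ρ + m) z := by
  obtain ⟨u, v, h1, h2⟩ := h
  refine ⟨u, v, h1, ?_⟩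
  obtain ⟨c, hc⟩ := h2
  refine ⟨c + 2 ^ d, ?_⟩
  rw [hm]
  push_cast
  linear_combination hc

/-- Representation from a congruence. -/
lemma Rep.of_mod {m : ℕ} (hm : m = B * B + 1) {u v : ℤ} {n : ℕ}
    (hz : (2 : ℂ) ^ d * z = u + v * I) (hn : ((B : ℤ) ^ 2 + 1) ∣ ((n : ℤ) - (u + v * B)))
    (h : (2 ^ d * ρ) % m = n % m) : Rep B d ρ z := by
  refine ⟨u, v, hz, ?_⟩
  have h1 : (m : ℤ) ∣ (2 ^ d * (ρ : ℤ) - n) := by
    have h2 : (2 ^ d * ρ) ≡ n [MOD m] := h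
    have h3 := (Nat.modEq_iff_dvd.1 h2.symm)
    push_cast at h3
    exact h3
  have h4 : (m : ℤ) = (B : ℤ) ^ 2 + 1 := by rw [hm]; push_cast; ring
  rw [h4] at h1
  have h5 := dvd_add h1 hn
  have e : 2 ^ d * (ρ : ℤ) - n + ((n : ℤ) - (u + v * B)) = 2 ^ d * (ρ : ℤ) - (u + v * B) := by ring
  rwa [e] at h5

/-- Decoding: the sum of the absolute values of the two parts. -/
noncomputable def dec (m B H HH D2 y : ℕ) : ℕ :=
  (fun z => Nat.add (Nat.add (Nat.sub (Nat.mod z B) H) (Nat.sub H (Nat.mod z B)))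
    (Nat.add (Nat.sub (Nat.div z B) H) (Nat.sub H (Nat.div z B))))
    (Nat.mod (Nat.add (Nat.mul y D2) HH) m)

lemma dec_eq (m B H HH D2 y : ℕ) : dec m B H HH D2 y =
    (((y * D2 + HH) % m) % B - H + (H - ((y * D2 + HH) % m) % B)) +
    (((y * D2 + HH) % m) / B - H + (H - ((y * D2 + HH) % m) / B)) := rfl

lemma dist_eq (u : ℤ) (H w : ℕ) (h : (w : ℤ) = u + H) : ((w - H + (H - w) : ℕ) : ℝ) = |(u : ℝ)| := by
  rcases le_total H w with h1 | h1
  · rw [Nat.sub_eq_zero_of_le h1, add_zero, Nat.cast_sub h1]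
    have h2 : (w : ℝ) = u + H := by exact_mod_cast h
    rw [h2, add_sub_cancel_right, abs_of_nonneg]
    have : (0 : ℤ) ≤ u := by omega
    exact_mod_cast this
  · rw [Nat.sub_eq_zero_of_le h1, zero_add, Nat.cast_sub h1]
    have h2 : (w : ℝ) = u + H := by exact_mod_cast h
    rw [h2, abs_of_nonpos]
    · ring
    · have : u ≤ (0 : ℤ) := by omega
      exact_mod_cast this

theorem dec_sound {m H HH D D2 y : ℕ} (hB : B = 2 * H) (hm : m = B * B + 1)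
    (hHH : HH = H + H * B) (hD : D2 = 2 ^ D) (h : Rep B D y z) (hb : ‖z‖ * 2 ^ D < H) :
    ‖z‖ * 2 ^ D ≤ (dec m B H HH D2 y : ℝ) := by
  obtain ⟨u, v, h1, h2⟩ := h
  have hn : ‖z‖ * 2 ^ D = ‖(u : ℂ) + v * I‖ := by
    rw [← h1, norm_mul, norm_pow, Complex.norm_ofNat]
    ring
  have hre : ((u : ℂ) + v * I).re = u := by simp
  have him : ((u : ℂ) + v * I).im = v := by simp
  have hu : |(u : ℝ)| < H := by
    have := Complex.abs_re_le_norm ((u : ℂ) + v * I)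
    rw [hre] at this
    linarith
  have hv : |(v : ℝ)| < H := by
    have := Complex.abs_im_le_norm ((u : ℂ) + v * I)
    rw [him] at this
    linarith
  have hu' : |u| < (H : ℤ) := by exact_mod_cast hu
  have hv' : |v| < (H : ℤ) := by exact_mod_cast hv
  rw [abs_lt] at hu' hv'
  have hH0 : (0 : ℤ) < H := by omega
  -- the shifted parts
  obtain ⟨p, hp⟩ : ∃ p : ℕ, (p : ℤ) = u + H := ⟨(u + H).toNat, by omega⟩
  obtain ⟨q, hq⟩ : ∃ q : ℕ, (q : ℤ) = v + H := ⟨(v + H).toNat, by omega⟩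
  have hpB : p < B := by omega
  have hqB : q < B := by omega
  have hlt : p + B * q < m := by
    rw [hm]
    have : B * q ≤ B * (B - 1) := Nat.mul_le_mul_left _ (by omega)
    have h3 : B * (B - 1) + B = B * B := by
      obtain ⟨c, hc⟩ : ∃ c, B = c + 1 := ⟨B - 1, by omega⟩
      rw [hc]; simp; ring
    omega
  have hmod : (y * D2 + HH) % m = p + B * q := by
    have h3 : (y * D2 + HH) ≡ p + B * q [MOD m] := by
      rw [Nat.modEq_iff_dvd]
      obtain ⟨c, hc⟩ := h2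
      refine ⟨-c, ?_⟩
      rw [hHH, hD, hm]
      push_cast
      rw [hp, hq]
      linear_combination -hc
    have h4 : (y * D2 + HH) % m = (p + B * q) % m := h3
    rw [h4, Nat.mod_eq_of_lt hlt]
  have hmB : (p + B * q) % B = p := by
    rw [Nat.add_mul_mod_self_left, Nat.mod_eq_of_lt hpB]
  have hdB : (p + B * q) / B = q := by
    rw [Nat.add_mul_div_left _ _ (by omega), Nat.div_eq_of_lt hpB, zero_add]
  rw [dec_eq, hmod, hmB, hdB, Nat.cast_add, dist_eq u H p hp, dist_eq v H q hq, hn]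
  have h5 := norm_add_le (u : ℂ) (v * I)
  rw [norm_mul, Complex.norm_I, mul_one] at h5
  have e1 : ‖(u : ℂ)‖ = |(u : ℝ)| := by
    have : (u : ℂ) = ((u : ℝ) : ℂ) := by push_cast; rfl
    rw [this, Complex.norm_real, Real.norm_eq_abs]
  have e2 : ‖(v : ℂ)‖ = |(v : ℝ)| := by
    have : (v : ℂ) = ((v : ℝ) : ℂ) := by push_cast; rfl
    rw [this, Complex.norm_real, Real.norm_eq_abs]
  rwa [e1, e2] at h5

end Pool.Agent.BNC
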