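import Pool.Agent.Lib.BNR.Box
import Pool.Agent.Lib.BNC.Core
import Pool.Agent.Lib.BNC.Def
import Pool.Agent.Lib.BNC.Rec

/-!
# The near zone on a slice of values of `l`

Soundness of the record `NSlice`.
-/

set_option autoImplicit false

open Complex Metric Set
open Pool.Agent.P187f6b Pool.Agent.P187w Pool.Agent.BNR

namespace Pool.Agent.BNC

lemma EAq_cast (t l R a1 a2 F Q P : ℚ) :
    ((EAq t l R a1 a2 F Q P : ℚ) : ℝ) = EA t l R a1 a2 F Q P := by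
  unfold EAq EA
  push_cast
  ring

lemma CPq_cast (t l R F nV P : ℚ) : ((CPq t l R F nV P : ℚ) : ℝ) = CP t l R F nV P := by
  unfold CPq CP
  push_cast
  ring

lemma ELq_cast (t l1 l2 R1 R2 F Fd nV dV P Pd KL : ℚ) :
    ((ELq t l1 l2 R1 R2 F Fd nV dV P Pd KL : ℚ) : ℝ) =
      EL t l1 l2 R1 R2 F Fd nV dV P Pd KL := by
  unfold ELq EL
  push_cast
  ring

theorem cst_of {l R a1 a2 F Fd Q Qd nV dV P Pd KL : ℚ} (hA : cstA l R F Fd P Pd KL = true)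
    (hB : cstB l R a1 a2 Q Qd nV dV = true) : Cst l R a1 a2 F Fd Q Qd nV dV P Pd KL := by
  simp only [cstA, Bool.and_eq_true, decide_eq_true_eq] at hA
  simp only [cstB, Bool.and_eq_true, decide_eq_true_eq] at hB
  obtain ⟨h1, h2, h3, h4, h5, h6, h7, h8⟩ := hA
  obtain ⟨g1, g2, g3, g4, g5, g6⟩ := hB
  have h1' : ((0 : ℚ) : ℝ) ≤ F := by exact_mod_cast h1
  have h2' : ((1 : ℚ) : ℝ) ≤ ((F * F * ((1 - l * l) * (1 - R * R)) : ℚ) : ℝ) := by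
    exact_mod_cast h2
  have h3' : ((0 : ℚ) : ℝ) ≤ Fd := by exact_mod_cast h3
  have h4' : ((R * R * (1 + R * R) : ℚ) : ℝ) ≤
      ((Fd * Fd * ((1 - R * R) * (1 - R * R) * (1 - R * R) * (1 - l * l)) : ℚ) : ℝ) := by
    exact_mod_cast h4
  have h5' : (((1 + R) / (1 - R) : ℚ) : ℝ) ≤ P := by exact_mod_cast h5
  have h6' : ((2 * R / ((1 - R) * (1 - R)) : ℚ) : ℝ) ≤ Pd := by exact_mod_cast h6
  have h7' : ((0 : ℚ) : ℝ) ≤ KL := by exact_mod_cast h7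
  have h8' : (((1 + R * R) - (1 - R * R) * (1 - R * R) * (1 - R * R) : ℚ) : ℝ) ≤
      ((KL * KL * ((1 - R * R) * (1 - R * R) * (1 - R * R) * ((1 - l) * (1 - l)) *
          (1 - l * l)) : ℚ) : ℝ) := by exact_mod_cast h8
  have g1' : ((1 : ℚ) : ℝ) ≤ Q := by exact_mod_cast g1
  have g2' : ((R * R * (a2 * a2 + l * l / (1 - l * l)) : ℚ) : ℝ) ≤
      (((Q - 1) * (Q - 1) * ((1 - a2 * a2) * (1 - R * R)) : ℚ) : ℝ) := by exact_mod_cast g2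
  have g3' : ((0 : ℚ) : ℝ) ≤ Qd := by exact_mod_cast g3
  have g4' : ((R * R * (1 + R * R) * (a2 * a2 + l * l / (1 - l * l)) : ℚ) : ℝ) ≤
      ((Qd * Qd * ((1 - R * R) * (1 - R * R) * (1 - R * R) * (1 - a2 * a2)) : ℚ) : ℝ) := by
    exact_mod_cast g4
  have g5' : (((1 - a1 * a1) * R * (Q * Q) : ℚ) : ℝ) ≤ nV := by exact_mod_cast g5
  have g6' : (((1 - a1 * a1) * R * (Q * Q + 2 * Q * Qd) : ℚ) : ℝ) ≤ dV := by exact_mod_cast g6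
  push_cast at h1' h2' h3' h4' h5' h6' h7' h8' g1' g2' g3' g4' g5' g6'
  refine ⟨h1', ?_, h3', ?_, g1', ?_, g3', ?_, ?_, ?_, h5', ?_, h7', ?_⟩
  · calc (1 : ℝ) ≤ _ := h2'
      _ = _ := by ring
  · calc (R : ℝ) ^ 2 * (1 + (R : ℝ) ^ 2) = _ := by ring
      _ ≤ _ := h4'
      _ = _ := by ring
  · simp only [pow_two]
    exact g2'
  · calc (R : ℝ) ^ 2 * (1 + (R : ℝ) ^ 2) * ((a2 : ℝ) ^ 2 + (l : ℝ) ^ 2 / (1 - (l : ℝ) ^ 2)) = _ := by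
          rw [pow_two, pow_two, pow_two]
      _ ≤ _ := g4'
      _ = _ := by ring
  · calc (1 - (a1 : ℝ) ^ 2) * R * (Q : ℝ) ^ 2 = _ := by ring
      _ ≤ _ := g5'
  · calc (1 - (a1 : ℝ) ^ 2) * R * ((Q : ℝ) ^ 2 + 2 * Q * Qd) = _ := by ring
      _ ≤ _ := g6'
  · rw [pow_two]
    exact h6'
  · calc (1 + (R : ℝ) ^ 2) - (1 - (R : ℝ) ^ 2) ^ 3 = _ := by ring
      _ ≤ _ := h8'
      _ = _ := by ring

/-- Convexity of `1 / (1 + l)`. -/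
lemma inv_convex {l1 l2 τ : ℝ} (hl1 : 0 ≤ l1) (hl12 : l1 ≤ l2) (h0 : 0 ≤ τ) (h1 : τ ≤ 1) :
    (1 - τ) * (1 / (1 + l1)) + τ * (1 / (1 + l2)) -
      (l2 - l1) * (l2 - l1) / (4 * ((1 + l1) * (1 + l1)) * (1 + l2)) ≤
        1 / (1 + ((1 - τ) * l1 + τ * l2)) := by
  have hl2 : 0 ≤ l2 := hl1.trans hl12
  set l := (1 - τ) * l1 + τ * l2 with hl
  have hll : l1 ≤ l := by rw [hl]; nlinarith
  have e : (1 - τ) * (1 / (1 + l1)) + τ * (1 / (1 + l2)) - 1 / (1 + l) =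
      τ * (1 - τ) * ((l2 - l1) * (l2 - l1)) / ((1 + l1) * (1 + l2) * (1 + l)) := by
    have h3 : (1 + l1) ≠ 0 := by positivity
    have h4 : (1 + l2) ≠ 0 := by positivity
    have h5 : (1 + l) ≠ 0 := by have : 0 ≤ l := hl1.trans hll; positivity
    field_simp
    rw [hl]
    ring
  have h2 : τ * (1 - τ) * ((l2 - l1) * (l2 - l1)) / ((1 + l1) * (1 + l2) * (1 + l)) ≤
      (l2 - l1) * (l2 - l1) / (4 * ((1 + l1) * (1 + l1)) * (1 + l2)) := by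
    have hl0 : 0 ≤ l := hl1.trans hll
    rw [div_le_div_iff₀ (by positivity) (by positivity)]
    have h3 : τ * (1 - τ) ≤ 1 / 4 := by nlinarith [sq_nonneg (τ - 1 / 2)]
    have h4 : (0 : ℝ) ≤ (l2 - l1) * (l2 - l1) := mul_self_nonneg _
    have h5 : (1 + l1) ≤ 1 + l := by linarith
    calc τ * (1 - τ) * ((l2 - l1) * (l2 - l1)) * (4 * ((1 + l1) * (1 + l1)) * (1 + l2))
        ≤ 1 / 4 * ((l2 - l1) * (l2 - l1)) * (4 * ((1 + l1) * (1 + l1)) * (1 + l2)) := by gcongr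
      _ = (l2 - l1) * (l2 - l1) * ((1 + l1) * (1 + l2) * (1 + l1)) := by ring
      _ ≤ _ := by gcongr
  linarith

/-- The radius. -/
noncomputable def NSlice.rad (S : NSlice) (l : ℝ) : ℝ :=
  ((S.R1 : ℝ) + ((S.R2 : ℝ) - S.R1) * ((1024 * l - S.L1) / ((S.L2 : ℝ) - S.L1))) / 2 ^ 24

namespace SliceAux

lemma getD_forall₂ {α β : Type*} {P : α → β → Prop} {l : List α} {l' : List β}
    (h : List.Forall₂ P l l') (x : α) (y : β) {k : ℕ} (hk : k < l.length) :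
    P (l.getD k x) (l'.getD k y) := by
  have hlen := h.length_eq
  rw [List.getD_eq_getElem _ _ hk, List.getD_eq_getElem _ _ (hlen ▸ hk)]
  exact List.Forall₂.get h hk (hlen ▸ hk)

lemma rows_pt {L R T : ℕ} {es : List (ℤ × ℤ)} {As : List ℕ} {bss : List (List ℕ)}
    (h : RowsOK L R T es As bss) {i k : ℕ} (hi : i < As.length) (hk : k < es.length) :
    PT L R T (As.getD i 0) (es.getD k (0, 0)) ((bss.getD i []).getD k 0) := by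
  have h1 : RowOK L R T (As.getD i 0) es (bss.getD i []) := getD_forall₂ h 0 [] hi
  exact getD_forall₂ h1 (0, 0) 0 hk

lemma normSq_nd (e : ℤ × ℤ) : ‖nd 1024 e‖ ^ 2 = ((e.1 * e.1 + e.2 * e.2 : ℤ) : ℝ) / 1048576 := by
  rw [← Complex.normSq_eq_norm_sq, Complex.normSq_apply]
  simp only [nd]
  push_cast
  ring

lemma normSq_nd_sub (e f : ℤ × ℤ) : ‖nd 1024 e - nd 1024 f‖ ^ 2 =
    (((e.1 - f.1) * (e.1 - f.1) + (e.2 - f.2) * (e.2 - f.2) : ℤ) : ℝ) / 1048576 := by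
  rw [← Complex.normSq_eq_norm_sq, Complex.normSq_apply]
  simp only [nd, Complex.sub_re, Complex.sub_im]
  push_cast
  ring

lemma kap_sound {e f : ℤ × ℤ} {κ : ℕ}
    (h1 : 4 * ((1048576 - (κ : ℤ)) * (1048576 - κ)) + ((e.1 - f.1) * (e.1 - f.1) +
        (e.2 - f.2) * (e.2 - f.2)) * 1048576 ≤ (e.1 * e.1 + e.2 * e.2) * 4194304)
    (h2 : 4 * ((1048576 - (κ : ℤ)) * (1048576 - κ)) + ((e.1 - f.1) * (e.1 - f.1) +
        (e.2 - f.2) * (e.2 - f.2)) * 1048576 ≤ (f.1 * f.1 + f.2 * f.2) * 4194304) :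
    (1 - (κ : ℝ) / 2 ^ 20) ^ 2 ≤ (min ‖nd 1024 e‖ ‖nd 1024 f‖) ^ 2 -
      ‖nd 1024 e - nd 1024 f‖ ^ 2 / 4 := by
  have g1 := (Int.cast_le (R := ℝ)).2 h1
  have g2 := (Int.cast_le (R := ℝ)).2 h2
  push_cast at g1 g2
  rcases le_total ‖nd 1024 e‖ ‖nd 1024 f‖ with h | h
  · rw [min_eq_left h, normSq_nd, normSq_nd_sub]
    push_cast
    linarith
  · rw [min_eq_right h, normSq_nd, normSq_nd_sub]
    push_cast
    linarith

/-- What the check of the angles gives. -/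
lemma ang_sound {m : ℕ} {es : List (ℤ × ℤ)} {kap : List ℕ} (h : angOK m es kap = true) :
    (∀ k, k ≤ m → ‖nd 1024 (es.getD k (0, 0))‖ ≤ 1) ∧
    (∀ k, k < m → kap.getD k 0 ≤ 1048576 ∧ (1 - ((kap.getD k 0 : ℕ) : ℝ) / 2 ^ 20) ^ 2 ≤
      (min ‖nd 1024 (es.getD k (0, 0))‖ ‖nd 1024 (es.getD (k + 1) (0, 0))‖) ^ 2 -
        ‖nd 1024 (es.getD k (0, 0)) - nd 1024 (es.getD (k + 1) (0, 0))‖ ^ 2 / 4) ∧
    ∀ e : ℂ, ‖e‖ = 1 → 0 ≤ e.im → ∃ k, k < m ∧ ∃ u S : ℝ, 0 ≤ u ∧ u ≤ 1 ∧ 1 ≤ S ∧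
      e = (S : ℂ) * ((1 - (u : ℂ)) * nd 1024 (es.getD k (0, 0)) +
        (u : ℂ) * nd 1024 (es.getD (k + 1) (0, 0))) := by
  simp only [angOK, Bool.and_eq_true, decide_eq_true_eq, List.all_eq_true, List.mem_range] at h
  obtain ⟨h0, hm, hn, hc⟩ := h
  have hnorm : ∀ k, k ≤ m → ‖nd 1024 (es.getD k (0, 0))‖ ≤ 1 := fun k hk =>
    norm_nd_le (by norm_num) (by
      have := hn k (Nat.lt_succ_of_le hk)
      norm_num
      exact this)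
  refine ⟨hnorm, fun k hk => ?_, fun e he hi => ?_⟩
  · obtain ⟨_, g2, g3, g4⟩ := hc k hk
    exact ⟨Nat.le_of_ble_eq_true g2, kap_sound g3 g4⟩
  · refine cover_fun (E := fun k => nd 1024 (es.getD k (0, 0))) ?_ ?_ hnorm (fun k hk => ?_) he hi
    · rw [h0]
      apply Complex.ext <;> norm_num [nd]
    · rw [hm]
      apply Complex.ext <;> norm_num [nd]
    · rw [crs_nd (by norm_num)]
      have := (hc k hk).1
      have h2 : (0 : ℝ) < (((es.getD k (0, 0)).1 * (es.getD (k + 1) (0, 0)).2 -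
        (es.getD k (0, 0)).2 * (es.getD (k + 1) (0, 0)).1 : ℤ) : ℝ) := by exact_mod_cast this
      positivity

/-- The strip which contains `a`. -/
lemma chain_sound {a : ℝ} (ha1 : a ≤ 984 / 1024) : ∀ (Bs : List Block) (p : ℕ),
    chainOK p Bs = true → (p : ℝ) / 1024 ≤ a → ((p : ℝ) / 1024 < a ∨ Bs ≠ []) →
    ∃ B ∈ Bs, ((B.As.getD 0 0 : ℕ) : ℝ) / 1024 ≤ a ∧
      a ≤ ((B.As.getD B.st.length 0 : ℕ) : ℝ) / 1024
  | [], p, h, hp, h' => by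
    exfalso
    have h1 : 984 ≤ p := Nat.le_of_ble_eq_true h
    have h2 : (984 : ℝ) ≤ p := by exact_mod_cast h1
    rcases h' with h' | h'
    · linarith
    · exact h' rfl
  | B :: Bs, p, h, hp, _ => by
    simp only [chainOK, Bool.and_eq_true] at h
    obtain ⟨h1, h2, h3⟩ := h
    have h1 : B.As.getD 0 0 = p := Nat.eq_of_beq_eq_true h1
    rcases le_or_gt a (((B.As.getD B.st.length 0 : ℕ) : ℝ) / 1024) with ha | ha
    · refine ⟨B, List.mem_cons_self, ?_, ha⟩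
      rw [h1]
      exact hp
    · obtain ⟨B', hB', h4⟩ := chain_sound ha1 Bs _ h3 ha.le (Or.inl ha)
      exact ⟨B', List.mem_cons_of_mem _ hB', h4⟩

/-- One cell, real form. -/
theorem cell_bound {l1 l2 R1 R2 a1 a2 t0 F Fd Q Qd nV dV P Pd KL : ℝ} (hl1 : 0 ≤ l1)
    (hl12 : l1 ≤ l2) (hl2 : l2 < 1) (hR2 : 0 ≤ R2) (hR12 : R2 ≤ R1) (hR1 : R1 < 1)
    (ha1 : 0 ≤ a1) (ha12 : a1 ≤ a2) (ha2 : a2 < 1) (ht : 0 ≤ t0)
    (hc : Cst l2 R1 a1 a2 F Fd Q Qd nV dV P Pd KL) {e1 e2 : ℂ} (he1 : ‖e1‖ ≤ 1) (he2 : ‖e2‖ ≤ 1)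
    {kap : ℝ} (hk0 : 0 ≤ kap) (hk1 : kap ≤ 1)
    (hkap : (1 - kap) ^ 2 ≤ (min ‖e1‖ ‖e2‖) ^ 2 - ‖e1 - e2‖ ^ 2 / 4)
    {e : ℂ} (he : ‖e‖ = 1) {u S : ℝ} (hu0 : 0 ≤ u) (hu1 : u ≤ 1) (hS : 1 ≤ S)
    (hSe : e = (S : ℂ) * ((1 - (u : ℂ)) * e1 + (u : ℂ) * e2)) {a : ℝ} (haa1 : a1 ≤ a)
    (haa2 : a ≤ a2) {τ : ℝ} (hτ0 : 0 ≤ τ) (hτ1 : τ ≤ 1) {r : ℝ} (hr0 : 0 ≤ r)
    (hr : r ≤ (1 - τ) * R1 + τ * R2) {β1 β2 E C : ℝ}
    (h11 : ∀ ζ : ℂ, ‖ζ‖ = 1 → R1 * nr (XF t0 a1 (l1 * e1) ζ) R1 ≤ β1)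
    (h12 : ∀ ζ : ℂ, ‖ζ‖ = 1 → R1 * nr (XF t0 a1 (l1 * e2) ζ) R1 ≤ β1)
    (h13 : ∀ ζ : ℂ, ‖ζ‖ = 1 → R1 * nr (XF t0 a2 (l1 * e1) ζ) R1 ≤ β1)
    (h14 : ∀ ζ : ℂ, ‖ζ‖ = 1 → R1 * nr (XF t0 a2 (l1 * e2) ζ) R1 ≤ β1)
    (h21 : ∀ ζ : ℂ, ‖ζ‖ = 1 → R2 * nr (XF t0 a1 (l2 * e1) ζ) R2 ≤ β2)
    (h22 : ∀ ζ : ℂ, ‖ζ‖ = 1 → R2 * nr (XF t0 a1 (l2 * e2) ζ) R2 ≤ β2)
    (h23 : ∀ ζ : ℂ, ‖ζ‖ = 1 → R2 * nr (XF t0 a2 (l2 * e1) ζ) R2 ≤ β2)
    (h24 : ∀ ζ : ℂ, ‖ζ‖ = 1 → R2 * nr (XF t0 a2 (l2 * e2) ζ) R2 ≤ β2)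
    (hE : EL t0 l1 l2 R1 R2 F Fd nV dV P Pd KL + R1 * EA t0 l2 R1 a1 a2 F Q P +
      (l2 - l1) * (l2 - l1) / (4 * ((1 + l1) * (1 + l1)) * (1 + l2)) ≤ E)
    (hC : R1 * CP t0 l2 R1 F nV P ≤ C) (hc1 : β1 + E + C * kap < 1 / (1 + l1))
    (hc2 : β2 + E + C * kap < 1 / (1 + l2)) :
    ∃ B : ℝ, B < 1 / (1 + ((1 - τ) * l1 + τ * l2)) ∧ ∀ ζ : ℂ, ‖ζ‖ = 1 →
      r * nr (XF t0 a ((((1 - τ) * l1 + τ * l2 : ℝ) : ℂ) * e) ζ) r ≤ B := by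
  have hS0 : (S : ℂ) ≠ 0 := by
    have : S ≠ 0 := by linarith
    exact_mod_cast this
  refine ⟨(1 - τ) * β1 + τ * β2 + EL t0 l1 l2 R1 R2 F Fd nV dV P Pd KL +
        R1 * (EA t0 l2 R1 a1 a2 F Q P + kap * CP t0 l2 R1 F nV P), ?_, fun ζ hζ => ?_⟩
  · have h0 := inv_convex hl1 hl12 hτ0 hτ1
    have h1 := mul_le_mul_of_nonneg_right hC hk0
    have h2 : 0 ≤ 1 - τ := by linarith
    set X := 1 / (1 + l1) - (β1 + E + C * kap) with hX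
    set Y := 1 / (1 + l2) - (β2 + E + C * kap) with hY
    have hX0 : 0 < X := by rw [hX]; linarith
    have hY0 : 0 < Y := by rw [hY]; linarith
    have h3 : 0 < (1 - τ) * X + τ * Y := by
      rcases lt_or_eq_of_le hτ0 with h | h
      · have := mul_pos h hY0
        have := mul_nonneg h2 hX0.le
        linarith
      · rw [← h]; linarith
    have e3 : (1 - τ) * X + τ * Y = (1 - τ) * (1 / (1 + l1)) + τ * (1 / (1 + l2)) -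
        ((1 - τ) * β1 + τ * β2) - E - C * kap := by rw [hX, hY]; ring
    rw [e3] at h3
    linarith
  · have hce : ((S⁻¹ : ℝ) : ℂ) * e = (1 - (u : ℂ)) * e1 + (u : ℂ) * e2 := by
      rw [hSe]
      push_cast
      field_simp
    exact box hl1 hl12 hl2 hR2 hR12 hR1 ha1 ha12 ha2 ht hc he1 he2 hk1
      (le_min (norm_nonneg _) (norm_nonneg _)) (min_le_left _ _) (min_le_right _ _) hkap he hu0 hu1
      (inv_nonneg.2 (by linarith)) hce haa1 haa2 hτ0 hτ1 hr0 hr hζ (h11 ζ hζ) (h12 ζ hζ)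
      (h13 ζ hζ) (h14 ζ hζ) (h21 ζ hζ) (h22 ζ hζ) (h23 ζ hζ) (h24 ζ hζ)

/-- The cell condition in real numbers. -/
lemma cell_real {L R E C κ b1 b2 b3 b4 : ℕ}
    (h : cellOK L R (E * 1048576 + C * κ) b1 b2 b3 b4 = true) :
    (R : ℝ) / 2 ^ 24 * ((max (max b1 b2) (max b3 b4) : ℕ) / 2 ^ 20) + (E : ℝ) / 2 ^ 30 +
      (C : ℝ) / 2 ^ 30 * ((κ : ℝ) / 2 ^ 20) < 1 / (1 + (L : ℝ) / 1024) := by
  unfold cellOK at h
  have h1 : (R * max (max b1 b2) (max b3 b4) * 64 + (E * 1048576 + C * κ)) * (1024 + L) <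
      1152921504606846976 := Nat.le_of_ble_eq_true h
  generalize max (max b1 b2) (max b3 b4) = b at *
  have h2 := (Nat.cast_lt (α := ℝ)).2 h1
  push_cast at h2
  have hL : (0 : ℝ) < 1024 + L := by positivity
  have e1 : 1 / (1 + (L : ℝ) / 1024) = 1024 / (1024 + L) := by field_simp
  rw [e1, lt_div_iff₀ hL]
  have e2 : ((R : ℝ) / 2 ^ 24 * ((b : ℝ) / 2 ^ 20) + (E : ℝ) / 2 ^ 30 +
      (C : ℝ) / 2 ^ 30 * ((κ : ℝ) / 2 ^ 20)) * (1024 + L) =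
      (R * b * 64 + (E * 1048576 + C * κ)) * (1024 + L) / 1125899906842624 := by ring
  rw [e2, div_lt_iff₀ (by norm_num)]
  linarith

lemma vtx {L R T A b bm : ℕ} {e : ℤ × ℤ} (h : PT L R T A e b) (hb : b ≤ bm) (ζ : ℂ)
    (hζ : ‖ζ‖ = 1) : (R : ℝ) / 2 ^ 24 * nr (XF ((T : ℝ) / 1024) ((A : ℝ) / 1024)
      ((((L : ℝ) / 1024 : ℝ) : ℂ) * nd 1024 e) ζ) ((R : ℝ) / 2 ^ 24) ≤
      (R : ℝ) / 2 ^ 24 * ((bm : ℕ) / 2 ^ 20) := by
  refine mul_le_mul_of_nonneg_left ((h ζ hζ).trans ?_) (by positivity)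
  have : (b : ℝ) ≤ bm := by exact_mod_cast hb
  gcongr

end SliceAux

open SliceAux

/-- The bound for all points with nonnegative imaginary part. -/
theorem NSlice.bound {S : NSlice} (hok : S.ok = true)
    (h1 : ∀ B ∈ S.blocks, RowsOK S.L1 S.R1 S.T B.es B.As B.b1)
    (h2 : ∀ B ∈ S.blocks, RowsOK S.L2 S.R2 S.T B.es B.As B.b2) {l : ℝ} (hl0 : 0 < l)
    (hl1 : (S.L1 : ℝ) / 1024 ≤ l) (hl2 : l ≤ (S.L2 : ℝ) / 1024) :
    ∀ e : ℂ, ‖e‖ = 1 → 0 ≤ e.im → ∀ a : ℝ, 0 ≤ a → a ≤ 984 / 1024 → ∀ r : ℝ, 0 ≤ r →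
      r ≤ S.rad l → ∃ B : ℝ, B < 1 / (1 + l) ∧ ∀ ζ : ℂ, ‖ζ‖ = 1 →
        r * nr (XF ((S.T : ℝ) / 1024) a (l * e) ζ) r ≤ B := by
  simp only [NSlice.ok, Bool.and_eq_true, List.all_eq_true] at hok
  obtain ⟨g1, g2, g3, g4, hcA, hch, hbl⟩ := hok
  have g1 : S.L1 < S.L2 := Nat.le_of_ble_eq_true g1
  have g2 : S.L2 < 1024 := Nat.le_of_ble_eq_true g2
  have g3 : S.R2 ≤ S.R1 := Nat.le_of_ble_eq_true g3
  have g4 : S.R1 < 16777216 := Nat.le_of_ble_eq_true g4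
  have g1r : (S.L1 : ℝ) < S.L2 := by exact_mod_cast g1
  have g2r : (S.L2 : ℝ) < 1024 := by exact_mod_cast g2
  have g3r : (S.R2 : ℝ) ≤ S.R1 := by exact_mod_cast g3
  have g4r : (S.R1 : ℝ) < 16777216 := by
    have := (Nat.cast_lt (α := ℝ)).2 g4
    push_cast at this
    exact this
  have hd : (0 : ℝ) < (S.L2 : ℝ) - S.L1 := by linarith
  set τ : ℝ := (1024 * l - S.L1) / ((S.L2 : ℝ) - S.L1) with hτ
  have hτ0 : 0 ≤ τ := by rw [hτ]; apply div_nonneg <;> linarith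
  have hτ1 : τ ≤ 1 := by rw [hτ, div_le_one hd]; linarith
  have hle : l = (1 - τ) * ((S.L1 : ℝ) / 1024) + τ * ((S.L2 : ℝ) / 1024) := by
    rw [hτ]; field_simp; ring
  have hrad : S.rad l = (1 - τ) * ((S.R1 : ℝ) / 2 ^ 24) + τ * ((S.R2 : ℝ) / 2 ^ 24) := by
    unfold NSlice.rad; rw [← hτ]; ring
  have e24 : (2 : ℝ) ^ 24 = 16777216 := by norm_num
  have hR1lt : (S.R1 : ℝ) / 2 ^ 24 < 1 := by rw [e24, div_lt_one (by positivity)]; exact g4r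
  have hR12 : (S.R2 : ℝ) / 2 ^ 24 ≤ (S.R1 : ℝ) / 2 ^ 24 := by gcongr
  have hR2 : (0 : ℝ) ≤ (S.R2 : ℝ) / 2 ^ 24 := by positivity
  have hl2lt : (S.L2 : ℝ) / 1024 < 1 := by rw [div_lt_one (by positivity)]; exact g2r
  intro e he hi a ha0 ha1' r hr0 hr
  -- the block
  have hne : S.blocks ≠ [] := by
    intro h
    rw [h] at hch
    exact absurd hch (by decide)
  obtain ⟨B, hB, hf, hla⟩ := chain_sound ha1' S.blocks 0 hch (by simpa using ha0) (Or.inr hne)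
  have hBok := hbl B hB
  simp only [Block.ok, Bool.and_eq_true, List.all_eq_true, List.mem_range] at hBok
  obtain ⟨k1, k2, k3, hang, hstr⟩ := hBok
  have k1 : B.es.length = B.kap.length + 1 := Nat.eq_of_beq_eq_true k1
  have k2 : 1 ≤ B.st.length := Nat.le_of_ble_eq_true k2
  have k3 : B.As.length = B.st.length + 1 := Nat.eq_of_beq_eq_true k3
  obtain ⟨hen, hka, hcov⟩ := ang_sound hang
  obtain ⟨k, hk, u, s, hu0, hu1, hs, hse⟩ := hcov e he hi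
  obtain ⟨i, hi', hA1, hA2⟩ := strip_fun (m := B.st.length)
    (A := fun i => ((B.As.getD i 0 : ℕ) : ℝ) / 1024) (by omega) hf hla
  have hst := hstr i hi'
  obtain ⟨hst1, hst2⟩ := hst
  simp only [stripC, Bool.and_eq_true, decide_eq_true_eq] at hst1
  obtain ⟨m1, m2, hcB, hE, hC⟩ := hst1
  have m1 : B.As.getD i 0 ≤ B.As.getD (i + 1) 0 := Nat.le_of_ble_eq_true m1
  have m2 : B.As.getD (i + 1) 0 < 1024 := Nat.le_of_ble_eq_true m2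
  simp only [cellsOK, List.all_eq_true, List.mem_range, Bool.and_eq_true] at hst2
  obtain ⟨hc1, hc2⟩ := hst2 k hk
  have hc1 := cell_real hc1
  have hc2 := cell_real hc2
  obtain ⟨hkk, hkap⟩ := hka k hk
  have hcst := cst_of hcA hcB
  have hE' := (Rat.cast_le (K := ℝ)).2 hE
  have hC' := (Rat.cast_le (K := ℝ)).2 hC
  have hq : ∀ n : ℕ, ((q30 n : ℚ) : ℝ) = (n : ℝ) / 2 ^ 30 := fun n => by
    unfold q30; push_cast; norm_num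
  have hi1 : i < B.As.length := by omega
  have hi2 : i + 1 < B.As.length := by omega
  have hk1 : k < B.es.length := by omega
  have hk2 : k + 1 < B.es.length := by omega
  have m1r : ((B.As.getD i 0 : ℕ) : ℝ) ≤ (B.As.getD (i + 1) 0 : ℕ) := by exact_mod_cast m1
  have m2r : ((B.As.getD (i + 1) 0 : ℕ) : ℝ) < 1024 := by exact_mod_cast m2
  have hκ : ((B.kap.getD k 0 : ℕ) : ℝ) / 2 ^ 20 ≤ 1 := by
    have := (Nat.cast_le (α := ℝ)).2 hkk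
    push_cast at this
    rw [div_le_one (by positivity)]
    linarith
  simp only [hq, Rat.cast_div, Rat.cast_natCast, Rat.cast_ofNat, ← e24] at hcst
  rw [Rat.cast_add, Rat.cast_add, Rat.cast_mul, ELq_cast, EAq_cast] at hE'
  rw [Rat.cast_mul, CPq_cast] at hC'
  unfold ETq at hE'
  push_cast at hE' hC'
  simp only [hq, ← e24] at hE' hC'
  have key := cell_bound (S := s) (β1 := (S.R1 : ℝ) / 2 ^ 24 * (((max (max ((B.b1.getD i []).getD k 0)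
      ((B.b1.getD i []).getD (k + 1) 0)) (max ((B.b1.getD (i + 1) []).getD k 0)
      ((B.b1.getD (i + 1) []).getD (k + 1) 0)) : ℕ) : ℝ) / 2 ^ 20))
    (β2 := (S.R2 : ℝ) / 2 ^ 24 * (((max (max ((B.b2.getD i []).getD k 0)
      ((B.b2.getD i []).getD (k + 1) 0)) (max ((B.b2.getD (i + 1) []).getD k 0)
      ((B.b2.getD (i + 1) []).getD (k + 1) 0)) : ℕ) : ℝ) / 2 ^ 20))
    (l1 := (S.L1 : ℝ) / 1024) (l2 := (S.L2 : ℝ) / 1024) (R1 := (S.R1 : ℝ) / 2 ^ 24)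
    (R2 := (S.R2 : ℝ) / 2 ^ 24) (a1 := ((B.As.getD i 0 : ℕ) : ℝ) / 1024)
    (a2 := ((B.As.getD (i + 1) 0 : ℕ) : ℝ) / 1024) (t0 := (S.T : ℝ) / 1024)
    (kap := ((B.kap.getD k 0 : ℕ) : ℝ) / 2 ^ 20) (τ := τ) (u := u) (r := r)
    (by positivity) (by gcongr) hl2lt hR2 hR12 hR1lt (by positivity) (by gcongr)
    (by rw [div_lt_one (by positivity)]; exact m2r) (by positivity) hcst (hen k hk.le)
    (hen (k + 1) hk) (by positivity) hκ hkap he hu0 hu1 hs hse hA1 hA2 hτ0 hτ1 hr0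
    (by rw [← hrad]; exact hr)
    (vtx (rows_pt (h1 B hB) hi1 hk1) (le_trans (le_max_left _ _) (le_max_left _ _)))
    (vtx (rows_pt (h1 B hB) hi1 hk2) (le_trans (le_max_right _ _) (le_max_left _ _)))
    (vtx (rows_pt (h1 B hB) hi2 hk1) (le_trans (le_max_left _ _) (le_max_right _ _)))
    (vtx (rows_pt (h1 B hB) hi2 hk2) (le_trans (le_max_right _ _) (le_max_right _ _)))
    (vtx (rows_pt (h2 B hB) hi1 hk1) (le_trans (le_max_left _ _) (le_max_left _ _)))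
    (vtx (rows_pt (h2 B hB) hi1 hk2) (le_trans (le_max_right _ _) (le_max_left _ _)))
    (vtx (rows_pt (h2 B hB) hi2 hk1) (le_trans (le_max_left _ _) (le_max_right _ _)))
    (vtx (rows_pt (h2 B hB) hi2 hk2) (le_trans (le_max_right _ _) (le_max_right _ _)))
    hE' hC' hc1 hc2
  obtain ⟨Bd, hBd, hfin⟩ := key
  rw [← hle] at hBd hfin
  exact ⟨Bd, hBd, hfin⟩

/-- The radius is less than one. -/
theorem NSlice.rad_lt {S : NSlice} (hok : S.ok = true) {l : ℝ} (hl1 : (S.L1 : ℝ) / 1024 ≤ l)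
    (hl2 : l ≤ (S.L2 : ℝ) / 1024) : l < 1 ∧ S.rad l < 1 := by
  simp only [NSlice.ok, Bool.and_eq_true, List.all_eq_true] at hok
  obtain ⟨g1, g2, g3, g4, _⟩ := hok
  have g1 : S.L1 < S.L2 := Nat.le_of_ble_eq_true g1
  have g2 : S.L2 < 1024 := Nat.le_of_ble_eq_true g2
  have g3 : S.R2 ≤ S.R1 := Nat.le_of_ble_eq_true g3
  have g4 : S.R1 < 16777216 := Nat.le_of_ble_eq_true g4
  have g1r : (S.L1 : ℝ) < S.L2 := by exact_mod_cast g1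
  have g2r : (S.L2 : ℝ) < 1024 := by exact_mod_cast g2
  have g3r : (S.R2 : ℝ) ≤ S.R1 := by exact_mod_cast g3
  have g4r : (S.R1 : ℝ) < 16777216 := by
    have := (Nat.cast_lt (α := ℝ)).2 g4
    push_cast at this
    exact this
  have hd : (0 : ℝ) < (S.L2 : ℝ) - S.L1 := by linarith
  have hτ0 : 0 ≤ (1024 * l - S.L1) / ((S.L2 : ℝ) - S.L1) := by apply div_nonneg <;> linarith
  refine ⟨by linarith, ?_⟩
  unfold NSlice.rad
  rw [div_lt_one (by positivity)]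
  have h3 : ((S.R2 : ℝ) - S.R1) * ((1024 * l - S.L1) / ((S.L2 : ℝ) - S.L1)) ≤ 0 :=
    mul_nonpos_of_nonpos_of_nonneg (by linarith) hτ0
  norm_num
  linarith

/-- The near zone on a slice. -/
theorem NSlice.near {S : NSlice} (hok : S.ok = true)
    (h1 : ∀ B ∈ S.blocks, RowsOK S.L1 S.R1 S.T B.es B.As B.b1)
    (h2 : ∀ B ∈ S.blocks, RowsOK S.L2 S.R2 S.T B.es B.As B.b2) {l : ℝ} (hl0 : 0 < l)
    (hl1 : (S.L1 : ℝ) / 1024 ≤ l) (hl2 : l ≤ (S.L2 : ℝ) / 1024) :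
    NEAR l (S.rad l) ((S.T : ℝ) / 1024) (40 / 1024) :=
  near_of_bounds hl0 (NSlice.rad_lt hok hl1 hl2).1 (NSlice.rad_lt hok hl1 hl2).2
    (fun e he hi a ha0 ha1 r hr0 hr =>
      NSlice.bound hok h1 h2 hl0 hl1 hl2 e he hi a ha0 (by linarith) r hr0 hr)

end Pool.Agent.BNC
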