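import Pool.Agent.Lib.BNC.Slice
import Pool.Agent.Lib.BMM.Chk

/-!
# The near zone on a slice, with numerals
-/

set_option autoImplicit false

open Pool.Agent.P187w Pool.Agent.BMM

namespace Pool.Agent.BNC

/-- `NSlice.near` with the data of the slice as real numbers. -/
theorem NSlice.near_num (S : NSlice) (hok : S.ok = true)
    (h1 : ∀ B ∈ S.blocks, RowsOK S.L1 S.R1 S.T B.es B.As B.b1)
    (h2 : ∀ B ∈ S.blocks, RowsOK S.L2 S.R2 S.T B.es B.As B.b2) {n1 n2 M1 M2 T : ℝ}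
    (e1 : (S.L1 : ℝ) = n1) (e2 : (S.L2 : ℝ) = n2) (e3 : (S.R1 : ℝ) = M1) (e4 : (S.R2 : ℝ) = M2)
    (e5 : (S.T : ℝ) = T) {l : ℝ} (hl0 : 0 < l) (hl1 : n1 / 1024 ≤ l) (hl2 : l ≤ n2 / 1024) :
    NEAR l (chord n1 n2 M1 M2 l) (T / 1024) (40 / 1024) := by
  have h := NSlice.near hok h1 h2 hl0 (by rw [e1]; exact hl1) (by rw [e2]; exact hl2)
  have e : S.rad l = chord n1 n2 M1 M2 l := by
    unfold NSlice.rad chord
    rw [e1, e2, e3, e4]
  rw [e, e5] at h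
  exact h

end Pool.Agent.BNC
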