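import Pool.Agent.Lib.BNC.Loops2
import Pool.Agent.Lib.BNC.Apri

/-!
# Soundness of the check at one vertex: the finite part
-/

set_option autoImplicit false

open Complex
open scoped ComplexConjugate
open Pool.Agent.BNR

namespace Pool.Agent.BNC

lemma conj_el (a : ℝ) (x : ℂ) (n : ℕ) : conj (el a x (n + 2)) =
    a * (1 + conj x) * conj (el a x (n + 1)) - conj x * conj (el a x n) := by
  rw [el]; simp only [map_sub, map_mul, map_add, map_one, Complex.conj_ofReal]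

lemma conj_uu (a : ℝ) (x : ℂ) (n : ℕ) : conj (uu a x (n + 2)) =
    a * (1 + conj x) * conj (uu a x (n + 1)) - conj x * conj (uu a x n) := by
  rw [uu]; simp only [map_sub, map_mul, map_add, map_one, Complex.conj_ofReal]

lemma conj_vv (a : ℝ) (x : ℂ) (n : ℕ) : conj (vv a x (n + 2)) =
    a * (1 + conj x) * conj (vv a x (n + 1)) - conj x * conj (vv a x n) +
      (1 - (a : ℂ) ^ 2) * conj (uu a x (n + 1)) := by
  rw [vv]; simp only [map_sub, map_mul, map_add, map_one, map_pow, Complex.conj_ofReal]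

lemma WW_wt (k48 W N n : ℕ) : WW (fun n => (wq k48 W N n : ℝ) / 2 ^ 20) N n =
    (wt k48 W N n : ℝ) / 2 ^ 20 := by
  unfold WW wt
  rw [← Finset.sum_div, Nat.cast_sum]
  congr 1

section

variable {a : ℝ} {x : ℂ} {T k48 k10 W P k24 N : ℕ}

lemma gz_eq (h10 : k10 = 1024) (n : ℕ) :
    gz (fun n => conj (el a x n)) (fun n => conj (vv a x n)) T (2 * T) k48 k10 W N n =
      2 ^ 40 * gq (el a x) (vv a x) ((T : ℝ) / 1024) (fun n => (wq k48 W N n : ℝ) / 2 ^ 20) N n := by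
  unfold gz gq
  rw [WW_wt, h10]
  simp only [map_add, map_mul, Complex.conj_ofReal]
  push_cast
  ring

lemma ck_eq (h10 : k10 = 1024) (k : ℕ) :
    ∑ j ∈ Finset.range (N - 1 - k), vv a x j *
      gz (fun n => conj (el a x n)) (fun n => conj (vv a x n)) T (2 * T) k48 k10 W N
        (j + (k + 1)) =
      2 ^ 40 * ckq (el a x) (vv a x) ((T : ℝ) / 1024)
        (fun n => (wq k48 W N n : ℝ) / 2 ^ 20) N k := by
  unfold ckq
  rw [Finset.mul_sum]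
  refine Finset.sum_congr rfl (fun j _ => ?_)
  rw [gz_eq h10]
  ring

lemma A_eq (k : ℕ) :
    ∑ j ∈ Finset.range (N - 1 - k), conj (hz k48 k24 P N j) * hz k48 k24 P N (j + (k + 1)) =
      2 ^ 40 * Aq (fun n => hz k48 k24 P N n / 2 ^ 20) N k := by
  unfold Aq
  rw [Finset.mul_sum]
  refine Finset.sum_congr rfl (fun j _ => ?_)
  simp only [map_div₀, map_pow, map_ofNat]
  ring

lemma cz_eq (h10 : k10 = 1024) :
    ∑ n ∈ Finset.range N, cz (el a x) (vv a x) (fun n => conj (el a x n))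
      (fun n => conj (vv a x n)) T (4 * T * T) k48 k10 W N n =
      ((2 ^ 40 * c0q (el a x) (vv a x) ((T : ℝ) / 1024)
        (fun n => (wq k48 W N n : ℝ) / 2 ^ 20) N : ℝ) : ℂ) := by
  unfold c0q
  rw [Finset.mul_sum, Complex.ofReal_sum]
  refine Finset.sum_congr rfl (fun n _ => ?_)
  unfold cz
  rw [WW_wt, h10]
  have h1 : ∀ z : ℂ, ((‖z‖ ^ 2 : ℝ) : ℂ) = conj z * z := by
    intro z
    rw [← Complex.normSq_eq_norm_sq, Complex.normSq_eq_conj_mul_self]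
  rw [Complex.ofReal_mul, Complex.ofReal_add, Complex.ofReal_mul, Complex.ofReal_mul, h1, h1]
  simp only [map_add, map_mul, Complex.conj_ofReal]
  push_cast
  ring

end

lemma sum_hz_le {k48 k24 P N : ℕ} (h24 : k24 = 2 ^ 24) (hN : N ≤ 32) :
    ∑ j ∈ Finset.range N, ‖hz k48 k24 P N j‖ ^ 2 ≤ 2 ^ 54 := by
  have h0 : ∀ n : ℕ, ((n % k24 : ℕ) : ℝ) ≤ 2 ^ 24 := by
    intro n
    have h1 : 0 < k24 := by rw [h24]; positivity
    have h2 : ((n % k24 : ℕ) : ℝ) ≤ (k24 : ℝ) := Nat.cast_le.2 (Nat.mod_lt n h1).le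
    have h3 : (k24 : ℝ) = 2 ^ 24 := by rw [h24]; norm_num
    rw [← h3]
    exact h2
  have h1 : ∀ j ∈ Finset.range N, ‖hz k48 k24 P N j‖ ^ 2 ≤ 2 ^ 49 := by
    intro j _
    rw [norm_hz]
    have hx1 : (hx k48 k24 P N j : ℝ) ≤ 2 ^ 24 := h0 _
    have hy1 : (hy k48 k24 P N j : ℝ) ≤ 2 ^ 24 := h0 _
    have hx0 : (0 : ℝ) ≤ hx k48 k24 P N j := Nat.cast_nonneg _
    have hy0 : (0 : ℝ) ≤ hy k48 k24 P N j := Nat.cast_nonneg _
    have hx2 : ((hx k48 k24 P N j : ℝ) - 4194304) ^ 2 ≤ 2 ^ 48 := by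
      rw [show (2 : ℝ) ^ 48 = (2 ^ 24) ^ 2 by norm_num]
      apply sq_le_sq' <;> norm_num at * <;> linarith
    have hy2 : ((hy k48 k24 P N j : ℝ) - 4194304) ^ 2 ≤ 2 ^ 48 := by
      rw [show (2 : ℝ) ^ 48 = (2 ^ 24) ^ 2 by norm_num]
      apply sq_le_sq' <;> norm_num at * <;> linarith
    calc _ ≤ (2 : ℝ) ^ 48 + 2 ^ 48 := add_le_add hx2 hy2
      _ = 2 ^ 49 := by norm_num
  refine (Finset.sum_le_sum h1).trans ?_
  rw [Finset.sum_const, Finset.card_range, nsmul_eq_mul]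
  have h2 : (N : ℝ) ≤ 32 := by exact_mod_cast hN
  calc (N : ℝ) * 2 ^ 49 ≤ 32 * 2 ^ 49 := by gcongr
    _ = 2 ^ 54 := by norm_num

lemma SS_wq_le {k48 W N : ℕ} (h48 : k48 = 2 ^ 48) (hN : N ≤ 32) :
    SS (fun n => (wq k48 W N n : ℝ) / 2 ^ 20) N ≤ 2 ^ 33 := by
  unfold SS
  have h1 : ∀ j ∈ Finset.range N, (wq k48 W N j : ℝ) / 2 ^ 20 ≤ 2 ^ 28 := by
    intro j _
    have h2 : wq k48 W N j ≤ k48 := wq_le (by rw [h48]; positivity) _ _ _
    have h3 : (wq k48 W N j : ℝ) ≤ (k48 : ℝ) := by exact_mod_cast h2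
    have h4 : (k48 : ℝ) = 2 ^ 48 := by rw [h48]; norm_num
    rw [h4] at h3
    rw [div_le_iff₀ (by positivity)]
    calc (wq k48 W N j : ℝ) ≤ 2 ^ 48 := h3
      _ = 2 ^ 28 * 2 ^ 20 := by norm_num
  refine (Finset.sum_le_sum h1).trans ?_
  rw [Finset.sum_const, Finset.card_range, nsmul_eq_mul]
  have h2 : (N : ℝ) ≤ 32 := by exact_mod_cast hN
  calc (N : ℝ) * 2 ^ 28 ≤ 32 * 2 ^ 28 := by gcongr
    _ = 2 ^ 33 := by norm_num

/-- The a priori bounds. -/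
lemma apri {a : ℝ} (ha0 : 0 ≤ a) (ha1 : a ≤ 1) {x : ℂ} (hx : ‖x‖ ≤ 1 / 2) {t0 : ℝ} (ht0 : 0 ≤ t0)
    (ht1 : t0 ≤ 1) {k48 W N : ℕ} (h48 : k48 = 2 ^ 48) (hN : N ≤ 32) :
    (∀ k, ‖ckq (el a x) (vv a x) t0 (fun n => (wq k48 W N n : ℝ) / 2 ^ 20) N k‖ ≤ 2 ^ 42) ∧
    c0q (el a x) (vv a x) t0 (fun n => (wq k48 W N n : ℝ) / 2 ^ 20) N ≤ 2 ^ 42 ∧
    0 ≤ c0q (el a x) (vv a x) t0 (fun n => (wq k48 W N n : ℝ) / 2 ^ 20) N := by
  have hρ : ∀ n < N, 0 ≤ (fun n => (wq k48 W N n : ℝ) / 2 ^ 20) n := fun n _ => by positivity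
  have hS := SS_wq_le (W := W) h48 hN
  have hS0 := SS_nonneg hρ
  have hN' : (N : ℝ) ≤ 32 := by exact_mod_cast hN
  have hG : (4 / 3 : ℝ) = 1 / (1 - (1 / 2) ^ 2) := by norm_num
  have hSN : SS (fun n => (wq k48 W N n : ℝ) / 2 ^ 20) N * N ≤ 2 ^ 38 := by
    calc _ ≤ (2 : ℝ) ^ 33 * 32 := mul_le_mul hS hN' (Nat.cast_nonneg _) (by positivity)
      _ = 2 ^ 38 := by norm_num
  have h2 : t0 ^ 2 ≤ 1 := by nlinarith
  refine ⟨fun k => ?_, ?_, c0q_nonneg hρ⟩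
  · refine (ckq_le hx (by norm_num) ha0 ha1 ht0 hρ k hG).trans ?_
    calc _ ≤ (2 : ℝ) ^ 38 * 16 := by
          refine mul_le_mul hSN ?_ (by positivity) (by positivity)
          nlinarith
      _ = 2 ^ 42 := by norm_num
  · refine (c0q_le hx (by norm_num) ha0 ha1 ht0 hρ hG).trans ?_
    calc _ ≤ (2 : ℝ) ^ 38 * 16 := by
          refine mul_le_mul hSN ?_ (by positivity) (by positivity)
          nlinarith
      _ = 2 ^ 42 := by norm_num

theorem ptc_sound {N K : ℕ} (hN : N ≤ 32) (hK : 60 * N + 100 ≤ K)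
    {m B H HH D2 nB cc ccb c1 c2 c3 k48 k24 k45 k23 k20 k10 T : ℕ} (hB : B = 2 ^ K)
    (hm : m = B * B + 1) (hH : H = 2 ^ (K - 1)) (hHH : HH = H + H * B)
    (hD2 : D2 = 2 ^ (60 * N)) (hnB : nB = m - B) (hcc : cc = m - 4194304 * (1 + B))
    (hccb : ccb = 4194304 * B - 4194304) (hc1 : c1 = T) (hc2 : c2 = 2 * T)
    (hc3 : c3 = 4 * T * T) (h48 : k48 = 2 ^ 48) (h24 : k24 = 2 ^ 24)
    (h45 : k45 = 35184372088832) (h23 : k23 = 8388608) (h20 : k20 = 2 ^ 20)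
    (h10 : k10 = 1024) (hT : T ≤ 1024) {a : ℝ} (ha0 : 0 ≤ a) (ha1 : a ≤ 1) {x : ℂ}
    (hx : ‖x‖ ≤ 1 / 2) {r : ℝ} {rr : List ℕ}
    (hrr : RV (fun i t => r ^ (2 * i) * 2 ^ 58 ≤ (t : ℝ)) N rr)
    {tau a' ph nxh q e1 phb nxhb e1b W P b : ℕ}
    (ra : Rep B 30 a' a) (rp : Rep B 30 ph (a * (1 + x))) (rx : Rep B 30 nxh (-x))
    (rq : Rep B 30 q (1 - (a : ℂ) ^ 2)) (re : Rep B 60 e1 (a * (1 + x) * a - 1))
    (rpb : Rep B 30 phb (a * (1 + conj x))) (rxb : Rep B 30 nxhb (-conj x))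
    (reb : Rep B 60 e1b (a * (1 + conj x) * a - 1))
    (h : ptc m B H HH D2 nB cc ccb c1 c2 c3 N k48 k24 k45 k23 k20 k10 rr tau a' ph nxh q e1 phb
      nxhb e1b W P b = true) {ζ : ℂ} (hζ : ‖ζ‖ = 1) :
    ∑ n ∈ Finset.range N, ‖el a x n + (((T : ℝ) / 1024 : ℝ) : ℂ) * yy a x ζ n‖ * r ^ n ≤
      (b : ℝ) / 2 ^ 20 - tau / 2 ^ 40 := by
  have hKK : 84 + 60 * N ≤ K - 1 := by omega
  have hB1 : 1 ≤ B := by rw [hB]; exact Nat.one_le_two_pow
  have hB2 : B = 2 * H := by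
    rw [hB, hH, ← pow_succ', Nat.sub_add_cancel (by omega)]
  have hle : 4194304 * (1 + B) ≤ m := by
    have h1 : 2 ^ 23 ≤ B := by
      rw [hB]; exact Nat.pow_le_pow_right (by norm_num) (by omega)
    have h2 : 2 ^ 23 * B ≤ B * B := Nat.mul_le_mul_right _ h1
    rw [hm]
    have h3 : 4194304 * (1 + B) ≤ 2 ^ 23 * B := by
      rw [show (2 : ℕ) ^ 23 = 4194304 * 2 by norm_num, mul_assoc]
      refine Nat.mul_le_mul_left _ ?_
      omega
    omega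
  unfold ptc at h
  -- the sequences
  obtain ⟨le, lv, h1, h2, h⟩ := seqs_sound hm (E := el a x) (U := uu a x) (V := vv a x)
    (p := a * (1 + x)) (x := x) (c := 1 - (a : ℂ) ^ 2) (fun n => by rw [el]) (fun n => by rw [uu])
    (fun n => by rw [vv]) rp rx rq N 0 _ _ _ _ _ _ _ _ (by simpa [el] using ra)
    (by simpa [el] using re) (by simpa [uu] using Rep.nat' B 30 1)
    (by have := rp.le (show 30 ≤ 60 by norm_num); simpa [uu] using this)
    (by simpa [vv] using Rep.nat' B 30 0)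
    (by have := rq.le (show 30 ≤ 60 by norm_num); simpa [vv] using this) RV.nil RV.nil h
  obtain ⟨leb, lvb, h3, h4, h⟩ := seqs_sound hm (E := fun n => conj (el a x n))
    (U := fun n => conj (uu a x n)) (V := fun n => conj (vv a x n))
    (p := a * (1 + conj x)) (x := conj x) (c := 1 - (a : ℂ) ^ 2) (conj_el a x) (conj_uu a x)
    (conj_vv a x) rpb rxb rq N 0 _ _ _ _ _ _ _ _ (by simpa [el] using ra)
    (by simpa [el] using reb) (by simpa [uu] using Rep.nat' B 30 1)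
    (by have := rpb.le (show 30 ≤ 60 by norm_num); simpa [uu] using this)
    (by simpa [vv] using Rep.nat' B 30 0)
    (by have := rq.le (show 30 ≤ 60 by norm_num); simpa [vv] using this) RV.nil RV.nil h
  rw [zero_add] at h1 h2 h3 h4
  -- the coefficients
  obtain ⟨vl, g, c0, kw, g1, g2, g3, g4, h⟩ := gls_sound (W0 := W) hm N (le_refl N) _ _ _ _ _ _ _
    _ _ _ _ h1 h2 h3 h4 hrr (by rw [Nat.sub_self, pow_zero, Nat.div_one])
    (by rw [Finset.Ico_self, Finset.sum_empty]; rfl) (by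
      rw [Finset.Ico_self, Finset.sum_empty]
      simpa using Rep.nat' B (60 * N) 0)
    (by rw [Finset.Ico_self, Finset.sum_empty]; simp) FW.nil FW.nil h
  obtain ⟨hl, hb, hh, j1, j2, j3, h⟩ := hls_sound (P0 := P) hm hcc hle hnB hB1 hccb h45 h23 N
    (le_refl N) _ _ _ _ (by rw [Nat.sub_self, pow_zero, Nat.div_one]) FW.nil FW.nil
    (by rw [Finset.Ico_self, Finset.sum_empty]; simp) h
  have hble := Nat.le_of_ble_eq_true h
  set t0 : ℝ := (T : ℝ) / 1024 with ht0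
  have ht00 : 0 ≤ t0 := div_nonneg (Nat.cast_nonneg _) (by norm_num)
  have ht01 : t0 ≤ 1 := by
    rw [ht0, div_le_one (by norm_num)]
    exact_mod_cast hT
  set ρ : ℕ → ℝ := fun n => (wq k48 W N n : ℝ) / 2 ^ 20 with hρ
  set hq : ℕ → ℂ := fun n => hz k48 k24 P N n / 2 ^ 20 with hhq
  obtain ⟨a1, a2, a3⟩ := apri (W := W) ha0 ha1 hx ht00 ht01 h48 hN
  rw [← hρ] at a1 a2 a3
  subst hc1 hc2 hc3
  have ek : ∀ k, ∑ j ∈ Finset.range (N - 1 - k), vv a x j *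
        gz (fun n => conj (el a x n)) (fun n => conj (vv a x n)) c1 (2 * c1) k48 k10 W N
          (j + (k + 1)) +
      ∑ j ∈ Finset.range (N - 1 - k), conj (hz k48 k24 P N j) * hz k48 k24 P N (j + (k + 1)) =
      2 ^ 40 * (ckq (el a x) (vv a x) t0 ρ N k + Aq hq N k) := by
    intro k
    rw [ck_eq h10, A_eq, mul_add]
  have hH' : (H : ℝ) = 2 ^ (K - 1) := by rw [hH]; push_cast; rfl
  have hHbig : (2 : ℝ) ^ 84 * 2 ^ (60 * N) ≤ (H : ℝ) := by
    rw [hH', ← pow_add]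
    exact pow_le_pow_right₀ (by norm_num) hKK
  have hD0 : (0 : ℝ) < 2 ^ (60 * N) := by positivity
  have hA : ∀ k, ‖Aq hq N k‖ ≤ 2 ^ 14 := by
    intro k
    refine (Aq_le hq N k).trans ?_
    have e1 : ∀ n, ‖hq n‖ ^ 2 = ‖hz k48 k24 P N n‖ ^ 2 / 2 ^ 40 := by
      intro n
      rw [hhq]
      simp only [norm_div, norm_pow, Complex.norm_ofNat, div_pow]
      norm_num
    rw [Finset.sum_congr rfl (fun n _ => e1 n), ← Finset.sum_div, div_le_iff₀ (by positivity)]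
    calc _ ≤ (2 : ℝ) ^ 54 := sum_hz_le h24 hN
      _ = 2 ^ 14 * 2 ^ 40 := by norm_num
  have hZ : ∀ k, k < N → ‖∑ j ∈ Finset.range (N - 1 - k), vv a x j *
        gz (fun n => conj (el a x n)) (fun n => conj (vv a x n)) c1 (2 * c1) k48 k10 W N
          (j + (k + 1)) +
      ∑ j ∈ Finset.range (N - 1 - k), conj (hz k48 k24 P N j) *
        hz k48 k24 P N (j + (k + 1))‖ * 2 ^ (60 * N) < (H : ℝ) := by
    intro k _
    rw [ek, norm_mul, norm_pow, Complex.norm_ofNat]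
    refine lt_of_lt_of_le (mul_lt_mul_of_pos_right ?_ hD0) hHbig
    have h5 := (norm_add_le (ckq (el a x) (vv a x) t0 ρ N k) (Aq hq N k)).trans
      (add_le_add (a1 k) (hA k))
    calc (2 : ℝ) ^ 40 * ‖ckq (el a x) (vv a x) t0 ρ N k + Aq hq N k‖ ≤
        2 ^ 40 * (2 ^ 42 + 2 ^ 14) := by gcongr
      _ < 2 ^ 84 := by norm_num
  have hcorr := corr_sound (D := 60 * N) hB2 hm hHH hD2
    (Pv := fun i t => Rep B (30 * (i + 1)) t (vv a x i))
    (Pg := fun i t => Rep B (30 * (i + 1)) t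
      (gz (fun n => conj (el a x n)) (fun n => conj (vv a x n)) c1 (2 * c1) k48 k10 W N i))
    (Ph := fun i t => Rep B 0 t (hz k48 k24 P N i))
    (Pb := fun i t => Rep B 0 t (conj (hz k48 k24 P N i)))
    (fun i j u v hi hj hu hv => (hu.mul hv).le (by omega))
    (fun i j u v hi hj hu hv => (hu.mul hv).le (by omega)) g1 j2 hZ g 0 g2 hl j1 0
  simp only [ek] at hcorr
  rw [← Finset.range_eq_Ico] at hcorr
  have hdec := dec_sound hB2 hm hHH hD2 g3 (by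
    rw [cz_eq h10, Complex.norm_real, Real.norm_eq_abs, abs_of_nonneg (by positivity)]
    refine lt_of_lt_of_le (mul_lt_mul_of_pos_right ?_ hD0) hHbig
    calc (2 : ℝ) ^ 40 * c0q (el a x) (vv a x) t0 ρ N ≤ 2 ^ 40 * 2 ^ 42 := by gcongr
      _ < 2 ^ 84 := by norm_num)
  rw [cz_eq h10, Complex.norm_real, Real.norm_eq_abs, abs_of_nonneg (by positivity)] at hdec
  have hfin : ((kw : ℝ) + hh + tau) * 2 ^ (60 * N) + (dec m B H HH D2 c0 +
      2 * corr m B H HH D2 vl hb g hl 0) ≤ b * 2 ^ 20 * 2 ^ (60 * N) := by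
    have h5 : (((kw + hh + tau) * D2 + (dec m B H HH D2 c0 +
      2 * corr m B H HH D2 vl hb g hl 0) : ℕ) : ℝ) ≤ ((b * k20 * D2 : ℕ) : ℝ) :=
      Nat.cast_le.2 hble
    have e20 : (k20 : ℝ) = 2 ^ 20 := by rw [h20]; norm_num
    have eD : (D2 : ℝ) = 2 ^ (60 * N) := by rw [hD2]; push_cast; rfl
    rw [Nat.cast_add, Nat.cast_mul, Nat.cast_add, Nat.cast_add, Nat.cast_add, Nat.cast_mul,
      Nat.cast_mul, Nat.cast_mul, e20, eD, Nat.cast_ofNat] at h5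
    exact h5
  have hmain := vertex_le a x hζ t0 (r := r) (ρ := ρ) (N := N)
    (fun n _ => by
      have := wq_pos k48 W N n
      have h5 : (0 : ℝ) < wq k48 W N n := by exact_mod_cast this
      exact div_pos h5 (by norm_num)) hq
  refine hmain.trans ?_
  have s1 : ∑ n ∈ Finset.range N, r ^ (2 * n) / (4 * ρ n) ≤ kw / 2 ^ 40 := by
    rw [le_div_iff₀ (by positivity), Finset.sum_mul]
    refine le_trans (le_of_eq ?_) g4
    refine Finset.sum_congr rfl (fun n _ => ?_)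
    have h5 : (0 : ℝ) < wq k48 W N n := by exact_mod_cast wq_pos k48 W N n
    rw [hρ]
    simp only
    field_simp
    norm_num
  have s2 : ∑ j ∈ Finset.range N, ‖hq j‖ ^ 2 = hh / 2 ^ 40 := by
    rw [j3, Finset.sum_div]
    refine Finset.sum_congr rfl (fun n _ => ?_)
    rw [hhq]
    simp only [norm_div, norm_pow, Complex.norm_ofNat, div_pow]
    norm_num
  have s3 : (0 : ℝ) + ∑ k ∈ Finset.range N, ‖(2 : ℂ) ^ 40 * (ckq (el a x) (vv a x) t0 ρ N k +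
      Aq hq N k)‖ * 2 ^ (60 * N) =
      2 ^ 40 * 2 ^ (60 * N) * ∑ k ∈ Finset.range N, ‖ckq (el a x) (vv a x) t0 ρ N k +
        Aq hq N k‖ := by
    rw [zero_add, Finset.mul_sum]
    refine Finset.sum_congr rfl (fun k _ => ?_)
    rw [norm_mul, norm_pow, Complex.norm_ofNat]
    ring
  rw [Nat.cast_zero, s3] at hcorr
  set C0 := c0q (el a x) (vv a x) t0 ρ N with hC0
  set S := ∑ k ∈ Finset.range N, ‖ckq (el a x) (vv a x) t0 ρ N k + Aq hq N k‖ with hS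
  have key : (2 : ℝ) ^ (60 * N) * (kw + hh + tau + 2 ^ 40 * C0 + 2 * (2 ^ 40 * S)) ≤
      2 ^ (60 * N) * (b * 2 ^ 20) := by
    have e6 : (2 : ℝ) ^ (60 * N) * (kw + hh + tau + 2 ^ 40 * C0 + 2 * (2 ^ 40 * S)) =
        (kw + hh + tau) * 2 ^ (60 * N) + (2 ^ 40 * C0 * 2 ^ (60 * N) +
          2 * (2 ^ 40 * 2 ^ (60 * N) * S)) := by ring
    have e7 : (2 : ℝ) ^ (60 * N) * (b * 2 ^ 20) = b * 2 ^ 20 * 2 ^ (60 * N) := by ring
    rw [e6, e7]
    linarith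
  have key2 := le_of_mul_le_mul_left key hD0
  rw [s2]
  have e2 : (b : ℝ) / 2 ^ 20 = b * 2 ^ 20 / 2 ^ 40 := by
    field_simp
  rw [e2, ← sub_div]
  have e3 : C0 = 2 ^ 40 * C0 / 2 ^ 40 := by field_simp
  have e4 : 2 * S = 2 * (2 ^ 40 * S) / 2 ^ 40 := by field_simp
  have e5 : (kw : ℝ) / 2 ^ 40 + 2 ^ 40 * C0 / 2 ^ 40 + hh / 2 ^ 40 + 2 * (2 ^ 40 * S) / 2 ^ 40 ≤
      (b * 2 ^ 20 - tau) / 2 ^ 40 := by
    rw [← add_div, ← add_div, ← add_div]
    exact div_le_div_of_nonneg_right (by linarith) (by positivity)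
  rw [← e3, ← e4] at e5
  linarith

end Pool.Agent.BNC
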